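import Mathlib

set_option autoImplicit false

open Finset Filter

namespace Pool.Agent.Helper89.Lambert

/-- splitting the divisors of `p^e * c`, `p ∤ c` -/
theorem sum_divisors_prime_pow_mul {M : Type*} [AddCommMonoid M] {p : ℕ} (hp : p.Prime) (e : ℕ)
    {c : ℕ} (hc : ¬ p ∣ c) (F : ℕ → M) :
    ∑ d ∈ (p ^ e * c).divisors, F d = ∑ a ∈ c.divisors, ∑ i ∈ range (e + 1), F (p ^ i * a) := by
  have hc0 : c ≠ 0 := by rintro rfl; exact hc (dvd_zero p)
  rw [Finset.sum_comm, ← Finset.sum_product']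
  symm
  refine Finset.sum_bij (fun x _ => p ^ x.1 * x.2) ?_ ?_ ?_ ?_
  · rintro ⟨i, a⟩ h
    simp only [mem_product, mem_range, Nat.mem_divisors] at h ⊢
    refine ⟨mul_dvd_mul (pow_dvd_pow p (by omega)) h.2.1, ?_⟩
    exact mul_ne_zero (pow_ne_zero _ hp.ne_zero) hc0
  · rintro ⟨i, a⟩ h ⟨j, b⟩ h' heq
    simp only [mem_product, mem_range, Nat.mem_divisors] at h h' heq
    have ha : ¬ p ∣ a := fun hh => hc (hh.trans h.2.1)
    have hb : ¬ p ∣ b := fun hh => hc (hh.trans h'.2.1)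
    have ha0 : a ≠ 0 := by rintro rfl; exact ha (dvd_zero p)
    have hb0 : b ≠ 0 := by rintro rfl; exact hb (dvd_zero p)
    have e1 : (p ^ i * a).factorization p = i := by
      rw [Nat.factorization_mul (pow_ne_zero _ hp.ne_zero) ha0]
      simp [hp.factorization_self, Nat.factorization_eq_zero_of_not_dvd ha]
    have e2 : (p ^ j * b).factorization p = j := by
      rw [Nat.factorization_mul (pow_ne_zero _ hp.ne_zero) hb0]
      simp [hp.factorization_self, Nat.factorization_eq_zero_of_not_dvd hb]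
    have hij : i = j := by rw [← e1, ← e2, heq]
    subst hij
    have : a = b := Nat.eq_of_mul_eq_mul_left (pow_pos hp.pos i) heq
    simp [this]
  · intro d hd
    rw [Nat.mem_divisors] at hd
    obtain ⟨x, y, hx, hy, rfl⟩ := (Nat.dvd_mul).1 hd.1
    obtain ⟨i, hi, rfl⟩ := (Nat.dvd_prime_pow hp).1 hx
    refine ⟨(i, y), ?_, rfl⟩
    simp only [mem_product, mem_range, Nat.mem_divisors]
    exact ⟨by omega, hy, hc0⟩
  · intro x _; rfl

/-- if `F` is `m`-periodic in the exponents of the primes of `s`, and these primes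
occur in `n` with exponent exactly `2m-1`, the divisor sum is divisible by `2^|s|`. -/
theorem two_pow_dvd_sum (m : ℕ) (hm : 0 < m) (s : Finset ℕ) (hs : ∀ p ∈ s, p.Prime) :
    ∀ (F : ℕ → ℕ) (_ : ∀ p ∈ s, ∀ a, ¬ p ∣ a → ∀ i < m, F (p ^ i * a) = F (p ^ (i + m) * a))
      (n : ℕ) (_ : n ≠ 0) (_ : ∀ p ∈ s, n.factorization p = 2 * m - 1),
      2 ^ s.card ∣ ∑ d ∈ n.divisors, F d := by
  classical
  induction s using Finset.induction_on with
  | empty => intro F _ n _ _; simp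
  | insert q s hq ih =>
    intro F hF n hn0 hn
    have hqp : q.Prime := hs q (mem_insert_self q s)
    have hnq := hn q (mem_insert_self q s)
    set c := n / q ^ (n.factorization q) with hcdef
    have hnc : n = q ^ (2 * m - 1) * c := by
      rw [hcdef, ← hnq]; exact (Nat.ordProj_mul_ordCompl_eq_self n q).symm
    have hc : ¬ q ∣ c := Nat.not_dvd_ordCompl hqp hn0
    have hc0 : c ≠ 0 := by rintro h; rw [h] at hc; exact hc (dvd_zero q)
    rw [hnc, sum_divisors_prime_pow_mul hqp _ hc, card_insert_of_notMem hq]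
    have key : ∀ a ∈ c.divisors, ∑ i ∈ range (2 * m - 1 + 1), F (q ^ i * a)
        = 2 * ∑ i ∈ range m, F (q ^ i * a) := by
      intro a ha
      have hqa : ¬ q ∣ a := fun hh => hc (hh.trans (Nat.dvd_of_mem_divisors ha))
      have : 2 * m - 1 + 1 = m + m := by omega
      rw [this, Finset.sum_range_add, two_mul]
      congr 1
      refine Finset.sum_congr rfl fun i hi => ?_
      rw [add_comm m i]
      exact (hF q (mem_insert_self q s) a hqa i (mem_range.1 hi)).symm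
    rw [Finset.sum_congr rfl key, ← Finset.mul_sum, pow_succ, mul_comm]
    refine mul_dvd_mul_left 2 ?_
    apply ih (fun p hp => hs p (mem_insert_of_mem hp)) (fun a => ∑ i ∈ range m, F (q ^ i * a)) ?_ c hc0
    · intro p hp
      have hpq : p ≠ q := fun h => hq (h ▸ hp)
      have := hn p (mem_insert_of_mem hp)
      rw [hnc, Nat.factorization_mul (pow_ne_zero _ hqp.ne_zero) hc0] at this
      simpa [hqp.factorization, hpq.symm, Finsupp.single_apply] using this
    · intro p hp a ha i hi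
      have hpp := hs p (mem_insert_of_mem hp)
      have hpq : p ≠ q := fun h => hq (h ▸ hp)
      refine Finset.sum_congr rfl fun l _ => ?_
      have h1 : ¬ p ∣ q ^ l * a := by
        intro hd
        rcases (hpp.dvd_mul).1 hd with h | h
        · exact hpq ((Nat.prime_dvd_prime_iff_eq hpp hqp).1 (hpp.dvd_of_dvd_pow h))
        · exact ha h
      have := hF p (mem_insert_of_mem hp) (q ^ l * a) h1 i hi
      calc F (q ^ l * (p ^ i * a)) = F (p ^ i * (q ^ l * a)) := by ring_nf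
        _ = F (p ^ (i + m) * (q ^ l * a)) := this
        _ = F (q ^ l * (p ^ (i + m) * a)) := by ring_nf


open Classical in
/-- number of divisors of `n` in `A` -/
noncomputable def dA (A : Set ℕ) (n : ℕ) : ℕ := ∑ d ∈ n.divisors, if d ∈ A then 1 else 0

theorem dA_le (A : Set ℕ) (n : ℕ) : dA A n ≤ n.divisors.card := by
  classical
  unfold dA
  calc _ ≤ ∑ d ∈ n.divisors, 1 := Finset.sum_le_sum fun d _ => by split_ifs <;> simp
    _ = _ := by simp

open Classical in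
theorem summable_pair (A : Set ℕ) :
    Summable fun c : ℕ+ × ℕ+ => if (c.1 : ℕ) ∈ A then ((1 : ℝ) / 2) ^ (c.1 * c.2 : ℕ) else 0 := by
  have h := summable_prod_mul_pow (𝕜 := ℝ) 0 (r := 1 / 2) (by rw [Real.norm_eq_abs]; norm_num [abs_of_pos])
  refine Summable.of_nonneg_of_le (fun c => ?_) (fun c => ?_) h
  · split_ifs <;> positivity
  · split_ifs
    · simp
    · simp

open Classical in
theorem tsum_eq (A : Set ℕ) :
    (∑' n : A, (1 : ℝ) / (2 ^ n.1 - 1)) = ∑' n : ℕ, (dA A n : ℝ) * (1 / 2) ^ n := by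
  have e1 : (∑' n : A, (1 : ℝ) / (2 ^ n.1 - 1))
      = ∑' a : ℕ+, ∑' k : ℕ+, if (a : ℕ) ∈ A then ((1 : ℝ) / 2) ^ (a * k : ℕ) else 0 := by
    rw [tsum_subtype A (fun n : ℕ => (1 : ℝ) / (2 ^ n - 1)),
      ← tsum_pnat_eq_tsum_of_eq_zero (f := A.indicator (fun n : ℕ => (1 : ℝ) / (2 ^ n - 1)))]
    · refine tsum_congr fun a => ?_
      by_cases ha : (a : ℕ) ∈ A
      · simp only [ha, if_true, Set.indicator_of_mem]
        have h2 : ((1 : ℝ) / 2) ^ (a : ℕ) < 1 := by
          apply pow_lt_one₀ (by norm_num) (by norm_num) a.ne_zero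
        have h3 : (0 : ℝ) < ((1 : ℝ) / 2) ^ (a : ℕ) := by positivity
        have := tsum_pnat_eq_tsum_succ (f := fun k : ℕ => ((1 : ℝ) / 2) ^ ((a : ℕ) * k))
        rw [this]
        simp only [pow_mul, pow_succ]
        rw [tsum_mul_right, tsum_geometric_of_lt_one h3.le h2]
        have h4 : (1 : ℝ) < 2 ^ (a : ℕ) := one_lt_pow₀ (by norm_num) a.ne_zero
        have h5 : ((1 : ℝ) / 2) ^ (a : ℕ) = (2 ^ (a : ℕ))⁻¹ := by simp
        rw [h5]
        have h6 : (2 : ℝ) ^ (a : ℕ) - 1 ≠ 0 := by linarith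
        have h7 : (2 : ℝ) ^ (a : ℕ) ≠ 0 := by positivity
        have h8 : 1 - ((2 : ℝ) ^ (a : ℕ))⁻¹ ≠ 0 := by
          rw [← h5]; linarith
        field_simp
      · simp [ha]
    · by_cases h0 : 0 ∈ A <;> simp [h0]
  have hs := Summable.tsum_sigma (sigmaAntidiagonalEquivProd.summable_iff.2 (summable_pair A))
  simp only [Function.comp_def] at hs
  rw [e1, ← (summable_pair A).tsum_prod, ← sigmaAntidiagonalEquivProd.tsum_eq, hs,
    ← tsum_pnat_eq_tsum_of_eq_zero (f := fun n : ℕ => (dA A n : ℝ) * (1 / 2) ^ n) (by simp [dA])]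
  refine tsum_congr fun n => ?_
  rw [tsum_fintype]
  have : ∀ b : (Nat.divisorsAntidiagonal (n : ℕ)),
      (if (((sigmaAntidiagonalEquivProd ⟨n, b⟩).1 : ℕ+) : ℕ) ∈ A then
        ((1 : ℝ) / 2) ^ (((sigmaAntidiagonalEquivProd ⟨n, b⟩).1 : ℕ) * ((sigmaAntidiagonalEquivProd ⟨n, b⟩).2 : ℕ))
       else 0) = (fun x : ℕ × ℕ => if x.1 ∈ A then ((1 : ℝ) / 2) ^ (n : ℕ) else 0) b.1 := by
    intro b
    have hb := (Nat.mem_divisorsAntidiagonal.1 b.2).1
    simp only [sigmaAntidiagonalEquivProd, divisorsAntidiagonalFactors, Equiv.coe_fn_mk, PNat.mk_coe, hb]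
  simp only [this]
  rw [(n : ℕ).divisorsAntidiagonal.sum_coe_sort (fun x : ℕ × ℕ => if x.1 ∈ A then ((1 : ℝ) / 2) ^ (n : ℕ) else 0),
    Nat.sum_divisorsAntidiagonal (fun x _ => if x ∈ A then ((1 : ℝ) / 2) ^ (n : ℕ) else 0)]
  unfold dA
  push_cast
  rw [Finset.sum_mul]
  refine Finset.sum_congr rfl fun d _ => ?_
  split_ifs <;> simp


theorem card_divisors_le_two_mul (n : ℕ) (D : ℕ) (hD : n ≤ D * D) :
    n.divisors.card ≤ 2 * ((Finset.Icc 1 D).filter (· ∣ n)).card := by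
  classical
  rcases Nat.eq_zero_or_pos n with rfl | hn
  · simp
  have hsub : n.divisors ⊆ ((Finset.Icc 1 D).filter (· ∣ n)) ∪
      ((Finset.Icc 1 D).filter (· ∣ n)).image (fun d => n / d) := by
    intro d hd
    have hdn := Nat.dvd_of_mem_divisors hd
    have hdpos : 0 < d := Nat.pos_of_mem_divisors hd
    by_cases h : d ≤ D
    · exact mem_union_left _ (by simp [hdn, h]; omega)
    · apply mem_union_right
      rw [mem_image]
      refine ⟨n / d, ?_, Nat.div_div_self hdn hn.ne'⟩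
      obtain ⟨e, rfl⟩ := hdn
      have he : 0 < e := Nat.pos_of_ne_zero (by rintro rfl; simp at hn)
      rw [Nat.mul_div_cancel_left _ hdpos]
      simp only [mem_filter, mem_Icc]
      refine ⟨⟨he, ?_⟩, Dvd.intro_left _ rfl⟩
      by_contra hcon
      push Not at h hcon
      have : D * D < d * e := Nat.mul_lt_mul'' h hcon
      omega
  calc n.divisors.card ≤ _ := card_le_card hsub
    _ ≤ _ := card_union_le _ _
    _ ≤ _ := by
      have := card_image_le (s := (Finset.Icc 1 D).filter (· ∣ n)) (f := fun d => n / d)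
      omega

theorem card_ap_le (c M d : ℕ) (hdM : Nat.Coprime d M) (T : ℕ) :
    ((range T).filter (fun t => d ∣ c + t * M)).card ≤ T / d + 1 := by
  classical
  have : ((range T).filter (fun t => d ∣ c + t * M)).card ≤ (range (T / d + 1)).card := by
    refine card_le_card_of_injOn (fun t => t / d) ?_ ?_
    · intro t ht
      simp only [coe_filter, mem_range, Set.mem_ofPred_eq] at ht
      simp only [coe_range, Set.mem_Iio]
      have := Nat.div_le_div_right (c := d) ht.1.le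
      omega
    · intro t ht t' ht' heq
      simp only [coe_filter, mem_range, Set.mem_ofPred_eq] at ht ht' heq
      have h1 : (c + t * M) ≡ (c + t' * M) [MOD d] :=
        ((Nat.modEq_zero_iff_dvd).2 ht.2).trans ((Nat.modEq_zero_iff_dvd).2 ht'.2).symm
      have h2 : t * M ≡ t' * M [MOD d] := Nat.ModEq.add_left_cancel' c h1
      have h3 : t ≡ t' [MOD d] := Nat.ModEq.cancel_right_of_coprime hdM h2
      have h4 : t % d = t' % d := h3
      rw [← Nat.div_add_mod t d, ← Nat.div_add_mod t' d, heq, h4]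
  simpa using this

theorem avg_bound (c M : ℕ) (hM : 0 < M) (hc : Nat.Coprime c M) (hcM : c ≤ 2 * M) :
    (∑ t ∈ range M, ((c + t * M).divisors.card : ℝ)) ≤ 2 * M * (3 + Real.log (2 * M)) := by
  classical
  have h1 : ∀ t ∈ range M, ((c + t * M).divisors.card : ℝ) ≤
      2 * ∑ d ∈ (Finset.Icc 1 (2 * M)), (if d ∣ c + t * M then (1 : ℝ) else 0) := by
    intro t ht
    have htM := mem_range.1 ht
    have hle : c + t * M ≤ (2 * M) * (2 * M) := by
      have : t * M ≤ M * M := Nat.mul_le_mul_right M htM.le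
      nlinarith
    have := card_divisors_le_two_mul (c + t * M) (2 * M) hle
    rw [Finset.sum_ite, Finset.sum_const_zero, add_zero, Finset.sum_const, nsmul_eq_mul, mul_one]
    exact_mod_cast this
  calc (∑ t ∈ range M, ((c + t * M).divisors.card : ℝ))
      ≤ ∑ t ∈ range M, 2 * ∑ d ∈ (Finset.Icc 1 (2 * M)), (if d ∣ c + t * M then (1 : ℝ) else 0) :=
        Finset.sum_le_sum h1
    _ = 2 * ∑ d ∈ (Finset.Icc 1 (2 * M)), ∑ t ∈ range M, (if d ∣ c + t * M then (1 : ℝ) else 0) := by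
        rw [← Finset.mul_sum, Finset.sum_comm]
    _ ≤ 2 * ∑ d ∈ (Finset.Icc 1 (2 * M)), ((M : ℝ) * (d : ℝ)⁻¹ + 1) := by
        refine mul_le_mul_of_nonneg_left (Finset.sum_le_sum fun d hd => ?_) (by norm_num)
        have hd1 : 0 < d := (mem_Icc.1 hd).1
        rw [Finset.sum_ite, Finset.sum_const_zero, add_zero, Finset.sum_const, nsmul_eq_mul, mul_one]
        by_cases hdM : Nat.Coprime d M
        · have := card_ap_le c M d hdM M
          have h2 : ((M / d : ℕ) : ℝ) ≤ (M : ℝ) / d := Nat.cast_div_le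
          calc ((((range M).filter (fun t => d ∣ c + t * M)).card : ℕ) : ℝ) ≤ ((M / d + 1 : ℕ) : ℝ) := by
                exact_mod_cast this
            _ ≤ _ := by push_cast; rw [← div_eq_mul_inv]; linarith
        · have : (range M).filter (fun t => d ∣ c + t * M) = ∅ := by
            rw [filter_eq_empty_iff]
            intro t _ hdiv
            apply hdM
            have h3 : Nat.Coprime (c + t * M) M := by
              rw [Nat.coprime_add_mul_right_left]; exact hc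
            exact Nat.Coprime.coprime_dvd_left hdiv h3
          rw [this]
          simp
          positivity
    _ = 2 * (M * (harmonic (2 * M) : ℝ) + 2 * M) := by
        rw [Finset.sum_add_distrib, ← Finset.mul_sum]
        congr 1
        congr 1
        · congr 1
          rw [harmonic_eq_sum_Icc]
          push_cast
          rfl
        · simp
    _ ≤ 2 * (M * (1 + Real.log ((2 * M : ℕ) : ℝ)) + 2 * M) := by
        gcongr
        exact_mod_cast harmonic_le_one_add_log (2 * M)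
    _ = _ := by push_cast; ring


theorem exists_crt (m k : ℕ) (hm : 0 < m) (p : Fin k × Fin k → ℕ) (hp : ∀ x, (p x).Prime)
    (hinj : Function.Injective p) :
    ∃ n₀ : ℕ, n₀ < ∏ x, (p x) ^ (2 * m) ∧
      ∀ t x, (n₀ + t * (∏ x, (p x) ^ (2 * m)) + (x.1 : ℕ) + 1).factorization (p x) = 2 * m - 1 := by
  classical
  have hpair : Set.Pairwise (↑(Finset.univ : Finset (Fin k × Fin k)))
      (Function.onFun Nat.Coprime (fun x => (p x) ^ (2 * m))) := by
    intro x _ y _ hxy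
    exact Nat.Coprime.pow _ _ ((Nat.coprime_primes (hp x) (hp y)).2 (fun h => hxy (hinj h)))
  have hne : ∀ i ∈ (Finset.univ : Finset (Fin k × Fin k)), (fun x => (p x) ^ (2 * m)) i ≠ 0 :=
    fun x _ => pow_ne_zero _ (hp x).ne_zero
  let a : Fin k × Fin k → ℕ := fun x => (p x) ^ (2 * m - 1) + (x.1 + 1) * ((p x) ^ (2 * m) - 1)
  let r := Nat.chineseRemainderOfFinset a (fun x => (p x) ^ (2 * m)) Finset.univ hne hpair
  refine ⟨r.1, Nat.chineseRemainderOfFinset_lt_prod a (fun x => (p x) ^ (2 * m)) hne hpair, ?_⟩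
  intro t x
  have hr := r.2 x (mem_univ x)
  have hppos : 0 < (p x) ^ (2 * m) := pow_pos (hp x).pos _
  have h1 : (r.1 + t * (∏ x, (p x) ^ (2 * m)) + (x.1 : ℕ) + 1) ≡ (p x) ^ (2 * m - 1)
      [MOD (p x) ^ (2 * m)] := by
    have h2 : t * (∏ x, (p x) ^ (2 * m)) ≡ 0 [MOD (p x) ^ (2 * m)] :=
      (Nat.modEq_zero_iff_dvd).2 ((dvd_prod_of_mem _ (mem_univ x)).mul_left t)
    have h3 : r.1 + t * (∏ x, (p x) ^ (2 * m)) ≡ a x + 0 [MOD (p x) ^ (2 * m)] := hr.add h2
    have h4 := h3.add_right ((x.1 : ℕ) + 1)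
    rw [← add_assoc] at h4
    refine h4.trans ?_
    have : a x + 0 + ((x.1 : ℕ) + 1) = (p x) ^ (2 * m - 1) + ((x.1 : ℕ) + 1) * (p x) ^ (2 * m) := by
      simp only [a]
      obtain ⟨q, hq⟩ : ∃ q, (p x) ^ (2 * m) = q + 1 := ⟨(p x) ^ (2 * m) - 1, by omega⟩
      rw [hq]
      simp only [Nat.add_sub_cancel]
      ring
    rw [this]
    exact (Nat.modEq_zero_iff_dvd.2 (Dvd.intro_left _ rfl)).add_left _
  set n := r.1 + t * (∏ x, (p x) ^ (2 * m)) + (x.1 : ℕ) + 1 with hn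
  have hn0 : n ≠ 0 := by omega
  have hd1 : (p x) ^ (2 * m - 1) ∣ n := by
    have h5 : n ≡ (p x) ^ (2 * m - 1) [MOD (p x) ^ (2 * m - 1)] :=
      h1.of_dvd (pow_dvd_pow _ (by omega))
    exact (Nat.modEq_zero_iff_dvd).1 (h5.trans ((Nat.modEq_zero_iff_dvd).2 dvd_rfl))
  have hd2 : ¬ (p x) ^ (2 * m) ∣ n := by
    intro hdiv
    have h6 : (p x) ^ (2 * m - 1) ≡ 0 [MOD (p x) ^ (2 * m)] :=
      h1.symm.trans ((Nat.modEq_zero_iff_dvd).2 hdiv)
    have h7 := (Nat.modEq_zero_iff_dvd).1 h6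
    have := (Nat.pow_dvd_pow_iff_le_right (hp x).one_lt).1 h7
    omega
  have e1 : 2 * m - 1 ≤ n.factorization (p x) := ((hp x).pow_dvd_iff_le_factorization hn0).1 hd1
  have e2 : ¬ 2 * m ≤ n.factorization (p x) := fun h =>
    hd2 (((hp x).pow_dvd_iff_le_factorization hn0).2 h)
  omega


theorem sum_half_Icc_le (k K : ℕ) : ∑ j ∈ Finset.Icc (k + 1) K, ((1 : ℝ) / 2) ^ j ≤ (1 / 2) ^ k := by
  have h : ∀ K, k ≤ K → ∑ j ∈ Finset.Icc (k + 1) K, ((1 : ℝ) / 2) ^ j = (1 / 2) ^ k - (1 / 2) ^ K := by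
    intro K hK
    induction K, hK using Nat.le_induction with
    | base => simp
    | succ n hn ih =>
      rw [Finset.sum_Icc_succ_top (by omega), ih]
      rw [pow_succ]; ring
  rcases le_or_gt k K with hK | hK
  · rw [h K hK]
    have : (0 : ℝ) < (1 / 2) ^ K := by positivity
    linarith
  · rw [Finset.Icc_eq_empty (by omega)]
    simp

theorem main_exists (m k : ℕ) (hm : 0 < m) (hk : 0 < k) (p : Fin k × Fin k → ℕ)
    (hp : ∀ x, (p x).Prime) (hinj : Function.Injective p) (hlow : ∀ x, 2 ^ k < p x) :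
    ∃ N : ℕ, (∀ x, (N + (x.1 : ℕ) + 1).factorization (p x) = 2 * m - 1) ∧
      N < (∏ x, (p x) ^ (2 * m)) * (∏ x, (p x) ^ (2 * m)) ∧
      ∑ j ∈ Finset.Icc (k + 1) (2 ^ k), ((N + j).divisors.card : ℝ) * (1 / 2) ^ j ≤
        2 * (3 + Real.log (2 * ((∏ x, (p x) ^ (2 * m) : ℕ) : ℝ))) * (1 / 2) ^ k := by
  classical
  obtain ⟨n₀, hn₀, hfac⟩ := exists_crt m k hm p hp hinj
  set M := ∏ x, (p x) ^ (2 * m) with hM
  have hMpos : 0 < M := Finset.prod_pos fun x _ => pow_pos (hp x).pos _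
  let x₀ : Fin k × Fin k := (⟨0, hk⟩, ⟨0, hk⟩)
  have hKM : 2 ^ k ≤ M := by
    have h1 : p x₀ ∣ M := (dvd_pow_self _ (by omega)).trans (dvd_prod_of_mem _ (mem_univ x₀))
    have h2 := Nat.le_of_dvd hMpos h1
    have := hlow x₀
    omega
  have hcop : ∀ j ∈ Finset.Icc (k + 1) (2 ^ k), Nat.Coprime (n₀ + j) M := by
    intro j hj
    rw [mem_Icc] at hj
    refine Nat.Coprime.prod_right fun x _ => Nat.Coprime.pow_right _ ?_
    rw [Nat.coprime_comm, (hp x).coprime_iff_not_dvd]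
    intro hdiv
    have h0 := hfac 0 x
    have h3 : p x ∣ n₀ + (x.1 : ℕ) + 1 := by
      apply Nat.dvd_of_factorization_pos
      simp only [zero_mul, add_zero] at h0
      rw [h0]; omega
    have h4 : p x ∣ (n₀ + j) - (n₀ + (x.1 : ℕ) + 1) := Nat.dvd_sub hdiv h3
    have h5 : (x.1 : ℕ) < k := x.1.2
    have h6 := Nat.le_of_dvd (by omega) h4
    have := hlow x
    omega
  have havg : ∑ t ∈ range M, ∑ j ∈ Finset.Icc (k + 1) (2 ^ k),
      ((n₀ + t * M + j).divisors.card : ℝ) * (1 / 2) ^ j ≤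
      ∑ t ∈ range M, 2 * (3 + Real.log (2 * (M : ℝ))) * (1 / 2) ^ k := by
    rw [Finset.sum_comm]
    have hlog : 0 ≤ Real.log (2 * (M : ℝ)) := by
      apply Real.log_nonneg
      have : (1 : ℝ) ≤ M := by exact_mod_cast hMpos
      linarith
    calc ∑ j ∈ Finset.Icc (k + 1) (2 ^ k), ∑ t ∈ range M,
          ((n₀ + t * M + j).divisors.card : ℝ) * (1 / 2) ^ j
        ≤ ∑ j ∈ Finset.Icc (k + 1) (2 ^ k), (2 * M * (3 + Real.log (2 * M))) * (1 / 2) ^ j := by
          refine Finset.sum_le_sum fun j hj => ?_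
          rw [← Finset.sum_mul]
          have hb := avg_bound (n₀ + j) M hMpos (hcop j hj) (by
            have := (mem_Icc.1 hj).2; omega)
          have he : ∀ t, n₀ + t * M + j = n₀ + j + t * M := fun t => by ring
          simp only [he]
          gcongr
      _ = (2 * M * (3 + Real.log (2 * M))) * ∑ j ∈ Finset.Icc (k + 1) (2 ^ k), ((1 : ℝ) / 2) ^ j := by
          rw [Finset.mul_sum]
      _ ≤ (2 * M * (3 + Real.log (2 * M))) * (1 / 2) ^ k := by
          apply mul_le_mul_of_nonneg_left (sum_half_Icc_le k (2 ^ k))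
          positivity
      _ = _ := by
          rw [Finset.sum_const, card_range, nsmul_eq_mul]; ring
  obtain ⟨t, ht, hle⟩ := Finset.exists_le_of_sum_le (nonempty_range_iff.2 hMpos.ne') havg
  refine ⟨n₀ + t * M, fun x => hfac t x, ?_, hle⟩
  have := mem_range.1 ht
  nlinarith


theorem summable_card : Summable fun n : ℕ => (n.divisors.card : ℝ) * (1 / 2) ^ n := by
  have h := summable_pow_mul_geometric_of_norm_lt_one (R := ℝ) 1 (r := 1 / 2)
    (by rw [Real.norm_eq_abs]; norm_num [abs_of_pos])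
  refine Summable.of_nonneg_of_le (fun n => by positivity) (fun n => ?_) h
  have : (n.divisors.card : ℝ) ≤ n := by exact_mod_cast Nat.card_divisors_le_self n
  simp only [pow_one]
  gcongr

theorem summable_dA (A : Set ℕ) : Summable fun n : ℕ => (dA A n : ℝ) * (1 / 2) ^ n := by
  refine Summable.of_nonneg_of_le (fun n => by positivity) (fun n => ?_) summable_card
  have : (dA A n : ℝ) ≤ (n.divisors.card : ℝ) := by exact_mod_cast dA_le A n
  gcongr

theorem shift (A : Set ℕ) (N k : ℕ) (hdiv : ∀ j, 1 ≤ j → j ≤ k → 2 ^ j ∣ dA A (N + j)) :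
    ∃ z : ℤ, (2 : ℝ) ^ N * (∑' n : A, (1 : ℝ) / (2 ^ n.1 - 1)) =
      z + ∑' i : ℕ, (dA A (N + k + 1 + i) : ℝ) * (1 / 2) ^ (k + 1 + i) := by
  rw [tsum_eq, ← (summable_dA A).sum_add_tsum_nat_add (N + k + 1), mul_add, ← tsum_mul_left]
  have hz : ∀ n ∈ range (N + k + 1), ∃ w : ℤ, (2 : ℝ) ^ N * ((dA A n : ℝ) * (1 / 2) ^ n) = w := by
    intro n hn
    have hn' := mem_range.1 hn
    rcases le_or_gt n N with h | h
    · obtain ⟨q, rfl⟩ := Nat.exists_eq_add_of_le h
      refine ⟨dA A n * 2 ^ q, ?_⟩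
      push_cast
      rw [pow_add]
      have : (2 : ℝ) ^ n * (1 / 2) ^ n = 1 := by rw [← mul_pow]; norm_num
      calc (2 : ℝ) ^ n * 2 ^ q * (dA A n * (1 / 2) ^ n) = (2 ^ n * (1 / 2) ^ n) * (dA A n * 2 ^ q) := by ring
        _ = _ := by rw [this, one_mul]
    · obtain ⟨q, rfl⟩ := Nat.exists_eq_add_of_le h.le
      obtain ⟨c, hc⟩ := hdiv q (by omega) (by omega)
      refine ⟨c, ?_⟩
      rw [hc]
      push_cast
      have h1 : (2 : ℝ) ^ N * (1 / 2) ^ N = 1 := by rw [← mul_pow]; norm_num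
      have h2 : (2 : ℝ) ^ q * (1 / 2) ^ q = 1 := by rw [← mul_pow]; norm_num
      calc (2 : ℝ) ^ N * (2 ^ q * c * (1 / 2) ^ (N + q))
          = (2 ^ N * (1 / 2) ^ N) * (2 ^ q * (1 / 2) ^ q) * c := by rw [pow_add]; ring
        _ = _ := by rw [h1, h2]; ring
  choose! w hw using hz
  refine ⟨∑ n ∈ range (N + k + 1), w n, ?_⟩
  rw [Finset.mul_sum, Finset.sum_congr rfl hw]
  push_cast
  congr 1
  refine tsum_congr fun i => ?_
  have h1 : (2 : ℝ) ^ N * (1 / 2) ^ N = 1 := by rw [← mul_pow]; norm_num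
  have h3 : i + (N + k + 1) = N + k + 1 + i := by ring
  have h4 : ((1 : ℝ) / 2) ^ (N + k + 1 + i) = (1 / 2) ^ N * (1 / 2) ^ (k + 1 + i) := by
    rw [← pow_add]; congr 1; ring
  rw [h3, h4]
  calc (2 : ℝ) ^ N * ((dA A (N + k + 1 + i) : ℝ) * ((1 / 2) ^ N * (1 / 2) ^ (k + 1 + i)))
      = (2 ^ N * (1 / 2) ^ N) * ((dA A (N + k + 1 + i) : ℝ) * (1 / 2) ^ (k + 1 + i)) := by ring
    _ = _ := by rw [h1, one_mul]

/-- the tail is bounded by the average part plus a trivial part -/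
theorem tail_le (A : Set ℕ) (N k K : ℕ) (hkK : k ≤ K) :
    ∑' i : ℕ, (dA A (N + k + 1 + i) : ℝ) * (1 / 2) ^ (k + 1 + i) ≤
      ∑ j ∈ Finset.Icc (k + 1) K, ((N + j).divisors.card : ℝ) * (1 / 2) ^ j
        + (N + K + 2) * (1 / 2) ^ K := by
  have hs : Summable fun i : ℕ => ((N + k + 1 + i).divisors.card : ℝ) * (1 / 2) ^ (k + 1 + i) := by
    have h := (summable_nat_add_iff (N + k + 1)).2 summable_card
    have h2 := h.mul_left ((2 : ℝ) ^ N)
    refine h2.congr fun i => ?_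
    have h1 : (2 : ℝ) ^ N * (1 / 2) ^ N = 1 := by rw [← mul_pow]; norm_num
    have h3 : i + (N + k + 1) = N + k + 1 + i := by ring
    have h4 : ((1 : ℝ) / 2) ^ (N + k + 1 + i) = (1 / 2) ^ N * (1 / 2) ^ (k + 1 + i) := by
      rw [← pow_add]; congr 1; ring
    rw [h3, h4]
    calc (2 : ℝ) ^ N * (((N + k + 1 + i).divisors.card : ℝ) * ((1 / 2) ^ N * (1 / 2) ^ (k + 1 + i)))
        = (2 ^ N * (1 / 2) ^ N) * (((N + k + 1 + i).divisors.card : ℝ) * (1 / 2) ^ (k + 1 + i)) := by ring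
      _ = _ := by rw [h1, one_mul]
  have hsA : Summable fun i : ℕ => (dA A (N + k + 1 + i) : ℝ) * (1 / 2) ^ (k + 1 + i) := by
    refine Summable.of_nonneg_of_le (fun n => by positivity) (fun n => ?_) hs
    have : (dA A (N + k + 1 + n) : ℝ) ≤ ((N + k + 1 + n).divisors.card : ℝ) := by
      exact_mod_cast dA_le A _
    gcongr
  have h1 : ∑' i : ℕ, (dA A (N + k + 1 + i) : ℝ) * (1 / 2) ^ (k + 1 + i) ≤
      ∑' i : ℕ, ((N + k + 1 + i).divisors.card : ℝ) * (1 / 2) ^ (k + 1 + i) := by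
    refine hsA.tsum_le_tsum (fun i => ?_) hs
    have : (dA A (N + k + 1 + i) : ℝ) ≤ ((N + k + 1 + i).divisors.card : ℝ) := by
      exact_mod_cast dA_le A _
    gcongr
  refine h1.trans ?_
  obtain ⟨q, rfl⟩ := Nat.exists_eq_add_of_le hkK
  rw [← hs.sum_add_tsum_nat_add q]
  refine add_le_add (le_of_eq ?_) ?_
  · rw [show Finset.Icc (k + 1) (k + q) = Finset.Ico (k + 1) (k + 1 + q) by
        ext x; simp only [mem_Icc, mem_Ico]; omega]
    rw [Finset.sum_Ico_eq_sum_range]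
    have : k + 1 + q - (k + 1) = q := by omega
    rw [this]
    refine Finset.sum_congr rfl fun i _ => ?_
    rw [show N + k + 1 + i = N + (k + 1 + i) by ring]
  · have hgeo : Summable fun i : ℕ => ((1 : ℝ) / 2) ^ i := summable_geometric_of_lt_one (by norm_num) (by norm_num)
    have hgeo2 : Summable fun i : ℕ => (i : ℝ) * ((1 : ℝ) / 2) ^ i := by
      simpa using summable_pow_mul_geometric_of_norm_lt_one (R := ℝ) 1 (r := 1 / 2)
        (by rw [Real.norm_eq_abs]; norm_num [abs_of_pos])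
    have hsum : ∑' i : ℕ, ((1 : ℝ) / 2) ^ i = 2 := tsum_geometric_two
    have hsum2 : ∑' i : ℕ, (i : ℝ) * ((1 : ℝ) / 2) ^ i = 2 := by
      rw [tsum_coe_mul_geometric_of_norm_lt_one (by rw [Real.norm_eq_abs]; norm_num [abs_of_pos])]
      norm_num
    have hS : Summable fun i : ℕ => ((1 / 2 : ℝ) ^ (k + q + 1)) *
        (((N : ℝ) + (k + q) + 1) * (1 / 2) ^ i + i * (1 / 2) ^ i) :=
      ((hgeo.mul_left _).add hgeo2).mul_left _
    have hs' := (summable_nat_add_iff q).2 hs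
    calc ∑' i : ℕ, ((N + k + 1 + (i + q)).divisors.card : ℝ) * (1 / 2) ^ (k + 1 + (i + q))
        ≤ ∑' i : ℕ, ((1 / 2 : ℝ) ^ (k + q + 1)) *
        (((N : ℝ) + (k + q) + 1) * (1 / 2) ^ i + i * (1 / 2) ^ i) := by
          refine hs'.tsum_le_tsum (fun i => ?_) hS
          have : ((N + k + 1 + (i + q)).divisors.card : ℝ) ≤ (N + k + 1 + (i + q) : ℕ) := by
            exact_mod_cast Nat.card_divisors_le_self _
          calc _ ≤ ((N + k + 1 + (i + q) : ℕ) : ℝ) * (1 / 2) ^ (k + 1 + (i + q)) := by gcongr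
            _ = _ := by push_cast; rw [show k + 1 + (i + q) = (k + q + 1) + i by ring, pow_add]; ring
      _ = (1 / 2 : ℝ) ^ (k + q + 1) * (((N : ℝ) + (k + q) + 1) * 2 + 2) := by
          rw [tsum_mul_left, ((hgeo.mul_left _).tsum_add hgeo2), tsum_mul_left, hsum, hsum2]
      _ = _ := by push_cast; rw [pow_succ]; ring

theorem irrational_of_small (S : ℝ)
    (h : ∀ ε : ℝ, 0 < ε → ∃ (N : ℕ) (z : ℤ) (τ : ℝ), (2 : ℝ) ^ N * S = z + τ ∧ 0 < τ ∧ τ < ε) :
    Irrational S := by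
  rintro ⟨q, rfl⟩
  have hq : (0 : ℝ) < q.den := by exact_mod_cast q.den_pos
  obtain ⟨N, z, τ, h1, h2, h3⟩ := h (1 / q.den) (by positivity)
  have h4 : (q : ℝ) * q.den = q.num := by exact_mod_cast Rat.mul_den_eq_num q
  have h5 : τ * q.den = (2 ^ N * q.num - z * q.den : ℤ) := by
    push_cast
    rw [← h4]
    have : τ = 2 ^ N * (q : ℝ) - z := by linarith
    rw [this]; ring
  have h6 : (0 : ℝ) < ((2 ^ N * q.num - z * q.den : ℤ) : ℝ) := by rw [← h5]; positivity
  have h7 : ((2 ^ N * q.num - z * q.den : ℤ) : ℝ) < 1 := by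
    rw [← h5]
    calc τ * q.den < 1 / q.den * q.den := by gcongr
      _ = 1 := by field_simp
  have h8 : (0 : ℤ) < 2 ^ N * q.num - z * q.den := by exact_mod_cast h6
  have h9 : (2 ^ N * q.num - z * q.den : ℤ) < 1 := by exact_mod_cast h7
  omega


theorem ncard_Iic_two_pow_le (P : Set ℕ) (n : ℕ) : (P ∩ Set.Iic (2 ^ n)).ncard ≤ 2 ^ n + 1 := by
  calc (P ∩ Set.Iic (2 ^ n)).ncard ≤ (Set.Iic (2 ^ n)).ncard :=
        Set.ncard_le_ncard Set.inter_subset_right (Set.finite_Iic _)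
    _ = _ := by rw [← Finset.coe_Iic, Set.ncard_coe_finset]; simp

theorem sparse_bound (P : Set ℕ) (l₀ : ℕ)
    (h : ∀ l, l₀ ≤ l → (P ∩ Set.Ioc (2 ^ (2 * l)) (2 ^ (2 ^ l))).ncard < 4 * l ^ 2) (n : ℕ) :
    (P ∩ Set.Iic (2 ^ n)).ncard ≤ (2 ^ (2 ^ (max l₀ 4)) + 1) + 4 * (Nat.clog 2 n) ^ 3 := by
  induction n using Nat.strong_induction_on with
  | _ n ih =>
    set L := max l₀ 4 with hL
    rcases le_or_gt (Nat.clog 2 n) L with hc | hc
    · have h1 : n ≤ 2 ^ L := (Nat.clog_le_iff_le_pow (by norm_num)).1 hc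
      calc (P ∩ Set.Iic (2 ^ n)).ncard ≤ 2 ^ n + 1 := ncard_Iic_two_pow_le P n
        _ ≤ 2 ^ (2 ^ L) + 1 := by
          have := Nat.pow_le_pow_right (show 0 < 2 by norm_num) h1
          omega
        _ ≤ _ := Nat.le_add_right _ _
    · set l := Nat.clog 2 n with hl
      have hl5 : 5 ≤ l := by omega
      have hll₀ : l₀ ≤ l := by omega
      have h1 : n ≤ 2 ^ l := Nat.le_pow_clog (by norm_num) n
      have h2 : 2 ^ (l - 1) < n := by
        by_contra hcon
        push Not at hcon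
        have := (Nat.clog_le_iff_le_pow (b := 2) (by norm_num)).2 hcon
        omega
      have h3 : 2 * l ≤ 2 ^ (l - 1) := by
        obtain ⟨q, hq⟩ := Nat.exists_eq_add_of_le hl5
        rw [hq]
        clear_value l
        clear hq
        induction q with
        | zero => norm_num
        | succ q ih2 =>
          have : 5 + (q + 1) - 1 = (5 + q - 1) + 1 := by omega
          rw [this, pow_succ]
          omega
      have h4 := ih (2 * l) (by omega)
      have h5 : Nat.clog 2 (2 * l) ≤ l - 1 := (Nat.clog_le_iff_le_pow (by norm_num)).2 h3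
      have hsub : P ∩ Set.Iic (2 ^ n) ⊆ (P ∩ Set.Iic (2 ^ (2 * l))) ∪
          (P ∩ Set.Ioc (2 ^ (2 * l)) (2 ^ (2 ^ l))) := by
        rintro x ⟨hx1, hx2⟩
        rcases le_or_gt x (2 ^ (2 * l)) with h | h
        · exact Or.inl ⟨hx1, h⟩
        · exact Or.inr ⟨hx1, h, (Set.mem_Iic.1 hx2).trans (Nat.pow_le_pow_right (by norm_num) h1)⟩
      have h6 : (P ∩ Set.Iic (2 ^ n)).ncard ≤ (P ∩ Set.Iic (2 ^ (2 * l))).ncard +
          (P ∩ Set.Ioc (2 ^ (2 * l)) (2 ^ (2 ^ l))).ncard :=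
        (Set.ncard_le_ncard hsub (((Set.finite_Iic _).inter_of_right _).union
          ((Set.finite_Ioc _ _).inter_of_right _))).trans (Set.ncard_union_le _ _)
      have h7 := h l hll₀
      have h8 : (Nat.clog 2 (2 * l)) ^ 3 ≤ (l - 1) ^ 3 := Nat.pow_le_pow_left h5 3
      have h9 : (l - 1) ^ 3 + l ^ 2 ≤ l ^ 3 := by
        obtain ⟨q, hq⟩ : ∃ q, l = q + 1 := ⟨l - 1, by omega⟩
        rw [hq]
        simp only [Nat.add_sub_cancel]
        nlinarith
      omega

theorem frequently_many (P : Set ℕ)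
    (hden : ∃ᶠ x : ℕ in atTop, (Real.log (Real.log x)) ^ 4 ≤ ((P ∩ Set.Iic x).ncard : ℝ)) :
    ∃ᶠ l : ℕ in atTop, 4 * l ^ 2 ≤ (P ∩ Set.Ioc (2 ^ (2 * l)) (2 ^ (2 ^ l))).ncard := by
  by_contra hcon
  rw [not_frequently, eventually_atTop] at hcon
  obtain ⟨l₀, hl₀⟩ := hcon
  have hb := sparse_bound P l₀ (fun l hl => by have := hl₀ l hl; omega)
  set C : ℝ := ((2 ^ (2 ^ (max l₀ 4)) + 1 : ℕ) : ℝ) with hC
  apply hden
  have ht : Tendsto (fun x : ℕ => Real.log (Real.log x)) atTop atTop :=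
    Real.tendsto_log_atTop.comp (Real.tendsto_log_atTop.comp tendsto_natCast_atTop_atTop)
  filter_upwards [ht.eventually_ge_atTop (C + 200), eventually_ge_atTop 16] with x hx hx16
  rw [not_le]
  set u := Real.log (Real.log x) with hu
  have hCpos : 0 ≤ C := by positivity
  have hlx : 1 ≤ Real.log x := by
    rw [Real.le_log_iff_exp_le (by positivity)]
    have : Real.exp 1 < 3 := lt_trans Real.exp_one_lt_d9 (by norm_num)
    have : (16 : ℝ) ≤ x := by exact_mod_cast hx16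
    linarith
  have hlog2 : 0.69 < Real.log 2 := lt_trans (by norm_num) Real.log_two_gt_d9
  -- first clog
  have h1 : (Nat.clog 2 x : ℝ) ≤ 3 * Real.log x := by
    have hlt : 2 ^ (Nat.clog 2 x - 1) < x := Nat.pow_pred_clog_lt_self (by norm_num) (by omega)
    have hlt' : ((2 : ℝ) ^ (Nat.clog 2 x - 1)) < x := by exact_mod_cast hlt
    have h := Real.log_lt_log (by positivity) hlt'
    rw [Real.log_pow] at h
    have hcpos : 1 ≤ Nat.clog 2 x := Nat.clog_pos (by norm_num) (by omega)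
    rw [Nat.cast_sub hcpos] at h
    push_cast at h
    nlinarith
  have h2 : (Nat.clog 2 (Nat.clog 2 x) : ℝ) ≤ 2 * u + 4 := by
    rcases Nat.lt_or_ge (Nat.clog 2 x) 2 with hs | hs
    · have : Nat.clog 2 (Nat.clog 2 x) = 0 := Nat.clog_of_right_le_one (by omega) 2
      rw [this]; simp; linarith
    have hlt : 2 ^ (Nat.clog 2 (Nat.clog 2 x) - 1) < Nat.clog 2 x :=
      Nat.pow_pred_clog_lt_self (by norm_num) (by omega)
    have hlt' : ((2 : ℝ) ^ (Nat.clog 2 (Nat.clog 2 x) - 1)) < 3 * Real.log x :=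
      lt_of_lt_of_le (by exact_mod_cast hlt) h1
    have h := Real.log_lt_log (by positivity) hlt'
    rw [Real.log_pow, Real.log_mul (by norm_num) (by positivity)] at h
    have hcpos : 1 ≤ Nat.clog 2 (Nat.clog 2 x) := Nat.clog_pos (by norm_num) hs
    rw [Nat.cast_sub hcpos] at h
    push_cast at h
    have hlog3 : Real.log 3 ≤ 2 := by
      have := Real.log_le_sub_one_of_pos (show (0 : ℝ) < 3 by norm_num)
      linarith
    nlinarith
  have h3 : ((P ∩ Set.Iic x).ncard : ℝ) ≤ C + 4 * (2 * u + 4) ^ 3 := by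
    have hx2 : x ≤ 2 ^ (Nat.clog 2 x) := Nat.le_pow_clog (by norm_num) x
    have h4 : (P ∩ Set.Iic x).ncard ≤ (P ∩ Set.Iic (2 ^ (Nat.clog 2 x))).ncard :=
      Set.ncard_le_ncard (Set.inter_subset_inter_right _ (Set.Iic_subset_Iic.2 hx2))
        ((Set.finite_Iic _).inter_of_right _)
    have h5 := hb (Nat.clog 2 x)
    have h6 : ((P ∩ Set.Iic x).ncard : ℝ) ≤ C + 4 * (Nat.clog 2 (Nat.clog 2 x) : ℝ) ^ 3 := by
      rw [hC]; exact_mod_cast h4.trans h5
    refine h6.trans ?_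
    gcongr
  refine lt_of_le_of_lt h3 ?_
  have h7 : (2 * u + 4) ^ 3 ≤ (3 * u) ^ 3 := by
    apply pow_le_pow_left₀ <;> linarith
  have h8 : C + 4 * (3 * u) ^ 3 < u ^ 4 := by
    have hu3 : (1 : ℝ) ≤ u ^ 3 := one_le_pow₀ (by linarith)
    have : u ^ 4 = u * u ^ 3 := by ring
    rw [this]
    nlinarith
  nlinarith


theorem tendsto_bound (m : ℕ) : Tendsto (fun l : ℕ =>
    2 * (4 + 8 * (m : ℝ) * l ^ 2 * 2 ^ l) * (1 / 2) ^ (2 * l) +
      (2 ^ (16 * m * l ^ 2 * 2 ^ l) + 2 ^ (2 * l) + 2) * (1 / 2) ^ (2 ^ (2 * l))) atTop (nhds 0) := by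
  have t1 : Tendsto (fun l : ℕ => (l : ℝ) ^ 2 / 2 ^ l) atTop (nhds 0) :=
    tendsto_pow_const_div_const_pow_of_one_lt 2 (by norm_num)
  have t2 : Tendsto (fun l : ℕ => ((1 : ℝ) / 4) ^ l) atTop (nhds 0) :=
    tendsto_pow_atTop_nhds_zero_of_lt_one (by norm_num) (by norm_num)
  have t3 : Tendsto (fun l : ℕ => ((1 : ℝ) / 2) ^ l) atTop (nhds 0) :=
    tendsto_pow_atTop_nhds_zero_of_lt_one (by norm_num) (by norm_num)
  have f1 : Tendsto (fun l : ℕ => 2 * (4 + 8 * (m : ℝ) * l ^ 2 * 2 ^ l) * (1 / 2) ^ (2 * l))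
      atTop (nhds 0) := by
    have : (fun l : ℕ => 2 * (4 + 8 * (m : ℝ) * l ^ 2 * 2 ^ l) * (1 / 2) ^ (2 * l)) =
        fun l : ℕ => 8 * (1 / 4) ^ l + 16 * (m : ℝ) * ((l : ℝ) ^ 2 / 2 ^ l) := by
      funext l
      have h1 : ((1 : ℝ) / 2) ^ (2 * l) = (1 / 4) ^ l := by rw [pow_mul]; norm_num
      have h2 : ((1 : ℝ) / 2) ^ (2 * l) = (1 / 2) ^ l * (1 / 2) ^ l := by rw [← pow_add]; congr 1; ring
      have h3 : (2 : ℝ) ^ l * (1 / 2) ^ l = 1 := by rw [← mul_pow]; norm_num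
      have h4 : (l : ℝ) ^ 2 / 2 ^ l = (l : ℝ) ^ 2 * (1 / 2) ^ l := by
        rw [div_eq_mul_inv, one_div, inv_pow]
      rw [h4, ← h1, h2]
      calc 2 * (4 + 8 * (m : ℝ) * l ^ 2 * 2 ^ l) * ((1 / 2) ^ l * (1 / 2) ^ l)
          = 8 * ((1 / 2) ^ l * (1 / 2) ^ l) + 16 * (m : ℝ) * (l ^ 2 * (1 / 2) ^ l) * (2 ^ l * (1 / 2) ^ l) := by ring
        _ = _ := by rw [h3]; ring
    rw [this]
    simpa using (t2.const_mul 8).add (t1.const_mul (16 * (m : ℝ)))
  have f2 : Tendsto (fun l : ℕ => ((2 : ℝ) ^ (2 * l) + 2) * (1 / 2) ^ (2 ^ (2 * l))) atTop (nhds 0) := by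
    have hy : Tendsto (fun y : ℕ => ((y : ℝ) + 2) * (1 / 2) ^ y) atTop (nhds 0) := by
      have a1 : Tendsto (fun y : ℕ => (y : ℝ) * (1 / 2) ^ y) atTop (nhds 0) :=
        tendsto_self_mul_const_pow_of_lt_one (by norm_num) (by norm_num)
      have := a1.add (t3.const_mul 2)
      simp only [mul_zero, add_zero] at this
      refine this.congr fun y => by ring
    have hp : Tendsto (fun l : ℕ => 2 ^ (2 * l)) atTop atTop :=
      (tendsto_pow_atTop_atTop_of_one_lt (by norm_num : 1 < 2)).comp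
        (tendsto_id.const_mul_atTop' (by norm_num : 0 < 2))
    have := hy.comp hp
    refine this.congr fun l => by simp
  have f3 : Tendsto (fun l : ℕ => (2 : ℝ) ^ (16 * m * l ^ 2 * 2 ^ l) * (1 / 2) ^ (2 ^ (2 * l)))
      atTop (nhds 0) := by
    have hev : ∀ᶠ l : ℕ in atTop, 16 * m * l ^ 2 + 1 ≤ 2 ^ l := by
      have t5 := (t1.const_mul (16 * (m : ℝ))).add t3
      simp only [mul_zero, add_zero] at t5
      filter_upwards [t5.eventually_lt_const (show (0 : ℝ) < 1 by norm_num)] with l hl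
      have hpos : (0 : ℝ) < 2 ^ l := by positivity
      have h3 : (2 : ℝ) ^ l * (1 / 2) ^ l = 1 := by rw [← mul_pow]; norm_num
      have : 16 * (m : ℝ) * l ^ 2 + 1 < 2 ^ l := by
        calc 16 * (m : ℝ) * l ^ 2 + 1 = 2 ^ l * (16 * (m : ℝ) * ((l : ℝ) ^ 2 / 2 ^ l) + (1 / 2) ^ l) := by
              rw [mul_add, h3]; field_simp
          _ < 2 ^ l * 1 := by gcongr
          _ = 2 ^ l := by ring
      exact_mod_cast this.le
    refine squeeze_zero' (Eventually.of_forall fun l => by positivity) ?_ t3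
    filter_upwards [hev] with l hl
    have h1 : 16 * m * l ^ 2 * 2 ^ l + l ≤ 2 ^ (2 * l) := by
      have : l ≤ 2 ^ l := Nat.lt_two_pow_self.le
      calc 16 * m * l ^ 2 * 2 ^ l + l ≤ 16 * m * l ^ 2 * 2 ^ l + 2 ^ l := by omega
        _ = (16 * m * l ^ 2 + 1) * 2 ^ l := by ring
        _ ≤ 2 ^ l * 2 ^ l := Nat.mul_le_mul_right _ hl
        _ = 2 ^ (2 * l) := by rw [← pow_add]; congr 1; ring
    obtain ⟨q, hq⟩ := Nat.exists_eq_add_of_le h1
    rw [hq, pow_add, pow_add]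
    have h3 : (2 : ℝ) ^ (16 * m * l ^ 2 * 2 ^ l) * (1 / 2) ^ (16 * m * l ^ 2 * 2 ^ l) = 1 := by
      rw [← mul_pow]; norm_num
    have h4 : ((1 : ℝ) / 2) ^ q ≤ 1 := pow_le_one₀ (by norm_num) (by norm_num)
    calc (2 : ℝ) ^ (16 * m * l ^ 2 * 2 ^ l) * ((1 / 2) ^ (16 * m * l ^ 2 * 2 ^ l) * (1 / 2) ^ l * (1 / 2) ^ q)
        = (2 ^ (16 * m * l ^ 2 * 2 ^ l) * (1 / 2) ^ (16 * m * l ^ 2 * 2 ^ l)) * ((1 / 2) ^ l * (1 / 2) ^ q) := by ring
      _ ≤ 1 * ((1 / 2) ^ l * 1) := by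
          rw [h3]; gcongr
      _ = _ := by ring
  have := f1.add (f3.add f2)
  simp only [add_zero] at this
  refine this.congr fun l => by ring


end Pool.Agent.Helper89.Lambert
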