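import Pool.Agent.Helper89.PCharConseq

/-!
# Existence of the almost simple section
-/

set_option autoImplicit false

universe u

namespace Pool.Agent.Helper89.PChar

theorem isSection_of_quotient {G A : Type u} [Group G] [Group A] (M : Subgroup G) [M.Normal]
    (N : Subgroup A) (h : IsSection (G ⧸ M) A N) : IsSection G A N := by
  obtain ⟨K, φ, hφ, L, hL, hLK, hLN⟩ := h
  let q : G →* G ⧸ M := QuotientGroup.mk' M
  have hq : Function.Surjective q := QuotientGroup.mk'_surjective M
  have hqK : Function.Surjective (q.subgroupComap K) :=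
    MonoidHom.subgroupComap_surjective_of_surjective q K hq
  refine ⟨K.comap q, φ.comp (q.subgroupComap K), hφ.comp hqK, L.comap q, hL.comap q,
    Subgroup.comap_mono hLK, ?_⟩
  rw [← hLN, ← Subgroup.map_map]
  congr 1
  ext x
  constructor
  · rintro ⟨y, hy, rfl⟩
    exact hy
  · intro hx
    obtain ⟨y, rfl⟩ := hqK x
    exact ⟨y, hx, rfl⟩

theorem exists_almostSimple (n : ℕ) : ∀ (G : Type u) [Group G] [Finite G], Nat.card G = n →
    AllPMonomial G → ¬ Group.IsSolvable G →
    ∃ (A : Type u) (_ : Group A) (_ : Finite A) (N : Subgroup A),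
      AlmostSimple A N ∧ IsSection G A N ∧ AllPMonomial A := by
  classical
  induction n using Nat.strong_induction_on with
  | _ n ih =>
    intro G _ _ hn hG hns
    by_cases hq : ∃ M : Subgroup G, ∃ _ : M.Normal, M ≠ ⊥ ∧ ¬ Group.IsSolvable (G ⧸ M)
    · obtain ⟨M, hM, hM1, hMns⟩ := hq
      have hlt : Nat.card (G ⧸ M) < n := by
        have h1 := M.card_mul_index
        have h2 : 1 < Nat.card M := by
          rw [Finite.one_lt_card_iff_nontrivial]
          exact (Subgroup.nontrivial_iff_ne_bot M).2 hM1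
        have h3 : 0 < Nat.card (G ⧸ M) := Nat.card_pos
        have h4 : Nat.card M * Nat.card (G ⧸ M) = n := by rw [← hn]; exact h1
        nlinarith
      obtain ⟨A, i1, i2, N, hA, hsec, hAll⟩ := ih _ hlt (G ⧸ M) rfl
        (hG.of_surjective (QuotientGroup.mk'_surjective M)) hMns
      exact ⟨A, i1, i2, N, hA, isSection_of_quotient M N hsec, hAll⟩
    · push Not at hq
      -- a minimal normal subgroup
      have hGnt : Nontrivial G := by
        by_contra h
        rw [not_nontrivial_iff_subsingleton] at h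
        exact hns inferInstance
      let P : ℕ → Prop := fun k => ∃ M : Subgroup G, M.Normal ∧ M ≠ ⊥ ∧ Nat.card M = k
      have hex : ∃ k, P k := ⟨_, ⊤, inferInstance, top_ne_bot, rfl⟩
      obtain ⟨M, hM, hM1, hMcard⟩ := Nat.find_spec hex
      have hmin : ∀ T : Subgroup G, T.Normal → T ≤ M → T = ⊥ ∨ T = M := by
        intro T hT hTM
        by_cases hbot : T = ⊥
        · exact Or.inl hbot
        right
        have h1 : Nat.find hex ≤ Nat.card T := Nat.find_min' hex ⟨T, hT, hbot, rfl⟩
        rw [← hMcard] at h1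
        exact Subgroup.eq_of_le_of_card_ge hTM h1
      have hQs : Group.IsSolvable (G ⧸ M) := hq M hM hM1
      have hMns : ¬ Group.IsSolvable M := fun hs =>
        hns ((Group.isSolvable_iff_subgroup_quotient M).2 ⟨hs, hQs⟩)
      obtain ⟨S, B, hset, hna, hSinv⟩ := exists_setup M hMns hmin
      have hsol : ∃ k : ℕ, derivedSeries G k ≤ M := by
        obtain ⟨k, hk⟩ := hQs.solvable
        refine ⟨k, ?_⟩
        rw [← map_derivedSeries_eq (QuotientGroup.mk'_surjective M), Subgroup.map_eq_bot_iff,
          QuotientGroup.ker_mk'] at hk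
        exact hk
      obtain ⟨A, i1, i2, φ, hφ, hA, hAll⟩ := reduce hset hna hsol hG
      refine ⟨A, i1, i2, _, hA, ⟨B, φ, hφ, S, ?_, hset.SB, rfl⟩, hAll⟩
      refine Subgroup.IsSubnormal.step S M hset.SN hM.isSubnormal ?_
      exact ⟨fun s hs m => hSinv m m.2 s hs⟩

end Pool.Agent.Helper89.PChar
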