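import Mathlib

set_option autoImplicit false

open Finset Filter

namespace Pool.Agent.Helper89.Defect

/-- sum over one residue progression of the weights `2^(Rt mod a)` -/
theorem sum_weight_le (a R T : ℕ) (ha : 0 < a) :
    (∑ t ∈ range T, (2 : ℝ) ^ ((R * t) % a)) / (2 ^ a - 1) ≤ (T : ℝ) / a + 1 := by
  classical
  set g := Nat.gcd a R with hg
  have hgpos : 0 < g := Nat.gcd_pos_of_pos_left _ ha
  obtain ⟨a', ha'⟩ : g ∣ a := Nat.gcd_dvd_left a R
  obtain ⟨R', hR'⟩ : g ∣ R := Nat.gcd_dvd_right a R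
  have ha'pos : 0 < a' := Nat.pos_of_ne_zero (by rintro rfl; simp at ha'; omega)
  have hcop : Nat.Coprime a' R' := by
    have h1 : Nat.gcd (g * a') (g * R') = g := by rw [← ha', ← hR']
    rw [Nat.gcd_mul_left] at h1
    have : Nat.gcd a' R' = 1 := Nat.eq_of_mul_eq_mul_left hgpos (by rw [h1, mul_one])
    exact this
  have hfib : ∀ b, ((range T).filter (fun t => (R * t) % a = b)).card ≤ T / a' + 1 := by
    intro b
    have : ((range T).filter (fun t => (R * t) % a = b)).card ≤ (range (T / a' + 1)).card := by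
      refine card_le_card_of_injOn (fun t => t / a') ?_ ?_
      · intro t ht
        simp only [coe_filter, mem_range, Set.mem_ofPred_eq] at ht
        simp only [coe_range, Set.mem_Iio]
        have := Nat.div_le_div_right (c := a') ht.1.le
        omega
      · intro t ht t' ht' heq
        simp only [coe_filter, mem_range, Set.mem_ofPred_eq] at ht ht' heq
        have h1 : R * t ≡ R * t' [MOD a] := by
          unfold Nat.ModEq; rw [ht.2, ht'.2]
        have h2 : g * (R' * t) ≡ g * (R' * t') [MOD g * a'] := by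
          rw [← mul_assoc, ← mul_assoc, ← hR', ← ha']; exact h1
        have h3 : R' * t ≡ R' * t' [MOD a'] := Nat.ModEq.mul_left_cancel' hgpos.ne' h2
        have h4 : t ≡ t' [MOD a'] := Nat.ModEq.cancel_left_of_coprime hcop h3
        have h5 : t % a' = t' % a' := h4
        rw [← Nat.div_add_mod t a', ← Nat.div_add_mod t' a', heq, h5]
    simpa using this
  have hsum1 : ∑ t ∈ range T, (2 : ℝ) ^ ((R * t) % a) =
      ∑ b ∈ (range T).image (fun t => (R * t) % a),
        (((range T).filter (fun t => (R * t) % a = b)).card : ℝ) * 2 ^ b := by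
    rw [Finset.sum_comp (fun b : ℕ => (2 : ℝ) ^ b) (fun t => (R * t) % a)]
    simp [nsmul_eq_mul]
  have hsub : (range T).image (fun t => (R * t) % a) ⊆ (range a').image (fun i => g * i) := by
    intro b hb
    obtain ⟨t, _, rfl⟩ := mem_image.1 hb
    have hd : g ∣ (R * t) % a := by
      rw [Nat.dvd_mod_iff ⟨a', ha'⟩]
      exact ⟨R' * t, by rw [hR']; ring⟩
    obtain ⟨i, hi⟩ := hd
    refine mem_image.2 ⟨i, ?_, hi.symm⟩
    have h1 : (R * t) % a < a := Nat.mod_lt _ ha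
    rw [hi] at h1
    have h2 : g * i < g * a' := lt_of_lt_of_eq h1 ha'
    exact mem_range.2 (Nat.lt_of_mul_lt_mul_left h2)
  have hgeo : (∑ i ∈ range a', (2 : ℝ) ^ (g * i)) * (2 ^ g - 1) = 2 ^ a - 1 := by
    have := geom_sum_mul ((2 : ℝ) ^ g) a'
    simp only [← pow_mul] at this
    rw [this, ← ha']
  have hg1 : (g : ℝ) ≤ 2 ^ g - 1 := by
    have : g + 1 ≤ 2 ^ g := Nat.lt_two_pow_self
    have : ((g + 1 : ℕ) : ℝ) ≤ ((2 ^ g : ℕ) : ℝ) := by exact_mod_cast this
    push_cast at this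
    linarith
  have hg0 : (1 : ℝ) ≤ g := by exact_mod_cast hgpos
  have hbound : ∑ t ∈ range T, (2 : ℝ) ^ ((R * t) % a) ≤
      ((T : ℝ) / a' + 1) * ∑ i ∈ range a', (2 : ℝ) ^ (g * i) := by
    rw [hsum1]
    calc _ ≤ ∑ b ∈ (range T).image (fun t => (R * t) % a), ((T : ℝ) / a' + 1) * 2 ^ b := by
          refine Finset.sum_le_sum fun b _ => ?_
          have h1 : ((((range T).filter (fun t => (R * t) % a = b)).card : ℕ) : ℝ) ≤ ((T / a' + 1 : ℕ) : ℝ) := by
            exact_mod_cast hfib b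
          have h2 : ((T / a' : ℕ) : ℝ) ≤ (T : ℝ) / a' := Nat.cast_div_le
          push_cast at h1
          have h3 : ((((range T).filter (fun t => (R * t) % a = b)).card : ℕ) : ℝ) ≤ (T : ℝ) / a' + 1 := by
            linarith
          exact mul_le_mul_of_nonneg_right h3 (by positivity)
      _ ≤ ∑ b ∈ (range a').image (fun i => g * i), ((T : ℝ) / a' + 1) * 2 ^ b :=
          Finset.sum_le_sum_of_subset_of_nonneg hsub fun _ _ _ => by positivity
      _ = _ := by
          rw [Finset.sum_image (fun x _ y _ h => Nat.eq_of_mul_eq_mul_left hgpos h), Finset.mul_sum]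
  have hapos : (0 : ℝ) < 2 ^ a - 1 := by
    have : (1 : ℝ) < 2 ^ a := one_lt_pow₀ (by norm_num) ha.ne'
    linarith
  rw [div_le_iff₀ hapos]
  refine hbound.trans ?_
  rw [← hgeo]
  have hS : (0 : ℝ) ≤ ∑ i ∈ range a', (2 : ℝ) ^ (g * i) :=
    Finset.sum_nonneg fun i _ => pow_nonneg (by norm_num) _
  have ha'R : (0 : ℝ) < a' := by exact_mod_cast ha'pos
  have haR : (a : ℝ) = g * a' := by exact_mod_cast ha'
  have key : (T : ℝ) / a' + 1 ≤ ((T : ℝ) / a + 1) * (2 ^ g - 1) := by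
    rw [haR]
    have hgne : (g : ℝ) ≠ 0 := by positivity
    have h1 : (T : ℝ) / a' = (T : ℝ) / (g * a') * g := by
      rw [div_mul_eq_mul_div, mul_comm (g : ℝ) (a' : ℝ), mul_div_mul_right _ _ hgne]
    rw [h1, add_mul]
    have h2 : (0 : ℝ) ≤ (T : ℝ) / (g * a') := by positivity
    have := mul_le_mul_of_nonneg_left hg1 h2
    linarith
  calc ((T : ℝ) / a' + 1) * ∑ i ∈ range a', (2 : ℝ) ^ (g * i)
      ≤ (((T : ℝ) / a + 1) * (2 ^ g - 1)) * ∑ i ∈ range a', (2 : ℝ) ^ (g * i) :=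
        mul_le_mul_of_nonneg_right key hS
    _ = _ := by ring


theorem two_pow_sub_one_pos {a : ℕ} (ha : a ≠ 0) : (0 : ℝ) < 2 ^ a - 1 := by
  have : (1 : ℝ) < 2 ^ a := one_lt_pow₀ (by norm_num) ha
  linarith

theorem inv_le_geom (a : ℕ) : (1 : ℝ) / (2 ^ a - 1) ≤ 2 * (1 / 2) ^ a := by
  rcases Nat.eq_zero_or_pos a with rfl | ha
  · simp
  · have h := two_pow_sub_one_pos ha.ne'
    rw [div_le_iff₀ h]
    have h2 : (2 : ℝ) ^ a * (1 / 2) ^ a = 1 := by rw [← mul_pow]; norm_num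
    have h3 : ((1 : ℝ) / 2) ^ a ≤ (1 / 2) ^ 1 := pow_le_pow_of_le_one (by norm_num) (by norm_num) ha
    calc (1 : ℝ) ≤ 2 * (2 ^ a * (1 / 2) ^ a) - 2 * (1 / 2) ^ a := by rw [h2]; norm_num at h3 ⊢; linarith
      _ = _ := by ring

theorem nonneg_term (a N : ℕ) : (0 : ℝ) ≤ (2 ^ (N % a) - 1) / (2 ^ a - 1) := by
  rcases Nat.eq_zero_or_pos a with rfl | ha
  · simp
  · have h := two_pow_sub_one_pos ha.ne'
    have h2 : (1 : ℝ) ≤ 2 ^ (N % a) := one_le_pow₀ (by norm_num)
    exact div_nonneg (by linarith) h.le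

theorem term_le (a N : ℕ) : ((2 : ℝ) ^ (N % a) - 1) / (2 ^ a - 1) ≤ 2 ^ N * (2 * (1 / 2) ^ a) := by
  rcases Nat.eq_zero_or_pos a with rfl | ha
  · simp
  · have h := two_pow_sub_one_pos ha.ne'
    have h2 : (2 : ℝ) ^ (N % a) ≤ 2 ^ N := pow_le_pow_right₀ (by norm_num) (Nat.mod_le N a)
    calc ((2 : ℝ) ^ (N % a) - 1) / (2 ^ a - 1) ≤ 2 ^ N / (2 ^ a - 1) := by gcongr; linarith
      _ = 2 ^ N * (1 / (2 ^ a - 1)) := by ring
      _ ≤ _ := by gcongr; exact inv_le_geom a

theorem summable_inv (A : Set ℕ) : Summable (A.indicator fun a : ℕ => (1 : ℝ) / (2 ^ a - 1)) := by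
  have hg : Summable fun a : ℕ => 2 * ((1 : ℝ) / 2) ^ a :=
    (summable_geometric_of_lt_one (by norm_num) (by norm_num)).mul_left 2
  refine Summable.of_nonneg_of_le (fun a => ?_) (fun a => ?_) hg
  · refine Set.indicator_nonneg (fun a _ => ?_) a
    rcases Nat.eq_zero_or_pos a with rfl | ha
    · simp
    · have := two_pow_sub_one_pos ha.ne'
      positivity
  · refine Set.indicator_apply_le' (fun _ => inv_le_geom a) (fun _ => by positivity)

/-- the defect function -/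
noncomputable def D (A : Set ℕ) (N : ℕ) : ℝ :=
  ∑' a : ℕ, A.indicator (fun a : ℕ => ((2 : ℝ) ^ (N % a) - 1) / (2 ^ a - 1)) a

theorem summable_D (A : Set ℕ) (N : ℕ) :
    Summable (A.indicator fun a : ℕ => ((2 : ℝ) ^ (N % a) - 1) / (2 ^ a - 1)) := by
  have hg : Summable fun a : ℕ => 2 ^ N * (2 * ((1 : ℝ) / 2) ^ a) :=
    ((summable_geometric_of_lt_one (by norm_num) (by norm_num)).mul_left 2).mul_left _
  refine Summable.of_nonneg_of_le (fun a => ?_) (fun a => ?_) hg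
  · exact Set.indicator_nonneg (fun a _ => nonneg_term a N) a
  · exact Set.indicator_apply_le' (fun _ => term_le a N) (fun _ => by positivity)

theorem decomp (A : Set ℕ) (N : ℕ) :
    ∃ z : ℤ, ((2 : ℝ) ^ N - 1) * (∑' n : A, (1 : ℝ) / (2 ^ n.1 - 1)) = z + D A N := by
  classical
  have hz : ∀ a : ℕ, ∃ z : ℤ, ((2 : ℝ) ^ N - 1) * (1 / (2 ^ a - 1)) =
      z + ((2 : ℝ) ^ (N % a) - 1) / (2 ^ a - 1) ∧ (N < a → z = 0) := by
    intro a
    rcases Nat.eq_zero_or_pos a with rfl | ha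
    · exact ⟨0, by simp, fun h => by simp at h⟩
    · rcases lt_or_ge N a with hNa | hNa
      · refine ⟨0, ?_, fun _ => rfl⟩
        rw [Nat.mod_eq_of_lt hNa]; push_cast; ring
      · have hd : (2 ^ a - 1 : ℤ) ∣ 2 ^ N - 2 ^ (N % a) := by
          have h1 : (2 : ℤ) ^ N = 2 ^ (N % a) * (2 ^ a) ^ (N / a) := by
            rw [← pow_mul, ← pow_add, Nat.mod_add_div]
          rw [h1]
          have h2 : (2 ^ a - 1 : ℤ) ∣ (2 ^ a) ^ (N / a) - 1 := by
            simpa using sub_dvd_pow_sub_pow (2 ^ a : ℤ) 1 (N / a)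
          obtain ⟨c, hc⟩ := h2
          exact ⟨2 ^ (N % a) * c, by linear_combination (2 ^ (N % a) : ℤ) * hc⟩
        obtain ⟨c, hc⟩ := hd
        refine ⟨c, ?_, fun h => absurd h (by omega)⟩
        have h := (two_pow_sub_one_pos ha.ne').ne'
        have hc' : (2 : ℝ) ^ N - 2 ^ (N % a) = (2 ^ a - 1) * c := by exact_mod_cast hc
        field_simp
        linarith
  choose z hz1 hz2 using hz
  refine ⟨∑ a ∈ range (N + 1), if a ∈ A then z a else 0, ?_⟩
  rw [tsum_subtype A (fun n : ℕ => (1 : ℝ) / (2 ^ n - 1)), ← tsum_mul_left]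
  have h1 : ∀ a, ((2 : ℝ) ^ N - 1) * A.indicator (fun n : ℕ => (1 : ℝ) / (2 ^ n - 1)) a =
      (if a ∈ A then (z a : ℝ) else 0) +
        A.indicator (fun a : ℕ => ((2 : ℝ) ^ (N % a) - 1) / (2 ^ a - 1)) a := by
    intro a
    by_cases ha : a ∈ A
    · simp only [ha, Set.indicator_of_mem, if_true]
      exact hz1 a
    · simp [ha]
  rw [tsum_congr h1]
  have hfin : ∀ a ∉ range (N + 1), (if a ∈ A then (z a : ℝ) else 0) = 0 := by
    intro a ha
    rw [mem_range] at ha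
    rw [hz2 a (by omega)]
    simp
  rw [Summable.tsum_add (summable_of_ne_finset_zero hfin) (summable_D A N), tsum_eq_sum hfin]
  unfold D
  push_cast
  rfl

theorem D_pos (A : Set ℕ) (hA : A.Infinite) (N : ℕ) (hN : 0 < N) : 0 < D A N := by
  obtain ⟨a, haA, haN⟩ := hA.exists_gt N
  refine (summable_D A N).tsum_pos (fun b => Set.indicator_nonneg (fun b _ => nonneg_term b N) b) a ?_
  rw [Set.indicator_of_mem haA, Nat.mod_eq_of_lt haN]
  have h1 := two_pow_sub_one_pos (show a ≠ 0 by omega)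
  have h2 := two_pow_sub_one_pos hN.ne'
  exact div_pos h2 h1

/-- if the sum is rational, then `c * D N` is an integer for all multiples `N` of some `r` -/
theorem exists_period (A : Set ℕ) (hA : A.Infinite)
    (hrat : ¬ Irrational (∑' n : A, (1 : ℝ) / (2 ^ n.1 - 1))) :
    ∃ c r : ℕ, 0 < c ∧ 0 < r ∧ ∀ N, 0 < N → r ∣ N → 1 ≤ c * D A N := by
  unfold Irrational at hrat
  push Not at hrat
  obtain ⟨q, hq⟩ := hrat
  obtain ⟨e, v, hv, hqv⟩ := Nat.exists_eq_two_pow_mul_odd (n := q.den) q.den_nz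
  refine ⟨2 ^ e, v.totient, by positivity, Nat.totient_pos.2 hv.pos, ?_⟩
  intro N hN hr
  obtain ⟨z, hz⟩ := decomp A N
  rw [← hq] at hz
  have hcop : Nat.Coprime 2 v := (Nat.coprime_two_left).2 hv
  have h1 : 2 ^ N ≡ 1 [MOD v] := by
    obtain ⟨s, rfl⟩ := hr
    rw [pow_mul]
    simpa using (Nat.ModEq.pow_totient hcop).pow s
  have h2 : (v : ℤ) ∣ 2 ^ N - 1 := by
    have := (Nat.modEq_iff_dvd.1 h1.symm)
    exact_mod_cast this
  obtain ⟨s, hs⟩ := h2
  have h3 : (2 : ℝ) ^ N - 1 = v * s := by exact_mod_cast hs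
  have h4 : (q : ℝ) * (2 ^ e * v) = q.num := by
    have : (q : ℝ) * q.den = q.num := by exact_mod_cast Rat.mul_den_eq_num q
    rw [hqv] at this
    push_cast at this
    exact this
  have h5 : ((2 ^ e : ℕ) : ℝ) * D A N = ((s * q.num - 2 ^ e * z : ℤ) : ℝ) := by
    push_cast
    have : D A N = ((2 : ℝ) ^ N - 1) * q - z := by linarith
    rw [this, h3, ← h4]
    ring
  have h6 := D_pos A hA N hN
  have h7 : (0 : ℝ) < ((s * q.num - 2 ^ e * z : ℤ) : ℝ) := by
    rw [← h5]; positivity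
  rw [h5]
  have : (0 : ℤ) < s * q.num - 2 ^ e * z := by exact_mod_cast h7
  exact_mod_cast this


theorem sum_D_le (A : Set ℕ) (y R T : ℕ) (hR : 0 < R) (hy : ∀ a, 1 ≤ a → a ≤ y → a ∣ R) :
    ∑ t ∈ range (T + 1), D A (R * t) ≤
      ∑ a ∈ Finset.Ioc y (R * T), A.indicator (fun a : ℕ => ((T + 1 : ℕ) : ℝ) / a + 1) a + 2 := by
  classical
  have h1 : ∑ t ∈ range (T + 1), D A (R * t) =
      ∑' a : ℕ, ∑ t ∈ range (T + 1),
        A.indicator (fun a : ℕ => ((2 : ℝ) ^ ((R * t) % a) - 1) / (2 ^ a - 1)) a := by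
    unfold D
    rw [Summable.tsum_finsetSum (fun t _ => summable_D A (R * t))]
  rw [h1]
  set F : ℕ → ℝ := fun a => ∑ t ∈ range (T + 1),
        A.indicator (fun a : ℕ => ((2 : ℝ) ^ ((R * t) % a) - 1) / (2 ^ a - 1)) a with hF
  have hFs : Summable F := summable_sum (fun t _ => summable_D A (R * t))
  rw [← hFs.sum_add_tsum_nat_add (R * T + 1)]
  refine add_le_add ?_ ?_
  · -- finite part
    have hzero : ∀ a ∈ range (R * T + 1), a ∉ Finset.Ioc y (R * T) → F a = 0 := by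
      intro a ha ha'
      rw [mem_range] at ha
      rw [mem_Ioc] at ha'
      have hay : a ≤ y := by omega
      simp only [hF]
      refine Finset.sum_eq_zero fun t _ => ?_
      rw [Set.indicator_apply_eq_zero]
      intro _
      rcases Nat.eq_zero_or_pos a with rfl | hapos
      · simp
      · have : (R * t) % a = 0 := Nat.mod_eq_zero_of_dvd ((hy a hapos hay).mul_right t)
        rw [this]; simp
    have hsub : Finset.Ioc y (R * T) ⊆ range (R * T + 1) := by
      intro a ha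
      rw [mem_Ioc] at ha
      rw [mem_range]; omega
    rw [← Finset.sum_subset hsub hzero]
    refine Finset.sum_le_sum fun a ha => ?_
    rw [mem_Ioc] at ha
    by_cases haA : a ∈ A
    · simp only [hF, Set.indicator_of_mem haA]
      have hapos : 0 < a := by omega
      have hp := two_pow_sub_one_pos hapos.ne'
      calc ∑ t ∈ range (T + 1), ((2 : ℝ) ^ ((R * t) % a) - 1) / (2 ^ a - 1)
          ≤ ∑ t ∈ range (T + 1), (2 : ℝ) ^ ((R * t) % a) / (2 ^ a - 1) := by
            refine Finset.sum_le_sum fun t _ => ?_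
            gcongr; linarith
        _ = (∑ t ∈ range (T + 1), (2 : ℝ) ^ ((R * t) % a)) / (2 ^ a - 1) := by
            rw [Finset.sum_div]
        _ ≤ _ := sum_weight_le a R (T + 1) hapos
    · simp [hF, haA]
  · -- tail
    have hg : Summable fun i : ℕ => ((1 : ℝ) / 2) ^ i :=
      summable_geometric_of_lt_one (by norm_num) (by norm_num)
    have h2 : ∀ i, F (i + (R * T + 1)) ≤ (1 / 2) ^ i := by
      intro i
      set a := i + (R * T + 1) with ha
      have hp := two_pow_sub_one_pos (show a ≠ 0 by omega)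
      have hterm : ∀ t ∈ range (T + 1),
          A.indicator (fun a : ℕ => ((2 : ℝ) ^ ((R * t) % a) - 1) / (2 ^ a - 1)) a ≤ 2 ^ (R * t) / 2 ^ a := by
        intro t ht
        rw [mem_range] at ht
        refine Set.indicator_apply_le' (fun _ => ?_) (fun _ => by positivity)
        have h3 : R * t ≤ R * T := Nat.mul_le_mul_left R (by omega)
        rw [Nat.mod_eq_of_lt (by omega), div_le_div_iff₀ hp (by positivity)]
        have : (2 : ℝ) ^ (R * t) ≤ 2 ^ a := pow_le_pow_right₀ (by norm_num) (by omega)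
        nlinarith
      have hgeo : ∀ T : ℕ, ∑ t ∈ range (T + 1), (2 : ℝ) ^ (R * t) ≤ 2 * 2 ^ (R * T) := by
        intro T
        induction T with
        | zero => simp
        | succ n ih =>
          rw [Finset.sum_range_succ]
          have h4 : (2 : ℝ) * 2 ^ (R * n) ≤ 2 ^ (R * (n + 1)) := by
            rw [← pow_succ']
            apply pow_le_pow_right₀ (by norm_num)
            rw [Nat.mul_add]; omega
          linarith
      calc F a ≤ ∑ t ∈ range (T + 1), 2 ^ (R * t) / 2 ^ a := Finset.sum_le_sum hterm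
        _ = (∑ t ∈ range (T + 1), (2 : ℝ) ^ (R * t)) / 2 ^ a := by rw [Finset.sum_div]
        _ ≤ (2 * 2 ^ (R * T)) / 2 ^ a := by gcongr; exact hgeo T
        _ = (1 / 2) ^ i := by
          rw [ha, show i + (R * T + 1) = i + 1 + R * T by ring, pow_add, pow_succ]
          rw [one_div, inv_pow]
          field_simp
    have hFs' : Summable fun i => F (i + (R * T + 1)) := (summable_nat_add_iff _).2 hFs
    calc ∑' i, F (i + (R * T + 1)) ≤ ∑' i : ℕ, ((1 : ℝ) / 2) ^ i := hFs'.tsum_le_tsum h2 hg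
      _ = 2 := tsum_geometric_two

/-- dyadic counting -/
theorem dyadic_inner (R : ℕ) (hR : 0 < R) (a : ℕ) (ha : 0 < a) (n : ℕ) :
    ∑ i ∈ range n, (if a ≤ R * 2 ^ i then (1 : ℝ) / (R * 2 ^ (i + 1)) else 0) ≤
      1 / a - (if a ≤ R * 2 ^ n then (1 : ℝ) / (R * 2 ^ n) else 0) := by
  have haR : (0 : ℝ) < a := by exact_mod_cast ha
  have hRR : (0 : ℝ) < R := by exact_mod_cast hR
  have hinv : ∀ n, a ≤ R * 2 ^ n → (1 : ℝ) / (R * 2 ^ n) ≤ 1 / a := by
    intro n h
    apply one_div_le_one_div_of_le haR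
    exact_mod_cast h
  induction n with
  | zero =>
    simp only [range_zero, sum_empty]
    split_ifs with h
    · have := hinv 0 h; linarith
    · have : (0 : ℝ) < 1 / a := by positivity
      linarith
  | succ n ih =>
    rw [Finset.sum_range_succ]
    by_cases h : a ≤ R * 2 ^ n
    · have h' : a ≤ R * 2 ^ (n + 1) := h.trans (Nat.mul_le_mul_left R (Nat.pow_le_pow_right (by norm_num) (by omega)))
      rw [if_pos h] at ih
      rw [if_pos h, if_pos h']
      have : (1 : ℝ) / (R * 2 ^ n) = 2 * (1 / (R * 2 ^ (n + 1))) := by rw [pow_succ]; field_simp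
      linarith
    · have hz : ∑ i ∈ range n, (if a ≤ R * 2 ^ i then (1 : ℝ) / (R * 2 ^ (i + 1)) else 0) = 0 := by
        refine Finset.sum_eq_zero fun i hi => if_neg ?_
        intro hcon
        exact h (hcon.trans (Nat.mul_le_mul_left R (Nat.pow_le_pow_right (by norm_num) (mem_range.1 hi).le)))
      rw [hz, if_neg h]
      split_ifs with h'
      · have := hinv (n + 1) h'; linarith
      · have : (0 : ℝ) < 1 / a := by positivity
        linarith

theorem exists_scale (A : Set ℕ) (y R i₀ I : ℕ) (hR : 0 < R) (κ : ℝ) (hκ : 0 < κ)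
    (hsum : ∑ a ∈ Finset.Ioc y (R * 2 ^ (i₀ + I)), A.indicator (fun a : ℕ => (1 : ℝ) / a) a < I * κ / (2 * R)) :
    ∃ i, i₀ ≤ i ∧ i < i₀ + I ∧
      ∑ a ∈ Finset.Ioc y (R * 2 ^ i), A.indicator (fun _ : ℕ => (1 : ℝ)) a ≤ κ * 2 ^ i := by
  classical
  by_contra hcon
  push Not at hcon
  have hRR : (0 : ℝ) < R := by exact_mod_cast hR
  have h1 : ∑ a ∈ Finset.Ioc y (R * 2 ^ (i₀ + I)), A.indicator (fun a : ℕ => (1 : ℝ) / a) a ≥
      ∑ a ∈ Finset.Ioc y (R * 2 ^ (i₀ + I)), A.indicator (fun a : ℕ =>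
        ∑ i ∈ Finset.Ico i₀ (i₀ + I), (if a ≤ R * 2 ^ i then (1 : ℝ) / (R * 2 ^ (i + 1)) else 0)) a := by
    refine Finset.sum_le_sum fun a ha => ?_
    rw [mem_Ioc] at ha
    refine Set.indicator_le_indicator ?_
    have h2 := dyadic_inner R hR a (by omega) (i₀ + I)
    have h3 : (0 : ℝ) ≤ (if a ≤ R * 2 ^ (i₀ + I) then (1 : ℝ) / (R * 2 ^ (i₀ + I)) else 0) := by
      split_ifs <;> positivity
    have h4 : ∑ i ∈ Finset.Ico i₀ (i₀ + I), (if a ≤ R * 2 ^ i then (1 : ℝ) / (R * 2 ^ (i + 1)) else 0) ≤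
        ∑ i ∈ range (i₀ + I), (if a ≤ R * 2 ^ i then (1 : ℝ) / (R * 2 ^ (i + 1)) else 0) := by
      apply Finset.sum_le_sum_of_subset_of_nonneg
      · intro i hi
        rw [mem_Ico] at hi
        exact mem_range.2 hi.2
      · intro i _ _
        split_ifs <;> positivity
    linarith
  have h5 : ∑ a ∈ Finset.Ioc y (R * 2 ^ (i₀ + I)), A.indicator (fun a : ℕ =>
        ∑ i ∈ Finset.Ico i₀ (i₀ + I), (if a ≤ R * 2 ^ i then (1 : ℝ) / (R * 2 ^ (i + 1)) else 0)) a =
      ∑ i ∈ Finset.Ico i₀ (i₀ + I), (1 : ℝ) / (R * 2 ^ (i + 1)) *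
        ∑ a ∈ Finset.Ioc y (R * 2 ^ i), A.indicator (fun _ : ℕ => (1 : ℝ)) a := by
    have h6 : ∀ a, A.indicator (fun a : ℕ =>
        ∑ i ∈ Finset.Ico i₀ (i₀ + I), (if a ≤ R * 2 ^ i then (1 : ℝ) / (R * 2 ^ (i + 1)) else 0)) a =
        ∑ i ∈ Finset.Ico i₀ (i₀ + I), (if a ≤ R * 2 ^ i then (1 : ℝ) / (R * 2 ^ (i + 1)) else 0) *
          A.indicator (fun _ : ℕ => (1 : ℝ)) a := by
      intro a
      by_cases ha : a ∈ A
      · simp [ha]
      · simp [ha]
    simp only [h6]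
    rw [Finset.sum_comm]
    refine Finset.sum_congr rfl fun i hi => ?_
    rw [mem_Ico] at hi
    rw [Finset.mul_sum]
    have hsub : Finset.Ioc y (R * 2 ^ i) ⊆ Finset.Ioc y (R * 2 ^ (i₀ + I)) := by
      apply Finset.Ioc_subset_Ioc_right
      exact Nat.mul_le_mul_left R (Nat.pow_le_pow_right (by norm_num) hi.2.le)
    rw [← Finset.sum_subset hsub]
    · refine Finset.sum_congr rfl fun a ha => ?_
      rw [mem_Ioc] at ha
      rw [if_pos ha.2]
    · intro a ha ha'
      rw [mem_Ioc] at ha ha'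
      rw [if_neg (by omega), zero_mul]
  have h7 : ∑ i ∈ Finset.Ico i₀ (i₀ + I), (κ / (2 * R)) ≤ ∑ i ∈ Finset.Ico i₀ (i₀ + I), (1 : ℝ) / (R * 2 ^ (i + 1)) *
        ∑ a ∈ Finset.Ioc y (R * 2 ^ i), A.indicator (fun _ : ℕ => (1 : ℝ)) a := by
    refine Finset.sum_le_sum fun i hi => ?_
    rw [mem_Ico] at hi
    have := (hcon i hi.1 hi.2).le
    calc κ / (2 * R) = 1 / (R * 2 ^ (i + 1)) * (κ * 2 ^ i) := by rw [pow_succ]; field_simp
      _ ≤ _ := by gcongr
  rw [Finset.sum_const, Nat.card_Ico, nsmul_eq_mul] at h7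
  have h8 : ((i₀ + I - i₀ : ℕ) : ℝ) = I := by congr 1; omega
  rw [h8] at h7
  rw [h5] at h1
  have h9 : (I : ℝ) * (κ / (2 * R)) = I * κ / (2 * R) := by ring
  linarith

theorem lcm_growth (C i₀ : ℕ) : ∀ᶠ y : ℕ in atTop, (C + 1) * Nat.lcmUpto y + i₀ ≤ 2 ^ (3 * y) := by
  have h1 : Tendsto (fun y : ℕ => Real.sqrt y * Real.log y / y) atTop (nhds 0) := by
    have h2 : Tendsto (fun x : ℝ => Real.log x / x ^ (1 / 2 : ℝ)) atTop (nhds 0) :=
      (isLittleO_log_rpow_atTop (by norm_num)).tendsto_div_nhds_zero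
    have h3 := h2.comp (tendsto_natCast_atTop_atTop (R := ℝ))
    refine h3.congr' ?_
    filter_upwards [eventually_ge_atTop 1] with y hy
    have hy' : (0 : ℝ) < y := by exact_mod_cast hy
    simp only [Function.comp]
    rw [← Real.sqrt_eq_rpow]
    have hs : (0 : ℝ) < Real.sqrt y := Real.sqrt_pos.2 hy'
    have hss : Real.sqrt y * Real.sqrt y = y := Real.mul_self_sqrt hy'.le
    rw [div_eq_div_iff hs.ne' hy'.ne']
    calc Real.log y * y = Real.log y * (Real.sqrt y * Real.sqrt y) := by rw [hss]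
      _ = _ := by ring
  have h4 : ∀ᶠ y : ℕ in atTop, 2 * (Real.sqrt y * Real.log y) ≤ (Real.log 2 / 2) * y := by
    have hl : (0 : ℝ) < Real.log 2 / 4 := by positivity
    filter_upwards [h1.eventually_lt_const hl, eventually_ge_atTop 1] with y hy hy1
    have hy' : (0 : ℝ) < y := by exact_mod_cast hy1
    rw [div_lt_iff₀ hy'] at hy
    linarith
  have h5 : Tendsto (fun y : ℕ => Real.exp ((Real.log 2 / 2) * y)) atTop atTop := by
    apply Real.tendsto_exp_atTop.comp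
    exact Tendsto.const_mul_atTop (by positivity) tendsto_natCast_atTop_atTop
  filter_upwards [h4, h5.eventually_ge_atTop ((C : ℝ) + 1 + i₀), eventually_ge_atTop 1] with y hy1 hy2 hy3
  have hyR : (1 : ℝ) ≤ y := by exact_mod_cast hy3
  have hpsi := Chebyshev.psi_le hyR
  rw [Chebyshev.psi_eq_log_lcmUpto] at hpsi
  have hL : (0 : ℝ) < Nat.lcmUpto y := by exact_mod_cast Nat.lcmUpto_pos y
  have hL1 : (1 : ℝ) ≤ Nat.lcmUpto y := by exact_mod_cast Nat.lcmUpto_pos y
  have hlog4 : Real.log 4 = 2 * Real.log 2 := by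
    rw [show (4 : ℝ) = 2 ^ 2 by norm_num, Real.log_pow]; push_cast; ring
  have h6 : Real.log (Nat.lcmUpto y) ≤ (5 / 2 * Real.log 2) * y := by
    rw [hlog4] at hpsi
    linarith
  have h7 : (Nat.lcmUpto y : ℝ) ≤ Real.exp ((5 / 2 * Real.log 2) * y) := by
    rw [← Real.log_le_iff_le_exp hL]; exact h6
  have h8 : (((C + 1) * Nat.lcmUpto y + i₀ : ℕ) : ℝ) ≤ ((2 ^ (3 * y) : ℕ) : ℝ) := by
    push_cast
    calc ((C : ℝ) + 1) * Nat.lcmUpto y + i₀ ≤ ((C : ℝ) + 1 + i₀) * Nat.lcmUpto y := by nlinarith [(Nat.cast_nonneg i₀ : (0 : ℝ) ≤ i₀)]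
      _ ≤ Real.exp ((Real.log 2 / 2) * y) * Real.exp ((5 / 2 * Real.log 2) * y) := by gcongr
      _ = Real.exp (Real.log 2 * (3 * y)) := by rw [← Real.exp_add]; congr 1; ring
      _ = 2 ^ (3 * y) := by
        rw [Real.exp_mul, Real.exp_log (by norm_num)]
        exact_mod_cast Real.rpow_natCast 2 (3 * y)
  exact_mod_cast h8


theorem dvd_lcmUpto {a y : ℕ} (h1 : 1 ≤ a) (h2 : a ≤ y) : a ∣ Nat.lcmUpto y :=
  Finset.dvd_lcm (f := id) (Finset.mem_Icc.2 ⟨h1, h2⟩)


end Pool.Agent.Helper89.Defect
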