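import Pool.Agent.Helper89.PCharSoluble

/-!
# Coinduced representations from the normaliser of a simple subgroup
-/

set_option autoImplicit false

universe u

namespace Pool.Agent.Helper89.PChar

open Representation Module
open scoped commutatorElement

/-- The situation: `S` is a nonabelian simple subgroup of `G` which commutes elementwise with all
its other conjugates, `B` is the normaliser of `S` and `N` the normal closure of `S`. -/
structure Setup {G : Type u} [Group G] (S B N : Subgroup G) : Prop where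
  SB : S ≤ B
  conj : ∀ b ∈ B, ∀ s ∈ S, b * s * b⁻¹ ∈ S
  comm : ∀ g : G, g ∉ B → ∀ s ∈ S, ∀ t ∈ S, Commute s (g * t * g⁻¹)
  cent : ∀ g : G, (∀ s ∈ S, Commute s g) → g ∈ B
  perf : ⁅S, S⁆ = S
  simple : ∀ T : Subgroup G, T ≤ S → (∀ s ∈ S, ∀ t ∈ T, s * t * s⁻¹ ∈ T) → T = ⊥ ∨ T = S
  three : ∀ T : Subgroup S, T ≠ ⊤ → 3 ≤ T.index
  normal : N.Normal
  SN : S ≤ N
  NB : N ≤ B
  closure : ∀ K : Subgroup G, (∀ g : G, ∀ s ∈ S, g * s * g⁻¹ ∈ K) → N ≤ K

namespace Setup

variable {G : Type u} [Group G] {S B N : Subgroup G} (h : Setup S B N)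

include h

/-- conjugates of `S` by elements outside `B` centralise `S` and lie in `B` -/
theorem conj_mem_B {g : G} (hg : g ∉ B) {t : G} (ht : t ∈ S) : g * t * g⁻¹ ∈ B :=
  h.cent _ fun s hs => h.comm g hg s hs t ht

omit h in
theorem inv_not {g : G} (hg : g ∉ B) : g⁻¹ ∉ B := fun h' => hg (by simpa using B.inv_mem h')

end Setup

section coind

variable {G : Type u} [Group G] {S B N : Subgroup G}
  {V : Type u} [AddCommGroup V] [Module ℂ V] (σ : Representation ℂ B V)

/-- the coinduced representation -/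
noncomputable abbrev CR : Representation ℂ G (coindV B.subtype σ) := coind B.subtype σ

theorem CR_apply (g : G) (f : coindV B.subtype σ) (y : G) : (CR σ g f).1 y = f.1 (y * g) := rfl

theorem CR_equiv (f : coindV B.subtype σ) {b : G} (hb : b ∈ B) (y : G) :
    f.1 (b * y) = σ ⟨b, hb⟩ (f.1 y) := f.2 ⟨b, hb⟩ y

open Classical in
/-- the function supported on `B` with value `v` at `1` -/
noncomputable def delta (v : V) : coindV B.subtype σ :=
  ⟨fun y => if hy : y ∈ B then σ ⟨y, hy⟩ v else 0, by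
    intro b y
    beta_reduce
    by_cases hy : y ∈ B
    · have hby : B.subtype b * y ∈ B := B.mul_mem b.2 hy
      rw [dif_pos hby, dif_pos hy]
      have : (⟨B.subtype b * y, hby⟩ : B) = b * ⟨y, hy⟩ := rfl
      rw [this, map_mul]
      rfl
    · have hby : B.subtype b * y ∉ B := fun h => hy (by
        have := B.mul_mem (B.inv_mem b.2) h
        simpa using this)
      rw [dif_neg hby, dif_neg hy, map_zero]⟩

theorem delta_mem (v : V) {y : G} (hy : y ∈ B) : (delta σ v).1 y = σ ⟨y, hy⟩ v := by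
  simp [delta, hy]

theorem delta_not (v : V) {y : G} (hy : y ∉ B) : (delta σ v).1 y = 0 := by
  simp [delta, hy]

theorem delta_one (v : V) : (delta σ v).1 1 = v := by
  rw [delta_mem σ v B.one_mem]
  have : (⟨1, B.one_mem⟩ : B) = 1 := rfl
  rw [this, map_one, Module.End.one_apply]

/-- restriction of a function to the coset `B x` -/
noncomputable def cut (x : G) (f : coindV B.subtype σ) : coindV B.subtype σ :=
  CR σ x⁻¹ (delta σ (f.1 x))

theorem cut_mem {x y : G} (f : coindV B.subtype σ) (hy : y * x⁻¹ ∈ B) :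
    (cut σ x f).1 y = f.1 y := by
  unfold cut
  rw [CR_apply, delta_mem σ _ hy, ← CR_equiv σ f hy]
  simp

theorem cut_not {x y : G} (f : coindV B.subtype σ) (hy : y * x⁻¹ ∉ B) :
    (cut σ x f).1 y = 0 := by
  unfold cut
  rw [CR_apply, delta_not σ _ hy]

/-- averaging over the conjugate `x⁻¹ S x` -/
noncomputable def avg (S : Subgroup G) [Fintype S] (x : G) (f : coindV B.subtype σ) :
    coindV B.subtype σ :=
  (Nat.card S : ℂ)⁻¹ • ∑ s : S, CR σ (x⁻¹ * s * x) f

theorem coind_sum_apply {ι : Type*} (s : Finset ι) (F : ι → coindV B.subtype σ) (y : G) :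
    (∑ i ∈ s, F i).1 y = ∑ i ∈ s, (F i).1 y := by
  rw [Submodule.coe_sum, Finset.sum_apply]

theorem avg_apply [Fintype S] (x : G) (f : coindV B.subtype σ) (y : G) :
    (avg σ S x f).1 y = (Nat.card S : ℂ)⁻¹ • ∑ s : S, f.1 (y * (x⁻¹ * s * x)) := by
  unfold avg
  change (Nat.card S : ℂ)⁻¹ • ((∑ s : S, CR σ (x⁻¹ * s * x) f).1 y) = _
  rw [coind_sum_apply]
  rfl

variable (h : Setup S B N) (hC : ∀ b : B, (∀ s ∈ S, Commute s (b : G)) → σ b = 1)
  (hS0 : ∀ v : V, (∀ s (hs : s ∈ S), σ ⟨s, h.SB hs⟩ v = v) → v = 0)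

include h hC in
theorem apply_conj_not {x y : G} (hxy : y * x⁻¹ ∉ B) (f : coindV B.subtype σ) {s : G}
    (hs : s ∈ S) : f.1 (y * (x⁻¹ * s * x)) = f.1 y := by
  have h1 := h.conj_mem_B hxy hs
  have h2 : y * (x⁻¹ * s * x) = (y * x⁻¹) * s * (y * x⁻¹)⁻¹ * y := by group
  rw [h2, CR_equiv σ f h1]
  have h3 := hC ⟨_, h1⟩ (fun t ht => h.comm _ hxy t ht s hs)
  rw [h3, Module.End.one_apply]

theorem apply_conj_mem {x y : G} (hxy : y * x⁻¹ ∈ B) (f : coindV B.subtype σ) {s : G}
    (hs : s ∈ S) : f.1 (y * (x⁻¹ * s * x))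
      = σ ⟨(y * x⁻¹) * s * (y * x⁻¹)⁻¹, h.SB (h.conj _ hxy s hs)⟩ (f.1 y) := by
  have h2 : y * (x⁻¹ * s * x) = (y * x⁻¹) * s * (y * x⁻¹)⁻¹ * y := by group
  rw [h2, CR_equiv σ f (h.SB (h.conj _ hxy s hs))]

include hC hS0 in
theorem sub_avg [Finite G] [Fintype S] (x : G) (f : coindV B.subtype σ) :
    f - avg σ S x f = cut σ x f := by
  classical
  apply Subtype.ext
  funext y
  change f.1 y - (avg σ S x f).1 y = (cut σ x f).1 y
  rw [avg_apply]
  have hcard : (Nat.card S : ℂ) ≠ 0 := by exact_mod_cast Nat.card_pos.ne'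
  by_cases hxy : y * x⁻¹ ∈ B
  · rw [cut_mem σ f hxy]
    -- the sum is an `S`-fixed vector
    have h1 : ∀ s : S, f.1 (y * (x⁻¹ * s * x))
        = σ ⟨(y * x⁻¹) * s * (y * x⁻¹)⁻¹, h.SB (h.conj _ hxy s s.2)⟩ (f.1 y) :=
      fun s => apply_conj_mem σ h hxy f s.2
    simp_rw [h1]
    have h2 : ∑ s : S, σ ⟨(y * x⁻¹) * s * (y * x⁻¹)⁻¹, h.SB (h.conj _ hxy s s.2)⟩ (f.1 y)
        = ∑ s : S, σ ⟨s, h.SB s.2⟩ (f.1 y) := by
      refine Fintype.sum_equiv
        { toFun := fun s : S => ⟨(y * x⁻¹) * s * (y * x⁻¹)⁻¹, h.conj _ hxy s s.2⟩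
          invFun := fun s : S => ⟨(y * x⁻¹)⁻¹ * s * (y * x⁻¹), by
            have := h.conj _ (B.inv_mem hxy) s s.2
            simpa using this⟩
          left_inv := fun s => Subtype.ext (by simp only; group)
          right_inv := fun s => Subtype.ext (by simp only; group) } _ _ fun s => rfl
    have h3 : ∑ s : S, σ ⟨s, h.SB s.2⟩ (f.1 y) = 0 := by
      apply hS0
      intro t ht
      rw [map_sum]
      refine Fintype.sum_equiv (Equiv.mulLeft (⟨t, ht⟩ : S)) _ _ fun s => ?_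
      rw [← rho_mul]
      rfl
    rw [h2, h3, smul_zero, sub_zero]
  · rw [cut_not σ f hxy]
    have h1 : ∀ s : S, f.1 (y * (x⁻¹ * s * x)) = f.1 y :=
      fun s => apply_conj_not σ h hC hxy f s.2
    simp_rw [h1]
    rw [Finset.sum_const, Finset.card_univ, ← Nat.cast_smul_eq_nsmul ℂ, smul_smul,
      Fintype.card_eq_nat_card, inv_mul_cancel₀ hcard, one_smul, sub_self]

theorem avg_mem [Fintype S] (Z : Submodule ℂ (coindV B.subtype σ))
    (hZ : ∀ g : G, ∀ v ∈ Z, CR σ g v ∈ Z) (x : G) {f : coindV B.subtype σ} (hf : f ∈ Z) :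
    avg σ S x f ∈ Z :=
  Z.smul_mem _ (Z.sum_mem fun s _ => hZ _ f hf)

theorem CR_delta (b : B) (v : V) : CR σ (b : G) (delta σ v) = delta σ (σ b v) := by
  apply Subtype.ext
  funext y
  rw [CR_apply]
  by_cases hy : y ∈ B
  · rw [delta_mem σ _ (B.mul_mem hy b.2), delta_mem σ _ hy, ← rho_mul]
    rfl
  · have : y * b ∉ B := fun h => hy (by
      have := B.mul_mem h (B.inv_mem b.2)
      simpa using this)
    rw [delta_not σ _ this, delta_not σ _ hy]

theorem delta_add (v w : V) : delta σ (v + w) = delta σ v + delta σ w := by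
  apply Subtype.ext
  funext y
  change (delta σ (v + w)).1 y = (delta σ v).1 y + (delta σ w).1 y
  by_cases hy : y ∈ B
  · rw [delta_mem σ _ hy, delta_mem σ _ hy, delta_mem σ _ hy, map_add]
  · rw [delta_not σ _ hy, delta_not σ _ hy, delta_not σ _ hy, add_zero]

theorem delta_smul (c : ℂ) (v : V) : delta σ (c • v) = c • delta σ v := by
  apply Subtype.ext
  funext y
  change (delta σ (c • v)).1 y = c • (delta σ v).1 y
  by_cases hy : y ∈ B
  · rw [delta_mem σ _ hy, delta_mem σ _ hy, map_smul]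
  · rw [delta_not σ _ hy, delta_not σ _ hy, smul_zero]

/-- `delta` as a linear map -/
noncomputable def deltaL : V →ₗ[ℂ] coindV B.subtype σ where
  toFun := delta σ
  map_add' := delta_add σ
  map_smul' := delta_smul σ

include hC hS0 in
/-- the coinduced representation is irreducible -/
theorem CR_irreducible [Finite G] (hσ : σ.IsIrreducible) : (CR σ).IsIrreducible := by
  classical
  let _ := Fintype.ofFinite G
  let _ := Fintype.ofFinite S
  rw [irr_iff] at hσ ⊢
  obtain ⟨hnt, hσ⟩ := hσ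
  obtain ⟨v₀, hv₀⟩ := exists_ne (0 : V)
  refine ⟨⟨delta σ v₀, 0, fun h0 => hv₀ ?_⟩, ?_⟩
  · rw [← delta_one σ v₀, h0]
    rfl
  intro Z hZ
  by_cases hbot : Z = ⊥
  · exact Or.inl hbot
  right
  obtain ⟨f, hfZ, hf0⟩ := Submodule.exists_mem_ne_zero_of_ne_bot hbot
  obtain ⟨x, hx⟩ : ∃ x, f.1 x ≠ 0 := by
    by_contra! hcon
    exact hf0 (Subtype.ext (funext hcon))
  -- all `delta v` are in `Z`
  have h1 : delta σ (f.1 x) ∈ Z := by
    have h2 : cut σ x f ∈ Z := by
      rw [← sub_avg σ h hC hS0]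
      exact Z.sub_mem hfZ (avg_mem σ Z hZ x hfZ)
    have h3 := hZ x _ h2
    unfold cut at h3
    rw [← rho_mul, mul_inv_cancel, map_one, Module.End.one_apply] at h3
    exact h3
  have hall : ∀ v : V, delta σ v ∈ Z := by
    rcases hσ (Z.comap (deltaL σ)) (fun b v hv => by
      rw [Submodule.mem_comap] at hv ⊢
      change delta σ (σ b v) ∈ Z
      rw [← CR_delta]
      exact hZ _ _ hv) with hc | hc
    · exfalso
      have h4 : f.1 x ∈ Z.comap (deltaL σ) := h1
      rw [hc, Submodule.mem_bot] at h4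
      exact hx h4
    · intro v
      have h4 : v ∈ Z.comap (deltaL σ) := by rw [hc]; trivial
      exact h4
  rw [eq_top_iff]
  intro F _
  have hBc : (Nat.card B : ℂ) ≠ 0 := by exact_mod_cast Nat.card_pos.ne'
  have h5 : F = (Nat.card B : ℂ)⁻¹ • ∑ x : G, cut σ x F := by
    apply Subtype.ext
    funext y
    change F.1 y = (Nat.card B : ℂ)⁻¹ • ((∑ x : G, cut σ x F).1 y)
    rw [coind_sum_apply]
    have h6 : ∀ x : G, (cut σ x F).1 y = if y * x⁻¹ ∈ B then F.1 y else 0 := by
      intro x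
      split_ifs with hx
      · exact cut_mem σ F hx
      · exact cut_not σ F hx
    simp_rw [h6]
    have h7 : ∑ x : G, (if y * x⁻¹ ∈ B then F.1 y else 0) = ∑ z : G, if z ∈ B then F.1 y else 0 := by
      refine Fintype.sum_equiv ((Equiv.inv G).trans (Equiv.mulLeft y)) _ _ fun x => rfl
    rw [h7, Finset.sum_ite, Finset.sum_const_zero, add_zero, Finset.sum_const,
      ← Nat.cast_smul_eq_nsmul ℂ, smul_smul]
    have h8 : (Finset.univ.filter fun z : G => z ∈ B).card = Nat.card B := by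
      rw [Nat.card_eq_fintype_card, Fintype.card_subtype]
    rw [h8, inv_mul_cancel₀ hBc, one_smul]
  rw [h5]
  exact Z.smul_mem _ (Z.sum_mem fun x _ => hZ _ _ (hall _))

end coind

end Pool.Agent.Helper89.PChar
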