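import Pool.Agent.Helper89.PCharReduce

/-!
# Consequences of the factorisations `A = U H`
-/

set_option autoImplicit false

universe u

namespace Pool.Agent.Helper89.PChar

open scoped Pointwise commutatorElement

section

variable {A : Type u} [Group A] [Finite A]

theorem index_le_relIndex (U H : Subgroup A) (h : ∀ a : A, ∃ u ∈ U, ∃ k ∈ H, a = u * k) :
    H.index ≤ H.relIndex U := by
  classical
  let f : U ⧸ H.subgroupOf U → A ⧸ H := Quotient.map' (fun u : U => (u : A)) (by
    intro a b hab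
    rw [QuotientGroup.leftRel_apply] at hab ⊢
    exact hab)
  have hf : Function.Surjective f := by
    intro x
    obtain ⟨a, rfl⟩ := QuotientGroup.mk_surjective x
    obtain ⟨u, hu, k, hk, rfl⟩ := h a
    refine ⟨QuotientGroup.mk ⟨u, hu⟩, ?_⟩
    change (QuotientGroup.mk u : A ⧸ H) = QuotientGroup.mk (u * k)
    rw [QuotientGroup.eq]
    simpa using hk
  exact Nat.card_le_card_of_surjective f hf

theorem prod_of_sup_normal (N X : Subgroup A) [N.Normal] (h : X ⊔ N = ⊤) (a : A) :
    ∃ n ∈ N, ∃ x ∈ X, a = n * x := by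
  have h1 : a ∈ N ⊔ X := by rw [sup_comm, h]; trivial
  rw [Subgroup.mem_sup_of_normal_left] at h1
  obtain ⟨n, hn, x, hx, rfl⟩ := h1
  exact ⟨n, hn, x, hx, rfl⟩

variable {N : Subgroup A}

/-- a proper supplement of `N` lies in a maximal subgroup not containing `N` -/
theorem exists_coatom (X : Subgroup A) (hX : X ≠ ⊤) (hXN : X ⊔ N = ⊤) :
    ∃ H : Subgroup A, IsCoatom H ∧ ¬ N ≤ H ∧ X ≤ H := by
  rcases eq_top_or_exists_le_coatom X with h | ⟨H, hH, hXH⟩
  · exact absurd h hX
  · refine ⟨H, hH, ?_, hXH⟩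
    intro hNH
    apply hH.1
    rw [eq_top_iff, ← hXN]
    exact sup_le hXH hNH

theorem AlmostSimple.not_soluble (hA : AlmostSimple A N) : ¬ Group.IsSolvable N := by
  intro hs
  have h1 := hA.simple
  have h2 : ∀ a b : N, a * b = b * a := by
    rw [IsSimpleGroup.comm_iff_isSolvable]
    exact hs
  obtain ⟨x, hx, y, hy, hxy⟩ := hA.nonabelian
  exact hxy (congrArg Subtype.val (h2 ⟨x, hx⟩ ⟨y, hy⟩))

theorem AlmostSimple.card_pos (hA : AlmostSimple A N) : 1 < Nat.card N := by
  have h1 := hA.simple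
  exact Finite.one_lt_card

/-- normalisers of Sylow subgroups of `N` are proper supplements -/
theorem AlmostSimple.sylow_supplement (hA : AlmostSimple A N) (r : ℕ) (hr : r.Prime)
    (Q : Sylow r N) (hQ : (Q : Subgroup N) ≠ ⊥) :
    Subgroup.normalizer ((Q : Subgroup N).map N.subtype : Set A) ≠ ⊤ ∧
      Subgroup.normalizer ((Q : Subgroup N).map N.subtype : Set A) ⊔ N = ⊤ := by
  have hn := hA.normal
  have hrf : Fact r.Prime := ⟨hr⟩
  refine ⟨?_, Sylow.normalizer_sup_eq_top Q⟩
  intro htop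
  rcases hA.dichotomy ((Q : Subgroup N).map N.subtype) (by rintro _ ⟨t, _, rfl⟩; exact t.2) (by
    intro s _ t ht
    have h1 : s ∈ Subgroup.normalizer ((Q : Subgroup N).map N.subtype : Set A) := by
      rw [htop]
      trivial
    exact (h1 t).1 ht) with h | h
  · rw [Subgroup.map_eq_bot_iff_of_injective _ N.subtype_injective] at h
    exact hQ h
  · apply hA.not_soluble
    have h2 : (Q : Subgroup N) = ⊤ := by
      rw [eq_top_iff]
      intro n _
      have h3 : (n : A) ∈ (Q : Subgroup N).map N.subtype := by rw [h]; exact n.2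
      obtain ⟨t, ht, hte⟩ := h3
      rwa [Subtype.ext hte] at ht
    have h3 : IsPGroup r N := by
      have h4 := Q.2
      rw [h2] at h4
      exact h4.of_equiv Subgroup.topEquiv
    have h4 : Group.IsNilpotent N := h3.isNilpotent
    infer_instance

theorem AlmostSimple.exists_coatom_not (hA : AlmostSimple A N) :
    ∃ H : Subgroup A, IsCoatom H ∧ ¬ N ≤ H := by
  obtain ⟨r, hr, hrd⟩ := Nat.exists_prime_and_dvd hA.card_pos.ne'
  have hrf : Fact r.Prime := ⟨hr⟩
  obtain ⟨Q⟩ : Nonempty (Sylow r N) := inferInstance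
  obtain ⟨h1, h2⟩ := hA.sylow_supplement r hr Q (Q.ne_bot_of_dvd_card hrd)
  obtain ⟨H, hH, hNH, _⟩ := exists_coatom _ h1 h2
  exact ⟨H, hH, hNH⟩

/-- `|A : U| < |U : U ∩ X|` for every proper supplement `X` -/
theorem supplement_bound (hA : AlmostSimple A N) (hG : AllPMonomial A) (U : Subgroup A)
    (hmin : ∀ U' : Subgroup A, ¬ N ≤ U' → U.index ≤ U'.index) (X : Subgroup A) (hX : X ≠ ⊤)
    (hXN : X ⊔ N = ⊤) : U.index < X.relIndex U := by
  have hn := hA.normal
  obtain ⟨H, hH, hNH, hXH⟩ := exists_coatom X hX hXN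
  have h1 : U.index < H.index := by
    refine lt_of_le_of_ne (hmin H hNH) ?_
    intro heq
    apply hH.1
    rw [eq_top_iff]
    intro a _
    obtain ⟨u, hu, h, hh, rfl⟩ := factorisation hG N hA.perfect H (fun U' hU' => by
      rw [← heq]
      exact hmin U' hU') H hH hNH a
    exact H.mul_mem hu hh
  have h2 := index_le_relIndex U H (factorisation hG N hA.perfect U hmin H hH hNH)
  have h3 : H.relIndex U ≤ X.relIndex U :=
    Subgroup.relIndex_le_of_le_left hXH Subgroup.index_ne_zero_of_finite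
  omega

/-- classes of subgroups of `N` invariant under `A` have large index -/
theorem class_bound (hA : AlmostSimple A N) (hG : AllPMonomial A) (U : Subgroup A)
    (hNU : ¬ N ≤ U) (hmin : ∀ U' : Subgroup A, ¬ N ≤ U' → U.index ≤ U'.index) (R : Subgroup A)
    (hR : R < N)
    (hinv : ∀ a : A, ∃ n ∈ N, R.map (MulAut.conj a).toMonoidHom = R.map (MulAut.conj n).toMonoidHom) :
    2 * U.relIndex N ≤ R.relIndex N := by
  have hn := hA.normal
  -- `U N ≠ A`
  have hUN : U ⊔ N ≠ ⊤ := by
    intro htop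
    by_cases hU : U = ⊤
    · exact hNU (by rw [hU]; exact le_top)
    have h1 := supplement_bound hA hG U hmin U hU htop
    rw [Subgroup.relIndex_self] at h1
    have h2 : U.index ≠ 0 := Subgroup.index_ne_zero_of_finite
    omega
  have h1 : 2 * U.relIndex N ≤ U.index := by
    have h2 := Subgroup.relIndex_mul_index (H := U) (K := U ⊔ N) le_sup_left
    have h3 : U.relIndex N ≤ U.relIndex (U ⊔ N) :=
      Subgroup.relIndex_le_of_le_right le_sup_right Subgroup.index_ne_zero_of_finite
    have h4 : (U ⊔ N).index ≠ 0 := Subgroup.index_ne_zero_of_finite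
    have h5 : (U ⊔ N).index ≠ 1 := fun h => hUN (Subgroup.index_eq_one.1 h)
    rw [← h2, mul_comm]
    exact Nat.mul_le_mul h3 (by omega)
  refine h1.trans ?_
  by_cases hbot : R = ⊥
  · obtain ⟨H, hH, hNH⟩ := hA.exists_coatom_not
    have h2 : H ⊔ N = ⊤ := hH.2 _ (left_lt_sup.2 hNH)
    have h3 := index_le_relIndex N H (fun a => prod_of_sup_normal N H h2 a)
    have h4 : H.relIndex N ≤ R.relIndex N :=
      Subgroup.relIndex_le_of_le_left (by rw [hbot]; exact bot_le)
        Subgroup.index_ne_zero_of_finite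
    exact ((hmin H hNH).trans h3).trans h4
  · set X : Subgroup A := Subgroup.normalizer (R : Set A) with hX
    have hRX : R ≤ X := Subgroup.le_normalizer
    have hNX : ¬ N ≤ X := by
      intro hle
      rcases hA.dichotomy R hR.le (fun s hs t ht => ((hle hs) t).1 ht) with h | h
      · exact hbot h
      · exact hR.ne h
    have hprod : ∀ a : A, ∃ n ∈ N, ∃ x ∈ X, a = n * x := by
      intro a
      obtain ⟨n, hn', hRn⟩ := hinv a
      refine ⟨n, hn', n⁻¹ * a, ?_, by group⟩
      have key : ∀ t, t ∈ R ↔ n⁻¹ * a * t * (n⁻¹ * a)⁻¹ ∈ R := by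
        have hmem : ∀ (b t : A), t ∈ R ↔ b * t * b⁻¹ ∈ R.map (MulAut.conj b).toMonoidHom := by
          intro b t
          constructor
          · intro ht
            exact ⟨t, ht, by simp⟩
          · rintro ⟨y, hy, hyt⟩
            have h5 : b * y * b⁻¹ = b * t * b⁻¹ := by simpa using hyt
            have h6 : y = t := by
              have h7 := congrArg (fun x => b⁻¹ * x * b) h5
              simpa [mul_assoc] using h7
            rwa [← h6]
        intro t
        rw [hmem a t, hRn, hmem n (n⁻¹ * a * t * (n⁻¹ * a)⁻¹)]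
        have e : n * (n⁻¹ * a * t * (n⁻¹ * a)⁻¹) * n⁻¹ = a * t * a⁻¹ := by group
        rw [e]
      exact key
    have h3 := index_le_relIndex N X hprod
    have h4 : X.relIndex N ≤ R.relIndex N :=
      Subgroup.relIndex_le_of_le_left hRX Subgroup.index_ne_zero_of_finite
    exact ((hmin X hNX).trans h3).trans h4

/-- the intersection of all Sylow `p`-subgroups -/
theorem core_char (K : Type u) [Group K] [Finite K] (p : ℕ) [Fact p.Prime] :
    (⨅ R : Sylow p K, (R : Subgroup K)).Characteristic := by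
  rw [Subgroup.characteristic_iff_map_le]
  rintro φ _ ⟨x, hx, rfl⟩
  rw [SetLike.mem_coe, Subgroup.mem_iInf] at hx
  rw [Subgroup.mem_iInf]
  intro R
  have h1 := hx (φ⁻¹ • R)
  rw [Sylow.pointwise_smul_def, Subgroup.mem_inv_pointwise_smul_iff] at h1
  exact h1

theorem le_core (K : Type u) [Group K] [Finite K] (p : ℕ) [Fact p.Prime] (Z : Subgroup K)
    [hZn : Z.Normal] (hZ : IsPGroup p Z) : Z ≤ ⨅ R : Sylow p K, (R : Subgroup K) := by
  rw [le_iInf_iff]
  intro R
  have h1 : IsPGroup p (Z ⊔ R : Subgroup K) := hZ.to_sup_of_normal_left R.2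
  have h2 := R.3 h1 le_sup_right
  rw [← h2]
  exact le_sup_left

/-- `U` normalises no nontrivial `p`-subgroup of `U ∩ N` -/
theorem no_local (hA : AlmostSimple A N) (hG : AllPMonomial A) (U : Subgroup A)
    (hmin : ∀ U' : Subgroup A, ¬ N ≤ U' → U.index ≤ U'.index) (p : ℕ) (hp : p.Prime)
    (Z : Subgroup A) (hZ : IsPGroup p Z) (hZU : Z ≤ U) (hZN : Z ≤ N)
    (hinv : ∀ u ∈ U, ∀ z ∈ Z, u * z * u⁻¹ ∈ Z) : Z = ⊥ := by
  have hn := hA.normal
  have hpf : Fact p.Prime := ⟨hp⟩
  by_contra hZ1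
  -- a Sylow subgroup of `N` containing `Z`
  have h1 : IsPGroup p (Z.subgroupOf N) := hZ.comap_subtype
  obtain ⟨Q, hQ⟩ := h1.exists_le_sylow
  have hQ1 : (Q : Subgroup N) ≠ ⊥ := by
    intro h0
    apply hZ1
    rw [h0, le_bot_iff, Subgroup.subgroupOf_eq_bot] at hQ
    rw [eq_bot_iff]
    intro z hz
    exact hQ.le_bot ⟨hz, hZN hz⟩
  obtain ⟨h2, h3⟩ := hA.sylow_supplement p hp Q hQ1
  obtain ⟨H, hH, hNH, hXH⟩ := exists_coatom _ h2 h3
  have hZH : Z ≤ H := by
    intro z hz
    apply hXH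
    apply Subgroup.le_normalizer
    exact ⟨⟨z, hZN hz⟩, hQ (show (⟨z, hZN hz⟩ : N) ∈ Z.subgroupOf N from hz), rfl⟩
  -- all conjugates of `Z` lie in `H`
  have hconj : ∀ a : A, ∀ z ∈ Z, a⁻¹ * z * a ∈ H := by
    intro a z hz
    obtain ⟨u, hu, h, hh, rfl⟩ := factorisation hG N hA.perfect U hmin H hH hNH a
    have h4 : u⁻¹ * z * u ∈ Z := by
      have := hinv u⁻¹ (U.inv_mem hu) z hz
      simpa using this
    have h5 := H.mul_mem (H.mul_mem (H.inv_mem hh) (hZH h4)) hh
    have e : h⁻¹ * (u⁻¹ * z * u) * h = (u * h)⁻¹ * z * (u * h) := by group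
    rwa [e] at h5
  have hcl : Subgroup.normalClosure (Z : Set A) ≤ H := by
    rw [Subgroup.normalClosure, Subgroup.closure_le]
    intro x hx
    rw [Group.mem_conjugatesOfSet_iff] at hx
    obtain ⟨z, hz, hzx⟩ := hx
    rw [isConj_iff] at hzx
    obtain ⟨c, rfl⟩ := hzx
    have := hconj c⁻¹ z hz
    simpa using this
  have hclN : Subgroup.normalClosure (Z : Set A) ≤ N := Subgroup.normalClosure_le_normal hZN
  rcases hA.dichotomy _ hclN (fun s _ t ht => Subgroup.normalClosure_normal.conj_mem t ht s) with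
    h | h
  · apply hZ1
    rw [eq_bot_iff, ← h]
    exact Subgroup.subset_normalClosure
  · exact hNH (by rw [← h]; exact hcl)

/-- `U ∩ N` has no nontrivial soluble normal subgroup -/
theorem no_soluble (hA : AlmostSimple A N) (hG : AllPMonomial A) (U : Subgroup A)
    (hmin : ∀ U' : Subgroup A, ¬ N ≤ U' → U.index ≤ U'.index) (T : Subgroup A)
    (hTU : T ≤ U ⊓ N) (hinv : ∀ d ∈ U ⊓ N, ∀ t ∈ T, d * t * d⁻¹ ∈ T)
    (hsol : Group.IsSolvable T) : T = ⊥ := by
  classical
  have hn := hA.normal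
  by_contra hT1
  -- a characteristic `p`-subgroup of `T`
  have hTnt : Nontrivial T := (Subgroup.nontrivial_iff_ne_bot T).2 hT1
  obtain ⟨p, hp, P, hPc, hP1, hPp⟩ := exists_char_pgroup T
  have hpf : Fact p.Prime := ⟨hp⟩
  -- work inside `U`
  set D : Subgroup U := N.subgroupOf U with hD
  have hDn : D.Normal := hn.subgroupOf U
  -- `P` as a subgroup of `D`
  let ι : T →* D :=
    { toFun := fun t => ⟨⟨t, (hTU t.2).1⟩, (hTU t.2).2⟩
      map_one' := rfl
      map_mul' := fun _ _ => rfl }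
  have hι : Function.Injective ι := by
    intro a b hab
    apply Subtype.ext
    exact congrArg (fun x : D => ((x : U) : A)) hab
  set P' : Subgroup D := P.map ι with hP'
  have hP'n : P'.Normal := by
    refine ⟨?_⟩
    rintro _ ⟨t, ht, rfl⟩ d
    have hd : ((d : U) : A) ∈ U ⊓ N := ⟨(d : U).2, d.2⟩
    -- conjugation by `d` is an automorphism of `T`
    let φ : T ≃* T :=
      { toFun := fun x => ⟨((d : U) : A) * x * ((d : U) : A)⁻¹, hinv _ hd _ x.2⟩
        invFun := fun x => ⟨((d : U) : A)⁻¹ * x * ((d : U) : A)⁻¹⁻¹,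
          hinv _ ((U ⊓ N).inv_mem hd) _ x.2⟩
        left_inv := fun x => Subtype.ext (by simp only; group)
        right_inv := fun x => Subtype.ext (by simp only; group)
        map_mul' := fun x y => Subtype.ext (by simp only [Subgroup.coe_mul]; group) }
    refine ⟨φ t, ?_, rfl⟩
    have h1 := (Subgroup.characteristic_iff_map_le.1 hPc) φ
    exact h1 ⟨t, ht, rfl⟩
  have hP'p : IsPGroup p P' := hPp.map ι
  set C : Subgroup D := ⨅ R : Sylow p D, (R : Subgroup D) with hC
  have hCc : C.Characteristic := core_char D p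
  have hPC : P' ≤ C := le_core D p P' hP'p
  have hCp : IsPGroup p C := by
    obtain ⟨R⟩ : Nonempty (Sylow p D) := inferInstance
    exact R.2.to_le (iInf_le _ R)
  set E : Subgroup U := C.map D.subtype with hE
  have hEn : E.Normal := inferInstance
  set Z : Subgroup A := E.map U.subtype with hZ
  have hZbot : Z = ⊥ := by
    apply no_local hA hG U hmin p hp Z
    · exact (hCp.map _).map _
    · rintro _ ⟨x, _, rfl⟩
      exact x.2
    · rintro _ ⟨x, ⟨y, _, rfl⟩, rfl⟩
      exact y.2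
    · rintro u hu _ ⟨x, hx, rfl⟩
      exact ⟨⟨u, hu⟩ * x * ⟨u, hu⟩⁻¹, hEn.conj_mem x hx ⟨u, hu⟩, rfl⟩
  apply hP1
  rw [eq_bot_iff]
  intro t ht
  have h1 : ((t : T) : A) ∈ Z := ⟨_, ⟨_, hPC ⟨t, ht, rfl⟩, rfl⟩, rfl⟩
  rw [hZbot, Subgroup.mem_bot] at h1
  rw [Subgroup.mem_bot]
  exact Subtype.ext h1

end

end Pool.Agent.Helper89.PChar
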