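import Mathlib

/-!
# Definitions: irreducible characters, induced class functions, P-characters, monomial characters
-/

set_option autoImplicit false

universe u

namespace Pool.Agent.Helper89.PChar

open Representation

/-- `χ` is an irreducible complex character of the group `G`: the character of an irreducible
finite-dimensional complex representation of `G`. -/
def IsIrrChar {G : Type u} [Group G] (χ : G → ℂ) : Prop :=
  ∃ (V : Type u) (_ : AddCommGroup V) (_ : Module ℂ V) (_ : FiniteDimensional ℂ V)
    (ρ : Representation ℂ G V), ρ.IsIrreducible ∧ χ = ρ.character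

open Classical in
/-- The class function of `G` induced from a function `f` on the subgroup `H`:
`g ↦ (1/|H|) ∑ f(x⁻¹ g x)`, the sum over all `x ∈ G` with `x⁻¹ g x ∈ H`. -/
noncomputable def ind {G : Type u} [Group G] (H : Subgroup G) (f : H → ℂ) (g : G) : ℂ :=
  (Nat.card H : ℂ)⁻¹ * ∑ᶠ x : G, if h : x⁻¹ * g * x ∈ H then f ⟨x⁻¹ * g * x, h⟩ else 0

/-- The inner product `(1/|G|) ∑ α(g) conj(β(g))` of two class functions. -/
noncomputable def inner {G : Type u} [Group G] (α β : G → ℂ) : ℂ :=
  (Nat.card G : ℂ)⁻¹ * ∑ᶠ g : G, α g * (starRingEnd ℂ) (β g)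

/-- `χ` is a P-character of `G`: an irreducible character of `G` which is a constituent of
`(1_H)^G` for some maximal subgroup `H` of `G`. -/
def IsPChar {G : Type u} [Group G] (χ : G → ℂ) : Prop :=
  IsIrrChar χ ∧ ∃ H : Subgroup G, IsCoatom H ∧ inner χ (ind H fun _ => 1) ≠ 0

/-- `χ` is monomial: it is induced from a linear character `lam` of a subgroup `U`. -/
def IsMonomial {G : Type u} [Group G] (χ : G → ℂ) : Prop :=
  ∃ (U : Subgroup G) (lam : U →* ℂˣ), χ = ind U fun x => (lam x : ℂ)

/-- Every P-character of `G` is monomial. -/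
def AllPMonomial (G : Type u) [Group G] : Prop :=
  ∀ χ : G → ℂ, IsPChar χ → IsMonomial χ

/-- `N` is a nonabelian simple normal subgroup of `A` with trivial centraliser (so that `A` is an
almost simple group with socle `N`), and `A / N` is soluble: some term of the derived series of
`A` lies in `N`. -/
structure AlmostSimple (A : Type u) [Group A] (N : Subgroup A) : Prop where
  normal : N.Normal
  simple : IsSimpleGroup N
  nonabelian : ∃ x ∈ N, ∃ y ∈ N, x * y ≠ y * x
  centralizer : Subgroup.centralizer (N : Set A) = ⊥
  soluble : ∃ n : ℕ, derivedSeries A n ≤ N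

/-- `A` is a section of `G` (a homomorphic image of a subgroup `K` of `G`), and the subgroup `N` of
`A` is the image of a subnormal subgroup `L` of `G` contained in `K`. -/
def IsSection (G A : Type u) [Group G] [Group A] (N : Subgroup A) : Prop :=
  ∃ (K : Subgroup G) (φ : K →* A), Function.Surjective φ ∧
    ∃ L : Subgroup G, L.IsSubnormal ∧ L ≤ K ∧ (L.subgroupOf K).map φ = N

/-- `U` does not contain `N`, and has minimal index among the subgroups of `A` not containing
`N`. -/
def IsMinIndex {A : Type u} [Group A] (N U : Subgroup A) : Prop :=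
  ¬ N ≤ U ∧ ∀ U' : Subgroup A, ¬ N ≤ U' → U.index ≤ U'.index

end Pool.Agent.Helper89.PChar
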