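import Pool.Agent.Helper89.PCharLines

/-!
# If the coinduced representation is monomial, so is the inducing one
-/

set_option autoImplicit false

universe u

namespace Pool.Agent.Helper89.PChar

open Representation Module

section

variable {G : Type u} [Group G] {V : Type u} [AddCommGroup V] [Module ℂ V]

theorem mem_lineStab_rho (ρ : Representation ℂ G V) (x g : G) (v : V) :
    g ∈ lineStab ρ (ρ x v) ↔ x⁻¹ * g * x ∈ lineStab ρ v := by
  rw [mem_lineStab, mem_lineStab]
  refine exists_congr fun c => and_congr_right fun _ => ?_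
  rw [← rho_mul, ← map_smul]
  constructor
  · intro h
    rw [mul_assoc, rho_mul, h, ← rho_mul, inv_mul_cancel, map_one, Module.End.one_apply]
  · intro h
    rw [← h, ← rho_mul]
    congr 2
    group

theorem lineStab_rho (ρ : Representation ℂ G V) (x : G) (v : V) :
    lineStab ρ (ρ x v) = (lineStab ρ v).comap (MulAut.conj x⁻¹).toMonoidHom := by
  ext g
  rw [mem_lineStab_rho, Subgroup.mem_comap]
  simp

theorem index_lineStab_rho (ρ : Representation ℂ G V) (x : G) (v : V) :
    (lineStab ρ (ρ x v)).index = (lineStab ρ v).index := by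
  rw [lineStab_rho]
  exact Subgroup.index_comap_of_surjective _ (MulAut.conj x⁻¹).surjective

end

section

variable {G : Type u} [Group G] {S B N : Subgroup G}
  {V : Type u} [AddCommGroup V] [Module ℂ V] (σ : Representation ℂ B V)
  (h : Setup S B N) (hC : ∀ b : B, (∀ s ∈ S, Commute s (b : G)) → σ b = 1)
  (hS0 : ∀ v : V, (∀ s (hs : s ∈ S), σ ⟨s, h.SB hs⟩ v = v) → v = 0)

/-- values on representatives of the right cosets -/
noncomputable def valL : coindV B.subtype σ →ₗ[ℂ] (G ⧸ B → V) where
  toFun f := fun x => f.1 (Quotient.out x)⁻¹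
  map_add' _ _ := rfl
  map_smul' _ _ := rfl

theorem valL_injective : Function.Injective (valL σ) := by
  rw [← LinearMap.ker_eq_bot, LinearMap.ker_eq_bot']
  intro f hf
  apply Subtype.ext
  funext y
  have h1 := congrFun hf (QuotientGroup.mk y⁻¹)
  change f.1 (Quotient.out (QuotientGroup.mk y⁻¹ : G ⧸ B))⁻¹ = 0 at h1
  set r := Quotient.out (QuotientGroup.mk y⁻¹ : G ⧸ B) with hr
  have hb : y * r ∈ B := by
    have h2 : (QuotientGroup.mk y⁻¹ : G ⧸ B) = QuotientGroup.mk r := by
      rw [hr]
      simp
    rw [QuotientGroup.eq] at h2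
    simpa using h2
  have h3 : y = (y * r) * r⁻¹ := by group
  rw [h3, CR_equiv σ f hb, h1, map_zero]
  rfl

instance [Finite G] [FiniteDimensional ℂ V] : FiniteDimensional ℂ (coindV B.subtype σ) := by
  let _ := Fintype.ofFinite (G ⧸ B)
  exact FiniteDimensional.of_injective (valL σ) (valL_injective σ)

theorem finrank_coind_le [Finite G] [FiniteDimensional ℂ V] :
    finrank ℂ (coindV B.subtype σ) ≤ B.index * finrank ℂ V := by
  classical
  let _ := Fintype.ofFinite (G ⧸ B)
  have h1 := LinearMap.finrank_le_finrank_of_injective (valL_injective σ)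
  rw [Module.finrank_pi_fintype] at h1
  simp only [Finset.sum_const, Finset.card_univ, smul_eq_mul] at h1
  rwa [Subgroup.index, ← Fintype.card_eq_nat_card]

include h hC hS0 in
theorem monoRep_descend [Finite G] [FiniteDimensional ℂ V] (hσ : σ.IsIrreducible)
    (hm : MonoRep (CR σ)) : MonoRep σ := by
  classical
  obtain ⟨f₀, hf₀, hfin₀⟩ := hm
  have hirr := CR_irreducible σ h hC hS0 hσ
  -- some conjugate of `S` moves the line
  obtain ⟨x, hx⟩ : ∃ x : G, ¬ ∀ s ∈ S, x⁻¹ * s * x ∈ lineStab (CR σ) f₀ := by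
    by_contra! hcon
    apply hf₀
    apply Subtype.ext
    funext x
    exact apply_eq_zero σ h hS0 f₀ x (hcon x)
  obtain ⟨f, hf⟩ : ∃ f, f = CR σ x f₀ := ⟨_, rfl⟩
  have hf0 : f ≠ 0 := by
    rw [hf]
    intro h0
    exact hf₀ (rho_injective (CR σ) x (by rw [map_zero]; exact h0))
  have hfin : finrank ℂ (coindV B.subtype σ) = (lineStab (CR σ) f).index := by
    rw [hf, index_lineStab_rho, hfin₀]
  have hSf : ¬ ∀ s ∈ S, (1 : G)⁻¹ * s * 1 ∈ lineStab (CR σ) f := by
    intro hcon
    apply hx
    intro s hs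
    have h1 := hcon s hs
    rw [inv_one, one_mul, mul_one, hf, mem_lineStab_rho] at h1
    exact h1
  clear hf hx hfin₀ hf₀
  obtain ⟨φ, h1, h0⟩ := exists_coord hirr hf0 hfin
  have hvanish : ∀ y : G, y ∉ B → f.1 y = 0 := by
    intro y hy
    apply apply_eq_zero σ h hS0
    by_contra hcon
    exact not_both σ h hC hS0 f hf0 φ h1 h0 1 y (by simpa using hy) hSf hcon
  set v := f.1 1 with hv
  have hfd : f = delta σ v := by
    apply Subtype.ext
    funext y
    by_cases hy : y ∈ B
    · rw [delta_mem σ v hy, hv, ← CR_equiv σ f hy, mul_one]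
    · rw [delta_not σ v hy, hvanish y hy]
  have hv0 : v ≠ 0 := by
    intro h2
    apply hf0
    rw [hfd, h2]
    exact map_zero (deltaL σ)
  have hLB : lineStab (CR σ) f ≤ B := by
    rintro g ⟨c, hc, hgc⟩
    by_contra hg
    have h2 := congrFun (congrArg Subtype.val hgc) 1
    rw [CR_apply, one_mul, hvanish g hg] at h2
    have h3 : c • v = 0 := h2.symm
    rcases smul_eq_zero.1 h3 with h4 | h4
    · exact hc h4
    · exact hv0 h4
  have hLs : lineStab σ v = (lineStab (CR σ) f).subgroupOf B := by
    ext b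
    rw [Subgroup.mem_subgroupOf, mem_lineStab, mem_lineStab]
    refine exists_congr fun c => and_congr_right fun _ => ?_
    rw [hfd, CR_delta, ← delta_smul]
    constructor
    · intro h2
      rw [h2]
    · intro h2
      rw [← delta_one σ (σ b v), h2, delta_one]
  refine ⟨v, hv0, le_antisymm (finrank_le_index hσ hv0 le_rfl) ?_⟩
  have h2 := finrank_coind_le (B := B) σ
  have h3 := Subgroup.relIndex_mul_index hLB
  rw [hfin, ← h3, mul_comm] at h2
  rw [hLs]
  exact Nat.le_of_mul_le_mul_left h2 (Nat.pos_of_ne_zero Subgroup.index_ne_zero_of_finite)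

end

end Pool.Agent.Helper89.PChar
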