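import Pool.Agent.Helper89.PCharCoind

/-!
# A transitive system of lines in a coinduced representation: no line is moved by two different
# conjugates of `S`
-/

set_option autoImplicit false

universe u

namespace Pool.Agent.Helper89.PChar

open Representation Module
open scoped commutatorElement

section lines

variable {G : Type u} [Group G] {V : Type u} [AddCommGroup V] [Module ℂ V]

/-- averaging the coordinate of `f` over a finite group mapping to `G` -/
theorem avg_coord {T : Type*} [Group T] [Fintype T] (τ : T →* G) (ρ : Representation ℂ G V)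
    (f : V) (φ : V →ₗ[ℂ] ℂ) (hf : f ≠ 0) (h1 : φ f = 1) (h0 : ∀ g : G, g ∉ lineStab ρ f → φ (ρ g f) = 0) :
    (Nat.card T : ℂ)⁻¹ * ∑ t : T, φ (ρ (τ t) f) = 0 ∨
    (Nat.card T : ℂ)⁻¹ * ∑ t : T, φ (ρ (τ t) f) = (((lineStab ρ f).comap τ).index : ℂ)⁻¹ := by
  classical
  obtain ⟨L, hL⟩ : ∃ L, L = lineStab ρ f := ⟨_, rfl⟩
  obtain ⟨lam, hlam⟩ : ∃ lam : L →* ℂˣ, ∀ d : L, ρ d f = (lam d : ℂ) • f := by
    subst hL
    exact lineStab_char hf
  rw [← hL] at h0 ⊢
  set K := L.comap τ with hK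
  let _ := Fintype.ofFinite K
  set lamK : K →* ℂ := (Units.coeHom ℂ).comp (lam.comp (τ.subgroupComap L)) with hlamK
  have hval : ∀ k : K, φ (ρ (τ k) f) = lamK k := by
    intro k
    have := hlam (τ.subgroupComap L k)
    have h2 : ρ (τ k) f = (lam (τ.subgroupComap L k) : ℂ) • f := this
    rw [h2, map_smul, h1, smul_eq_mul, mul_one]
    rfl
  have hsum : ∑ t : T, φ (ρ (τ t) f) = ∑ k : K, lamK k := by
    rw [← Finset.sum_congr rfl fun k _ => hval k]
    rw [← Finset.sum_subtype (Finset.univ.filter fun t => t ∈ K) (by simp)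
      (fun t => φ (ρ (τ t) f))]
    refine (Finset.sum_subset (Finset.filter_subset _ _) ?_).symm
    intro t _ ht
    have : t ∉ K := by simpa using ht
    exact h0 _ this
  rw [hsum, sum_hom_units]
  split_ifs with hone
  · right
    have h3 := K.card_mul_index
    have h4 : (Nat.card K : ℂ) ≠ 0 := by exact_mod_cast Nat.card_pos.ne'
    have h5 : (Nat.card T : ℂ) ≠ 0 := by exact_mod_cast Nat.card_pos.ne'
    have h6 : (K.index : ℂ) ≠ 0 := by exact_mod_cast Subgroup.index_ne_zero_of_finite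
    rw [Fintype.card_eq_nat_card, ← h3]
    push_cast
    field_simp
  · left
    simp

theorem avg_coord_re {T : Type*} [Group T] [Fintype T] (τ : T →* G) (ρ : Representation ℂ G V)
    (f : V) (φ : V →ₗ[ℂ] ℂ) (hf : f ≠ 0) (h1 : φ f = 1) (h0 : ∀ g : G, g ∉ lineStab ρ f → φ (ρ g f) = 0)
    (n : ℕ) (hn : 0 < n) (hidx : n ≤ ((lineStab ρ f).comap τ).index) :
    0 ≤ ((Nat.card T : ℂ)⁻¹ * ∑ t : T, φ (ρ (τ t) f)).re ∧
    ((Nat.card T : ℂ)⁻¹ * ∑ t : T, φ (ρ (τ t) f)).re ≤ (n : ℝ)⁻¹ := by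
  have hnR : (0 : ℝ) < n := by exact_mod_cast hn
  rcases avg_coord τ ρ f φ hf h1 h0 with h | h
  · rw [h]
    simp
  · rw [h]
    have h2 : ((((lineStab ρ f).comap τ).index : ℂ)⁻¹) =
        ((((lineStab ρ f).comap τ).index : ℝ)⁻¹ : ℝ) := by push_cast; rfl
    rw [h2, Complex.ofReal_re]
    have h3 : (n : ℝ) ≤ ((lineStab ρ f).comap τ).index := by exact_mod_cast hidx
    constructor
    · positivity
    · exact inv_anti₀ hnR h3

end lines

section coind

variable {G : Type u} [Group G] {S B N : Subgroup G}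
  {V : Type u} [AddCommGroup V] [Module ℂ V] (σ : Representation ℂ B V)
  (h : Setup S B N) (hC : ∀ b : B, (∀ s ∈ S, Commute s (b : G)) → σ b = 1)
  (hS0 : ∀ v : V, (∀ s (hs : s ∈ S), σ ⟨s, h.SB hs⟩ v = v) → v = 0)

/-- conjugation homomorphism of `S` -/
def conjHom (S : Subgroup G) (x : G) : S →* G := (MulAut.conj x⁻¹).toMonoidHom.comp S.subtype

theorem conjHom_apply (x : G) (s : S) : conjHom S x s = x⁻¹ * s * x := by
  simp [conjHom]

include h hS0 in
/-- if `f` is in a line stabilised by `x⁻¹ S x`, then `f x = 0` -/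
theorem apply_eq_zero (f : coindV B.subtype σ) (x : G)
    (hx : ∀ s ∈ S, x⁻¹ * s * x ∈ lineStab (CR σ) f) : f.1 x = 0 := by
  apply hS0
  intro s hs
  -- the conjugate of `S` is perfect
  have h1 : ⁅S.map (MulAut.conj x⁻¹).toMonoidHom, S.map (MulAut.conj x⁻¹).toMonoidHom⁆
      = S.map (MulAut.conj x⁻¹).toMonoidHom := by
    rw [← Subgroup.map_commutator, h.perf]
  have h2 : S.map (MulAut.conj x⁻¹).toMonoidHom ≤ lineStab (CR σ) f := by
    rintro _ ⟨t, ht, rfl⟩
    have := hx t ht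
    simpa [MulAut.conj_apply] using this
  have h3 := perfect_le_fixer h1 h2
  have h4 : x⁻¹ * s * x ∈ fixer (CR σ) f := by
    apply h3
    refine ⟨s, hs, ?_⟩
    simp
  have h5 : CR σ (x⁻¹ * s * x) f = f := h4
  have h6 := congrFun (congrArg Subtype.val h5) x
  rw [CR_apply] at h6
  have h7 : x * (x⁻¹ * s * x) = s * x := by group
  rw [h7, CR_equiv σ f (h.SB hs)] at h6
  exact h6

include h hC hS0 in
/-- no line is moved by two different conjugates of `S` -/
theorem not_both [Finite G] (f : coindV B.subtype σ) (hf : f ≠ 0)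
    (φ : coindV B.subtype σ →ₗ[ℂ] ℂ) (h1 : φ f = 1)
    (h0 : ∀ g : G, g ∉ lineStab (CR σ) f → φ (CR σ g f) = 0) (x y : G) (hxy : y * x⁻¹ ∉ B)
    (hx : ¬ ∀ s ∈ S, x⁻¹ * s * x ∈ lineStab (CR σ) f)
    (hy : ¬ ∀ s ∈ S, y⁻¹ * s * y ∈ lineStab (CR σ) f) : False := by
  classical
  let _ := Fintype.ofFinite S
  -- commuting conjugates
  have hcomm : ∀ s t : S, Commute (conjHom S x s) (conjHom S y t) := by
    intro s t
    rw [conjHom_apply, conjHom_apply]
    have hyx : x * y⁻¹ ∉ B := by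
      have := Setup.inv_not hxy
      simpa using this
    have h2 := h.comm (x * y⁻¹) hyx s s.2 t t.2
    have h3 := (Commute.conj_iff x⁻¹).2 h2
    have h4 : x⁻¹ * (x * y⁻¹ * (t : G) * (x * y⁻¹)⁻¹) * x⁻¹⁻¹ = y⁻¹ * t * y := by group
    have h5 : x⁻¹ * (s : G) * x⁻¹⁻¹ = x⁻¹ * s * x := by group
    rw [h4, h5] at h3
    exact h3
  let τ : S × S →* G := MonoidHom.noncommCoprod (conjHom S x) (conjHom S y) hcomm
  have hτ : ∀ p : S × S, τ p = (x⁻¹ * p.1 * x) * (y⁻¹ * p.2 * y) := by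
    intro p
    rw [← conjHom_apply, ← conjHom_apply]
    rfl
  -- the double cut vanishes
  have hcut : cut σ x (cut σ y f) = 0 := by
    apply Subtype.ext
    funext z
    change (cut σ x (cut σ y f)).1 z = 0
    by_cases hz : z * x⁻¹ ∈ B
    · rw [cut_mem σ _ hz, cut_not]
      intro hz'
      apply hxy
      have := B.mul_mem (B.inv_mem hz') hz
      have e : (z * y⁻¹)⁻¹ * (z * x⁻¹) = y * x⁻¹ := by group
      rwa [e] at this
    · rw [cut_not σ _ hz]
  rw [← sub_avg σ h hC hS0, ← sub_avg σ h hC hS0] at hcut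
  -- apply the coordinate functional
  set c : ℂ := (Nat.card S : ℂ)⁻¹ with hc
  have hax : φ (avg σ S x f) = c * ∑ s : S, φ (CR σ (conjHom S x s) f) := by
    unfold avg
    rw [map_smul, map_sum, smul_eq_mul]
    simp_rw [conjHom_apply]
    rfl
  have hay : φ (avg σ S y f) = c * ∑ s : S, φ (CR σ (conjHom S y s) f) := by
    unfold avg
    rw [map_smul, map_sum, smul_eq_mul]
    simp_rw [conjHom_apply]
    rfl
  have haxy : φ (avg σ S x (avg σ S y f))
      = (Nat.card (S × S) : ℂ)⁻¹ * ∑ p : S × S, φ (CR σ (τ p) f) := by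
    have e1 : avg σ S x (avg σ S y f)
        = c • ∑ s : S, c • ∑ t : S, CR σ (x⁻¹ * s * x) (CR σ (y⁻¹ * t * y) f) := by
      unfold avg
      simp_rw [map_smul, map_sum]
      rfl
    rw [e1, map_smul, map_sum, Fintype.sum_prod_type, Nat.card_prod, Nat.cast_mul, mul_inv,
      smul_eq_mul, mul_assoc]
    congr 1
    rw [Finset.mul_sum]
    refine Finset.sum_congr rfl fun s _ => ?_
    rw [map_smul, map_sum, smul_eq_mul]
    congr 1
    refine Finset.sum_congr rfl fun t _ => ?_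
    rw [hτ, rho_mul (CR σ) (x⁻¹ * s * x)]
  have hsub : avg σ S x (f - avg σ S y f) = avg σ S x f - avg σ S x (avg σ S y f) := by
    unfold avg
    simp_rw [map_sub]
    rw [Finset.sum_sub_distrib, smul_sub]
  have hmain : (1 : ℂ) = c * ∑ s : S, φ (CR σ (conjHom S x s) f)
      + c * ∑ s : S, φ (CR σ (conjHom S y s) f)
      - (Nat.card (S × S) : ℂ)⁻¹ * ∑ p : S × S, φ (CR σ (τ p) f) := by
    have h2 := congrArg φ hcut
    rw [hsub, map_sub, map_sub, map_sub, map_zero, h1, hax, hay, haxy] at h2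
    linear_combination h2
  have hidx : ∀ z : G, (¬ ∀ s ∈ S, z⁻¹ * s * z ∈ lineStab (CR σ) f) →
      3 ≤ ((lineStab (CR σ) f).comap (conjHom S z)).index := by
    intro z hz
    apply h.three
    intro htop
    apply hz
    intro s hs
    have h2 : (⟨s, hs⟩ : S) ∈ (lineStab (CR σ) f).comap (conjHom S z) := by rw [htop]; trivial
    rw [Subgroup.mem_comap, conjHom_apply] at h2
    exact h2
  have hx3 := (avg_coord_re (conjHom S x) (CR σ) f φ hf h1 h0 3 (by norm_num) (hidx x hx)).2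
  have hy3 := (avg_coord_re (conjHom S y) (CR σ) f φ hf h1 h0 3 (by norm_num) (hidx y hy)).2
  have hp : 0 ≤ ((Nat.card (S × S) : ℂ)⁻¹ * ∑ p : S × S, φ (CR σ (τ p) f)).re :=
    (avg_coord_re τ (CR σ) f φ hf h1 h0 1 (by norm_num)
      (Nat.pos_of_ne_zero Subgroup.index_ne_zero_of_finite)).1
  have hre := congrArg Complex.re hmain
  rw [Complex.sub_re, Complex.add_re, Complex.one_re] at hre
  have e3 : ((3 : ℕ) : ℝ)⁻¹ = 1 / 3 := by norm_num
  rw [e3] at hx3 hy3
  linarith

end coind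

end Pool.Agent.Helper89.PChar
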