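import Pool.Agent.Helper89.PCharDescend

/-!
# The maximal subgroup of `G` attached to a maximal subgroup of the normaliser of `S`
-/

set_option autoImplicit false

universe u

namespace Pool.Agent.Helper89.PChar

open Representation Module

/-- a maximal subgroup `H` of `B` containing the centraliser of `S`, but not `S`, and meeting `S`
nontrivially -/
structure MaxSetup {G : Type u} [Group G] (S B H : Subgroup G) : Prop where
  HB : H ≤ B
  cent : ∀ g : G, (∀ s ∈ S, Commute s g) → g ∈ H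
  notS : ¬ S ≤ H
  prod : ∀ b ∈ B, ∃ s ∈ S, ∃ k ∈ H, b = s * k
  max : ∀ K : Subgroup G, H ≤ K → K ≤ B → K = H ∨ K = B
  meet : ∃ s ∈ S, s ∈ H ∧ s ≠ 1

/-- a section: a `B`-equivariant function from `G` to `B` -/
structure IsSec {G : Type u} [Group G] (B : Subgroup G) (c : G → G) : Prop where
  mem : ∀ x, c x ∈ B
  equiv : ∀ b ∈ B, ∀ x, c (b * x) = b * c x

theorem IsSec.shift {G : Type u} [Group G] {B : Subgroup G} {c : G → G} (hc : IsSec B c) (g : G) :
    IsSec B fun x => c (x * g) where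
  mem _ := hc.mem _
  equiv b hb x := by
    rw [mul_assoc, hc.equiv b hb]

theorem exists_sec {G : Type u} [Group G] (B : Subgroup G) : ∃ c : G → G, IsSec B c ∧ c 1 = 1 := by
  classical
  let t : G → G := fun g => (Quotient.out (QuotientGroup.mk g⁻¹ : G ⧸ B))⁻¹
  have ht : ∀ b ∈ B, ∀ g, t (b * g) = t g := by
    intro b hb g
    have : (QuotientGroup.mk (b * g)⁻¹ : G ⧸ B) = QuotientGroup.mk g⁻¹ := by
      rw [QuotientGroup.eq]
      have : (b * g)⁻¹⁻¹ * g⁻¹ = b := by group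
      rw [this]
      exact hb
    simp only [t, this]
  have hgt : ∀ g, g * (t g)⁻¹ ∈ B := by
    intro g
    have h2 : (QuotientGroup.mk g⁻¹ : G ⧸ B)
        = QuotientGroup.mk (Quotient.out (QuotientGroup.mk g⁻¹ : G ⧸ B)) := by simp
    rw [QuotientGroup.eq] at h2
    simpa [t] using h2
  have ht1 : t 1 ∈ B := by
    have := B.inv_mem (hgt 1)
    simpa using this
  refine ⟨fun g => g * (t g)⁻¹ * t 1, ⟨fun x => B.mul_mem (hgt x) ht1, ?_⟩, by simp⟩
  intro b hb x
  rw [ht b hb x]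
  group

section

variable {G : Type u} [Group G] {S B N H : Subgroup G} (h : Setup S B N) (k : MaxSetup S B H)

include h k in
/-- two sections agreeing (modulo `H`) at `1` differ by an element of `C_G(S) ∩ N` -/
theorem transit_aux [Finite G] (c c' : G → G) (hc : IsSec B c) (hc' : IsSec B c')
    (h1 : (c 1)⁻¹ * c' 1 ∈ H) (J : Finset G) :
    ∃ n ∈ N, (∀ s ∈ S, Commute s n) ∧ (c n)⁻¹ * c' 1 ∈ H ∧
      ∀ x ∈ J, (c (x * n))⁻¹ * c' x ∈ H := by
  classical
  induction J using Finset.induction_on with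
  | empty =>
    exact ⟨1, N.one_mem, fun s _ => Commute.one_right s, h1, by simp⟩
  | insert x J _ ih =>
    obtain ⟨n, hnN, hnC, hn1, hnJ⟩ := ih
    by_cases hx : (c (x * n))⁻¹ * c' x ∈ H
    · refine ⟨n, hnN, hnC, hn1, ?_⟩
      intro y hy
      rw [Finset.mem_insert] at hy
      rcases hy with rfl | hy
      · exact hx
      · exact hnJ y hy
    · -- correct at `x`
      have hagree : ∀ y : G, (c (y * n))⁻¹ * c' y ∈ H → y * x⁻¹ ∉ B := by
        intro y hy hyx
        apply hx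
        have e1 : y * n = (y * x⁻¹) * (x * n) := by group
        have e2 : c' y = c' ((y * x⁻¹) * x) := by
          congr 1
          group
        rw [e1, e2, hc.equiv _ hyx, hc'.equiv _ hyx] at hy
        have e3 : (y * x⁻¹ * c (x * n))⁻¹ * (y * x⁻¹ * c' x) = (c (x * n))⁻¹ * c' x := by group
        rwa [e3] at hy
      obtain ⟨s₁, hs₁, h₁, hh₁, hsh⟩ := k.prod ((c (x * n))⁻¹ * c' x)
        (B.mul_mem (B.inv_mem (hc.mem _)) (hc'.mem _))
      set s := c (x * n) * s₁ * (c (x * n))⁻¹ with hs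
      have hsS : s ∈ S := h.conj _ (hc.mem _) _ hs₁
      have hx1 : (1 : G) * x⁻¹ ∉ B := hagree 1 (by rwa [one_mul])
      have hkeep : ∀ y : G, (c (y * n))⁻¹ * c' y ∈ H →
          (c (y * (x⁻¹ * s * x * n)))⁻¹ * c' y ∈ H := by
        intro y hy
        have hyx := hagree y hy
        have hz : (y * x⁻¹) * s * (y * x⁻¹)⁻¹ ∈ B := h.conj_mem_B hyx hsS
        have hzc : ∀ t ∈ S, Commute t ((y * x⁻¹) * s * (y * x⁻¹)⁻¹) :=
          fun t ht => h.comm _ hyx t ht s hsS
        have e1 : y * (x⁻¹ * s * x * n) = ((y * x⁻¹) * s * (y * x⁻¹)⁻¹) * (y * n) := by group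
        rw [e1, hc.equiv _ hz]
        set z := (y * x⁻¹) * s * (y * x⁻¹)⁻¹ with hzdef
        have e2 : (z * c (y * n))⁻¹ * c' y
            = ((c (y * n))⁻¹ * z⁻¹ * c (y * n)) * ((c (y * n))⁻¹ * c' y) := by group
        rw [e2]
        refine H.mul_mem (k.cent _ fun t ht => ?_) hy
        -- `c (y n) ∈ B` normalises the centraliser of `S`
        set b := c (y * n) with hb
        have hbB : b ∈ B := hc.mem _
        have h2 : Commute (b * t * b⁻¹) z⁻¹ := (hzc _ (h.conj b hbB t ht)).inv_right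
        have h3 := (Commute.conj_iff b⁻¹).2 h2
        have e3 : b⁻¹ * (b * t * b⁻¹) * b⁻¹⁻¹ = t := by group
        have e4 : b⁻¹ * z⁻¹ * b⁻¹⁻¹ = b⁻¹ * z⁻¹ * b := by group
        rwa [e3, e4] at h3
      refine ⟨x⁻¹ * s * x * n, ?_, ?_, ?_, ?_⟩
      · refine N.mul_mem ?_ hnN
        have := h.normal.conj_mem s (h.SN hsS) x⁻¹
        simpa using this
      · intro t ht
        refine Commute.mul_right ?_ (hnC t ht)
        have := h.comm (1 * x⁻¹) hx1 t ht s hsS
        simpa using this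
      · have := hkeep 1 (by rwa [one_mul])
        rwa [one_mul] at this
      · intro y hy
        rw [Finset.mem_insert] at hy
        rcases hy with rfl | hy
        · have e1 : y * (y⁻¹ * s * y * n) = s * (y * n) := by group
          rw [e1, hc.equiv _ (h.SB hsS)]
          have e2 : (s * c (y * n))⁻¹ * c' y = s₁⁻¹ * ((c (y * n))⁻¹ * c' y) := by
            rw [hs]
            group
          rw [e2, hsh]
          simpa using hh₁
        · exact hkeep y (hnJ y hy)

include h k in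
theorem transit [Finite G] (c c' : G → G) (hc : IsSec B c) (hc' : IsSec B c')
    (h1 : (c 1)⁻¹ * c' 1 ∈ H) :
    ∃ n ∈ N, (∀ s ∈ S, Commute s n) ∧ ∀ x, (c (x * n))⁻¹ * c' x ∈ H := by
  classical
  let _ := Fintype.ofFinite G
  obtain ⟨n, hn, hnC, _, hJ⟩ := transit_aux h k c c' hc hc' h1 Finset.univ
  exact ⟨n, hn, hnC, fun x => hJ x (Finset.mem_univ x)⟩

include h k in
theorem transit' [Finite G] (c c' : G → G) (hc : IsSec B c) (hc' : IsSec B c') :
    ∃ n ∈ N, ∀ x, (c (x * n))⁻¹ * c' x ∈ H := by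
  obtain ⟨s₁, hs₁, h₁, hh₁, hsh⟩ := k.prod ((c 1)⁻¹ * c' 1)
    (B.mul_mem (B.inv_mem (hc.mem _)) (hc'.mem _))
  set s := c 1 * s₁ * (c 1)⁻¹ with hs
  have hsS : s ∈ S := h.conj _ (hc.mem _) _ hs₁
  have h1 : (c (1 * s))⁻¹ * c' 1 ∈ H := by
    have e1 : (1 : G) * s = s * 1 := by group
    rw [e1, hc.equiv _ (h.SB hsS)]
    have e2 : (s * c 1)⁻¹ * c' 1 = s₁⁻¹ * ((c 1)⁻¹ * c' 1) := by
      rw [hs]
      group
    rw [e2, hsh]
    simpa using hh₁
  obtain ⟨n, hn, _, hx⟩ := transit h k (fun x => c (x * s)) c' (hc.shift s) hc' h1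
  refine ⟨n * s, N.mul_mem hn (h.SN hsS), fun x => ?_⟩
  have := hx x
  rwa [mul_assoc] at this

/-- the stabiliser of a section modulo `H` -/
def secStab (H : Subgroup G) (c : G → G) : Subgroup G where
  carrier := {g | ∀ x, (c x)⁻¹ * c (x * g) ∈ H}
  one_mem' := fun x => by
    rw [mul_one, inv_mul_cancel]
    exact H.one_mem
  mul_mem' := by
    intro a b ha hb x
    have h1 := H.mul_mem (ha x) (hb (x * a))
    have e : (c x)⁻¹ * c (x * a) * ((c (x * a))⁻¹ * c (x * a * b))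
        = (c x)⁻¹ * c (x * (a * b)) := by
      rw [← mul_assoc x a b]
      group
    rwa [e] at h1
  inv_mem' := by
    intro a ha x
    have h1 := H.inv_mem (ha (x * a⁻¹))
    have e : ((c (x * a⁻¹))⁻¹ * c (x * a⁻¹ * a))⁻¹ = (c x)⁻¹ * c (x * a⁻¹) := by
      have : x * a⁻¹ * a = x := by group
      rw [this]
      group
    rwa [e] at h1

theorem mem_secStab {c : G → G} {g : G} : g ∈ secStab H c ↔ ∀ x, (c x)⁻¹ * c (x * g) ∈ H :=
  Iff.rfl

include h k in
theorem isCoatom_secStab [Finite G] (c : G → G) (hc : IsSec B c) (hc1 : c 1 = 1) :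
    IsCoatom (secStab H c) := by
  set W := secStab H c with hW
  have hcB : ∀ b ∈ B, c b = b := by
    intro b hb
    have := hc.equiv b hb 1
    rwa [mul_one, hc1, mul_one] at this
  -- `W ∩ B ≤ H`
  have hWB : ∀ w ∈ W, w ∈ B → w ∈ H := by
    intro w hw hwB
    have := hw 1
    rwa [hc1, one_mul, hcB w hwB, inv_one, one_mul] at this
  -- `N W = G`
  have hNW : ∀ g : G, ∃ n ∈ N, ∃ w ∈ W, g = n * w := by
    intro g
    obtain ⟨n, hn, hx⟩ := transit' h k (fun x => c (x * g)) c (hc.shift g) hc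
    refine ⟨n⁻¹, N.inv_mem hn, n * g, ?_, by group⟩
    intro x
    have h1 := H.inv_mem (hx x)
    have e : ((c (x * n * g))⁻¹ * c x)⁻¹ = (c x)⁻¹ * c (x * (n * g)) := by
      rw [mul_assoc x n g]
      group
    rwa [e] at h1
  -- elements of `H` lift to `W` modulo the centraliser of `S`
  have hlift : ∀ a ∈ H, ∃ n : G, (∀ s ∈ S, Commute s n) ∧ n * a ∈ W := by
    intro a ha
    have h1 : (c (1 * a))⁻¹ * c 1 ∈ H := by
      rw [one_mul, hcB a (k.HB ha), hc1, mul_one]
      exact H.inv_mem ha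
    obtain ⟨n, _, hnC, hx⟩ := transit h k (fun x => c (x * a)) c (hc.shift a) hc h1
    refine ⟨n, hnC, ?_⟩
    intro x
    have h1 := H.inv_mem (hx x)
    have e : ((c (x * n * a))⁻¹ * c x)⁻¹ = (c x)⁻¹ * c (x * (n * a)) := by
      rw [mul_assoc x n a]
      group
    rwa [e] at h1
  -- `S ∩ H ≤ W`
  have hSW : ∀ s ∈ S, s ∈ H → s ∈ W := by
    intro s hs hsH x
    by_cases hx : x ∈ B
    · rw [hcB x hx, hcB (x * s) (B.mul_mem hx (h.SB hs))]
      simpa using hsH
    · have hz := h.conj_mem_B hx hs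
      have e1 : x * s = (x * s * x⁻¹) * x := by group
      rw [e1, hc.equiv _ hz]
      apply k.cent
      intro t ht
      set b := c x with hb
      have hbB : b ∈ B := hc.mem _
      have h2 : Commute (b * t * b⁻¹) (x * s * x⁻¹) :=
        h.comm x hx _ (h.conj b hbB t ht) s hs
      have h3 := (Commute.conj_iff b⁻¹).2 h2
      have e3 : b⁻¹ * (b * t * b⁻¹) * b⁻¹⁻¹ = t := by group
      have e4 : b⁻¹ * (x * s * x⁻¹) * b⁻¹⁻¹ = b⁻¹ * (x * s * x⁻¹ * b) := by group
      rwa [e3, e4] at h3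
  refine ⟨?_, ?_⟩
  · intro htop
    apply k.notS
    intro s hs
    exact hWB s (by rw [htop]; trivial) (h.SB hs)
  · intro K hK
    have hWK : W ≤ K := hK.le
    by_cases hKB : ∀ g ∈ K, g ∈ B → g ∈ H
    · exfalso
      apply hK.not_ge
      intro g hg x
      obtain ⟨n, hn, w₁, hw₁, hx⟩ := hNW x
      obtain ⟨n', hn', w₂, hw₂, hxg⟩ := hNW (x * g)
      have e : w₁ * g * w₂⁻¹ = n⁻¹ * n' := by
        have e1 : x * g = n * w₁ * g := by rw [← hx]
        rw [hxg] at e1
        calc w₁ * g * w₂⁻¹ = n⁻¹ * (n * w₁ * g) * w₂⁻¹ := by group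
          _ = n⁻¹ * (n' * w₂) * w₂⁻¹ := by rw [← e1]
          _ = n⁻¹ * n' := by group
      have h2 : n⁻¹ * n' ∈ H := by
        apply hKB
        · rw [← e]
          exact K.mul_mem (K.mul_mem (hWK hw₁) hg) (K.inv_mem (hWK hw₂))
        · exact B.mul_mem (B.inv_mem (h.NB hn)) (h.NB hn')
      have h3 := hw₁ 1
      have h4 := hw₂ 1
      rw [hc1, one_mul, inv_one, one_mul] at h3 h4
      rw [hxg, hx, hc.equiv _ (h.NB hn'), hc.equiv _ (h.NB hn)]
      have e5 : (n * c w₁)⁻¹ * (n' * c w₂) = (c w₁)⁻¹ * (n⁻¹ * n') * c w₂ := by group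
      rw [e5]
      exact H.mul_mem (H.mul_mem (H.inv_mem h3) h2) h4
    · push Not at hKB
      obtain ⟨g₀, hg₀K, hg₀B, hg₀H⟩ := hKB
      -- `M = {b ∈ B | ∃ n ∈ C_G(S), n b ∈ K}` is `B`
      let C : Subgroup G := Subgroup.centralizer (S : Set G)
      have hCmem : ∀ g, g ∈ C ↔ ∀ s ∈ S, Commute s g := by
        intro g
        exact Subgroup.mem_centralizer_iff
      -- normality of `C` in `B`
      have hCB : ∀ b ∈ B, ∀ n ∈ C, b * n * b⁻¹ ∈ C := by
        intro b hb n hn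
        rw [hCmem] at hn ⊢
        intro s hs
        have h2 : Commute (b⁻¹ * s * b⁻¹⁻¹) n := hn _ (h.conj b⁻¹ (B.inv_mem hb) s hs)
        have h3 := (Commute.conj_iff b).2 h2
        have e3 : b * (b⁻¹ * s * b⁻¹⁻¹) * b⁻¹ = s := by group
        rwa [e3] at h3
      let M : Subgroup G :=
        { carrier := {b | b ∈ B ∧ ∃ n ∈ C, n * b ∈ K}
          one_mem' := ⟨B.one_mem, 1, C.one_mem, by simp⟩
          mul_mem' := by
            rintro a b ⟨haB, n, hn, hna⟩ ⟨hbB, m, hm, hmb⟩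
            refine ⟨B.mul_mem haB hbB, n * (a * m * a⁻¹), C.mul_mem hn (hCB a haB m hm), ?_⟩
            have := K.mul_mem hna hmb
            have e : n * a * (m * b) = n * (a * m * a⁻¹) * (a * b) := by group
            rwa [e] at this
          inv_mem' := by
            rintro a ⟨haB, n, hn, hna⟩
            refine ⟨B.inv_mem haB, a⁻¹ * n⁻¹ * a⁻¹⁻¹, hCB _ (B.inv_mem haB) _ (C.inv_mem hn), ?_⟩
            have := K.inv_mem hna
            have e : (n * a)⁻¹ = a⁻¹ * n⁻¹ * a⁻¹⁻¹ * a⁻¹ := by group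
            rwa [e] at this }
      have hHM : H ≤ M := by
        intro a ha
        obtain ⟨n, hn, hna⟩ := hlift a ha
        exact ⟨k.HB ha, n, (hCmem n).2 hn, hWK hna⟩
      have hMB : M = B := by
        rcases k.max M hHM (fun b hb => hb.1) with h2 | h2
        · exfalso
          apply hg₀H
          rw [← h2]
          exact ⟨hg₀B, 1, C.one_mem, by simpa using hg₀K⟩
        · exact h2
      -- `K ∩ S` is normal in `S`
      have hnorm : ∀ s ∈ S, ∀ t ∈ K ⊓ S, s * t * s⁻¹ ∈ K ⊓ S := by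
        rintro s hs t ⟨htK, htS⟩
        have hsM : s ∈ M := by
          rw [hMB]
          exact h.SB hs
        obtain ⟨_, n, hn, hns⟩ := hsM
        refine ⟨?_, S.mul_mem (S.mul_mem hs htS) (S.inv_mem hs)⟩
        have h3 := K.mul_mem (K.mul_mem hns htK) (K.inv_mem hns)
        have h4 : Commute (s * t * s⁻¹) n :=
          (hCmem n).1 hn _ (S.mul_mem (S.mul_mem hs htS) (S.inv_mem hs))
        have e : n * s * t * (n * s)⁻¹ = n * (s * t * s⁻¹) * n⁻¹ := by group
        rw [e, ← h4.eq, mul_assoc, mul_inv_cancel, mul_one] at h3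
        exact h3
      have hKS : K ⊓ S = S := by
        rcases h.simple (K ⊓ S) inf_le_right hnorm with h2 | h2
        · exfalso
          obtain ⟨s, hs, hsH, hs1⟩ := k.meet
          apply hs1
          have : s ∈ K ⊓ S := ⟨hWK (hSW s hs hsH), hs⟩
          rw [h2] at this
          simpa using this
        · exact h2
      have hSK : S ≤ K := inf_eq_right.1 hKS
      have hNK : N ≤ K := by
        apply h.closure
        intro g s hs
        obtain ⟨n, hn, w, hw, hg⟩ := hNW g⁻¹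
        -- `g = w⁻¹ n⁻¹`
        have hg' : g = w⁻¹ * n⁻¹ := by
          rw [← inv_inv g, hg]
          group
        rw [hg']
        have h5 : n⁻¹ * s * n⁻¹⁻¹ ∈ S := h.conj _ (B.inv_mem (h.NB hn)) s hs
        have h6 := K.mul_mem (K.mul_mem (K.inv_mem (hWK hw)) (hSK h5)) (hWK hw)
        have e : w⁻¹ * (n⁻¹ * s * n⁻¹⁻¹) * w = w⁻¹ * n⁻¹ * s * (w⁻¹ * n⁻¹)⁻¹ := by group
        rwa [e] at h6
      rw [eq_top_iff]
      intro g _
      obtain ⟨n, hn, w, hw, rfl⟩ := hNW g
      exact K.mul_mem (hNK hn) (hWK hw)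

include h k in
/-- the coinduced representation has a nonzero vector fixed by a maximal subgroup -/
theorem hasPVector_CR [Finite G] {V : Type u} [AddCommGroup V] [Module ℂ V]
    (σ : Representation ℂ B V) (v₀ : V) (hv₀ : v₀ ≠ 0)
    (hfix : ∀ a (ha : a ∈ H), σ ⟨a, k.HB ha⟩ v₀ = v₀) : HasPVector (CR σ) := by
  obtain ⟨c, hc, hc1⟩ := exists_sec B
  let f : coindV B.subtype σ := ⟨fun y => σ ⟨c y, hc.mem y⟩ v₀, by
    intro b y
    beta_reduce
    rw [← rho_mul]
    congr 2
    apply Subtype.ext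
    exact hc.equiv b b.2 y⟩
  refine ⟨secStab H c, isCoatom_secStab h k c hc hc1, f, ?_, ?_⟩
  · intro h0
    apply hv₀
    have h1 := congrFun (congrArg Subtype.val h0) 1
    change σ ⟨c 1, hc.mem 1⟩ v₀ = 0 at h1
    exact rho_injective σ ⟨c 1, hc.mem 1⟩ (by rw [map_zero]; exact h1)
  · intro w hw
    apply Subtype.ext
    funext y
    rw [CR_apply]
    change σ ⟨c (y * w), hc.mem _⟩ v₀ = σ ⟨c y, hc.mem y⟩ v₀
    have h1 := hfix _ (hw y)
    have h2 : (⟨c (y * w), hc.mem _⟩ : B)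
        = ⟨c y, hc.mem y⟩ * ⟨(c y)⁻¹ * c (y * w), k.HB (hw y)⟩ := by
      apply Subtype.ext
      change c (y * w) = c y * ((c y)⁻¹ * c (y * w))
      group
    rw [h2, rho_mul, h1]

end

end Pool.Agent.Helper89.PChar
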