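import Mathlib

/-!
# In an almost simple group with soluble outer part, maximal subgroups not containing the socle
# meet the socle nontrivially
-/

set_option autoImplicit false

universe u

namespace Pool.Agent.Helper89.PChar

open scoped Pointwise commutatorElement

section

variable {A : Type u} [Group A]

/-- A nontrivial finite soluble group has a nontrivial characteristic `p`-subgroup. -/
theorem exists_char_pgroup (K : Type u) [Group K] [Finite K] [Group.IsSolvable K] [Nontrivial K] :
    ∃ p : ℕ, p.Prime ∧ ∃ P : Subgroup K, P.Characteristic ∧ P ≠ ⊥ ∧ IsPGroup p P := by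
  classical
  obtain ⟨m, hm⟩ := Group.IsSolvable.solvable (G := K)
  -- last nontrivial derived subgroup
  have hex : ∃ n, derivedSeries K n = ⊥ := ⟨m, hm⟩
  set n := Nat.find hex with hn
  have hn0 : n ≠ 0 := by
    intro h0
    have := Nat.find_spec hex
    rw [← hn, h0, derivedSeries_zero] at this
    exact top_ne_bot this
  obtain ⟨k, hk⟩ := Nat.exists_eq_succ_of_ne_zero hn0
  set B := derivedSeries K k with hB
  have hB1 : B ≠ ⊥ := Nat.find_min hex (by omega)
  have hBc : ⁅B, B⁆ = ⊥ := by
    have := Nat.find_spec hex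
    rw [← hn, hk, Nat.succ_eq_add_one, derivedSeries_succ] at this
    exact this
  have hcomm : ∀ a ∈ B, ∀ b ∈ B, a * b = b * a := by
    intro a ha b hb
    have h1 : ⁅a, b⁆ ∈ ⁅B, B⁆ := Subgroup.commutator_mem_commutator ha hb
    rw [hBc, Subgroup.mem_bot] at h1
    exact commutatorElement_eq_one_iff_mul_comm.1 h1
  have hBchar : B.Characteristic := derivedSeries_characteristic K k
  have hcard : 1 < Nat.card B := by
    rw [Finite.one_lt_card_iff_nontrivial]
    exact (Subgroup.nontrivial_iff_ne_bot B).2 hB1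
  obtain ⟨p, hp, hpd⟩ := Nat.exists_prime_and_dvd hcard.ne'
  have hpf : Fact p.Prime := ⟨hp⟩
  refine ⟨p, hp, { carrier := {b | b ∈ B ∧ ∃ k : ℕ, b ^ p ^ k = 1}
                   one_mem' := ⟨B.one_mem, 0, by simp⟩
                   mul_mem' := ?_
                   inv_mem' := ?_ }, ?_, ?_, ?_⟩
  · rintro a b ⟨ha, k, hk⟩ ⟨hb, l, hl⟩
    refine ⟨B.mul_mem ha hb, k + l, ?_⟩
    have h1 : Commute a b := hcomm a ha b hb
    rw [h1.mul_pow, pow_add, pow_mul, hk, one_pow, mul_comm (p ^ k), pow_mul, hl, one_pow, one_mul]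
  · rintro a ⟨ha, k, hk⟩
    exact ⟨B.inv_mem ha, k, by rw [inv_pow, hk, inv_one]⟩
  · rw [Subgroup.characteristic_iff_map_le]
    rintro φ _ ⟨x, ⟨hx, k, hk⟩, rfl⟩
    refine ⟨?_, k, ?_⟩
    · exact (Subgroup.characteristic_iff_map_le.1 hBchar) φ ⟨x, hx, rfl⟩
    · rw [← map_pow, hk, map_one]
  · intro hbot
    obtain ⟨x, hx⟩ := exists_prime_orderOf_dvd_card' p hpd
    have h1 : (x : K) ∈ (⊥ : Subgroup K) := by
      rw [← hbot]
      refine ⟨x.2, 1, ?_⟩
      rw [pow_one]
      have : x ^ p = 1 := by rw [← hx]; exact pow_orderOf_eq_one x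
      exact congrArg Subtype.val this
    rw [Subgroup.mem_bot] at h1
    have h2 : x = 1 := Subtype.ext h1
    rw [h2, orderOf_one] at hx
    exact hp.one_lt.ne hx
  · rintro ⟨x, hx, k, hk⟩
    exact ⟨k, Subtype.ext hk⟩

/-- If `T` is normalised by the maximal subgroup `H` and not contained in it, then `A = T H`. -/
theorem prod_of_norm (H T : Subgroup A) (hH : IsCoatom H) (hT : ∀ h ∈ H, ∀ t ∈ T, h * t * h⁻¹ ∈ T)
    (hTH : ¬ T ≤ H) (a : A) : ∃ t ∈ T, ∃ h ∈ H, a = t * h := by
  let K : Subgroup A :=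
    { carrier := {a | ∃ t ∈ T, ∃ h ∈ H, a = t * h}
      one_mem' := ⟨1, T.one_mem, 1, H.one_mem, by simp⟩
      mul_mem' := by
        rintro _ _ ⟨t, ht, h, hh, rfl⟩ ⟨t', ht', h', hh', rfl⟩
        exact ⟨t * (h * t' * h⁻¹), T.mul_mem ht (hT h hh t' ht'), h * h', H.mul_mem hh hh', by group⟩
      inv_mem' := by
        rintro _ ⟨t, ht, h, hh, rfl⟩
        refine ⟨h⁻¹ * t⁻¹ * h⁻¹⁻¹, hT _ (H.inv_mem hh) _ (T.inv_mem ht), h⁻¹, H.inv_mem hh, by group⟩ }
  have h1 : K = ⊤ := by
    apply hH.2
    rw [SetLike.lt_iff_le_and_exists]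
    refine ⟨fun h hh => ⟨1, T.one_mem, h, hh, by simp⟩, ?_⟩
    obtain ⟨t, ht, htH⟩ := SetLike.not_le_iff_exists.1 hTH
    exact ⟨t, ⟨t, ht, 1, H.one_mem, by simp⟩, htH⟩
  have h2 : a ∈ K := by rw [h1]; trivial
  exact h2

/-- Let `N` be a nonabelian simple normal subgroup of `A` with trivial centraliser and soluble
quotient. Then every maximal subgroup not containing `N` meets `N` nontrivially. -/
theorem exists_mem_meet [Finite A] (N H : Subgroup A) [hN : N.Normal]
    (hsimple : ∀ T : Subgroup A, T ≤ N → (∀ s ∈ N, ∀ t ∈ T, s * t * s⁻¹ ∈ T) → T = ⊥ ∨ T = N)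
    (hna : ∃ x ∈ N, ∃ y ∈ N, x * y ≠ y * x) (hcent : ∀ g : A, (∀ s ∈ N, Commute s g) → g = 1)
    (hsol : Group.IsSolvable (A ⧸ N)) (hH : IsCoatom H) :
    ∃ s ∈ N, s ∈ H ∧ s ≠ 1 := by
  classical
  by_contra! hcon
  -- every `H`-invariant subgroup of `N` is trivial or all of `N`
  have hinv : ∀ T : Subgroup A, T ≤ N → (∀ h ∈ H, ∀ t ∈ T, h * t * h⁻¹ ∈ T) → T = ⊥ ∨ T = N := by
    intro T hTN hT
    by_cases hbot : T = ⊥
    · exact Or.inl hbot
    right
    apply le_antisymm hTN
    intro n hn
    have hTH : ¬ T ≤ H := by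
      intro hle
      apply hbot
      rw [eq_bot_iff]
      intro t ht
      rw [Subgroup.mem_bot]
      exact hcon t (hTN ht) (hle ht)
    obtain ⟨t, ht, h, hh, rfl⟩ := prod_of_norm H T hH hT hTH n
    have h1 : h ∈ N := by
      have := N.mul_mem (N.inv_mem (hTN ht)) hn
      simpa using this
    rw [hcon h h1 hh, mul_one]
    exact ht
  -- `H` is soluble and nontrivial
  have hHsol : Group.IsSolvable H := by
    have hinj : Function.Injective ((QuotientGroup.mk' N).comp H.subtype) := by
      rw [injective_iff_map_eq_one]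
      intro x hx
      have h1 : (x : A) ∈ N := by
        have h2 : (QuotientGroup.mk' N) (x : A) = 1 := hx
        rwa [QuotientGroup.mk'_apply, QuotientGroup.eq_one_iff] at h2
      exact Subtype.ext (hcon x h1 x.2)
    exact Group.isSolvable_of_isSolvable_injective hinj
  have hHnt : Nontrivial H := by
    rw [Subgroup.nontrivial_iff_ne_bot]
    rintro rfl
    obtain ⟨x, hx, y, hy, hxy⟩ := hna
    have hx1 : x ≠ 1 := by
      rintro rfl
      simp at hxy
    have h1 : Subgroup.zpowers x = ⊤ := by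
      apply hH.2
      rw [bot_lt_iff_ne_bot]
      intro h0
      rw [Subgroup.zpowers_eq_bot] at h0
      exact hx1 h0
    have h2 : y ∈ Subgroup.zpowers x := by rw [h1]; trivial
    obtain ⟨k, rfl⟩ := h2
    apply hxy
    simp only
    exact ((Commute.refl x).zpow_right k).eq
  obtain ⟨p, hp, P', hP'c, hP'1, hP'p⟩ := exists_char_pgroup H
  have hP'n : P'.Normal := inferInstance
  have hpf : Fact p.Prime := ⟨hp⟩
  set P : Subgroup A := P'.map H.subtype with hP
  have hPp : IsPGroup p P := hP'p.map _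
  have hPH : ∀ h ∈ H, ∀ q ∈ P, h * q * h⁻¹ ∈ P := by
    rintro h hh _ ⟨q, hq, rfl⟩
    exact ⟨⟨h, hh⟩ * q * ⟨h, hh⟩⁻¹, hP'n.conj_mem q hq ⟨h, hh⟩, rfl⟩
  have hP1 : P ≠ ⊥ := by
    intro h0
    apply hP'1
    rw [hP, Subgroup.map_eq_bot_iff_of_injective _ H.subtype_injective] at h0
    exact h0
  -- the centraliser of `P` in `N` is trivial
  have hCP : ∀ n ∈ N, (∀ q ∈ P, Commute q n) → n = 1 := by
    have hT : ∀ h ∈ H, ∀ t ∈ N ⊓ Subgroup.centralizer (P : Set A),
        h * t * h⁻¹ ∈ N ⊓ Subgroup.centralizer (P : Set A) := by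
      intro h hh t ht
      rw [Subgroup.mem_inf] at ht ⊢
      obtain ⟨htN, htC⟩ := ht
      refine ⟨hN.conj_mem t htN h, ?_⟩
      rw [Subgroup.mem_centralizer_iff] at htC ⊢
      intro q hq
      have h1 : h⁻¹ * q * h⁻¹⁻¹ ∈ P := hPH h⁻¹ (H.inv_mem hh) q hq
      have h2 : Commute (h⁻¹ * q * h⁻¹⁻¹) t := htC _ h1
      have h3 := (Commute.conj_iff h).2 h2
      have e : h * (h⁻¹ * q * h⁻¹⁻¹) * h⁻¹ = q := by group
      rw [e] at h3
      exact h3
    rcases hinv _ inf_le_left hT with h1 | h1
    · intro n hn hq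
      have h2 : n ∈ N ⊓ Subgroup.centralizer (P : Set A) :=
        ⟨hn, Subgroup.mem_centralizer_iff.2 fun q hq' => hq q hq'⟩
      rw [h1] at h2
      simpa using h2
    · exfalso
      apply hP1
      rw [eq_bot_iff]
      intro q hq
      rw [Subgroup.mem_bot]
      apply hcent
      intro s hs
      rw [← h1] at hs
      exact ((Subgroup.mem_centralizer_iff.1 hs.2) q hq : Commute q s).symm
  -- the action of `A` on `N`
  let act : MulDistribMulAction A N := MulDistribMulAction.compHom N (MulAut.conjNormal (H := N))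
  have hact : ∀ (a : A) (n : N), ((a • n : N) : A) = a * n * a⁻¹ := by
    intro a n
    exact MulAut.conjNormal_apply a n
  have hfix : MulAction.fixedPoints P N = {1} := by
    ext n
    rw [MulAction.mem_fixedPoints, Set.mem_singleton_iff]
    constructor
    · intro hq
      apply Subtype.ext
      apply hCP n n.2
      intro q hqP
      have h1 := congrArg Subtype.val (hq ⟨q, hqP⟩)
      have h2 : q * (n : A) * q⁻¹ = n := by
        rw [← hact q n]
        exact h1
      exact (mul_inv_eq_iff_eq_mul.1 h2)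
    · rintro rfl q
      exact smul_one _
  have hpN : ¬ p ∣ Nat.card N := by
    intro hd
    have h1 := hPp.card_modEq_card_fixedPoints N
    rw [hfix] at h1
    have h2 : Nat.card ({1} : Set N) = 1 := by simp
    rw [h2] at h1
    have h3 : 0 ≡ 1 [MOD p] := (Nat.modEq_zero_iff_dvd.2 hd).symm.trans h1
    have h4 := (Nat.modEq_iff_dvd' (by norm_num)).1 h3
    simp only [Nat.sub_zero, Nat.dvd_one] at h4
    exact hp.one_lt.ne' h4
  -- a prime `r` dividing `|N|`
  have hNnt : Nontrivial N := by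
    obtain ⟨x, hx, y, hy, hxy⟩ := hna
    refine ⟨⟨x, hx⟩, 1, ?_⟩
    intro h1
    have h2 : x = 1 := congrArg Subtype.val h1
    rw [h2] at hxy
    simp at hxy
  have hcard : 1 < Nat.card N := Finite.one_lt_card
  obtain ⟨r, hr, hrd⟩ := Nat.exists_prime_and_dvd hcard.ne'
  have hrf : Fact r.Prime := ⟨hr⟩
  -- `P`-invariant Sylow subgroup
  have hsyl : ¬ p ∣ Nat.card (Sylow r N) := fun hd => hpN (hd.trans (by
    obtain ⟨R⟩ : Nonempty (Sylow r N) := inferInstance
    rw [R.card_eq_index_normalizer]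
    exact Subgroup.index_dvd_card _))
  obtain ⟨R, hR⟩ := hPp.nonempty_fixed_point_of_prime_not_dvd_card (Sylow r N) hsyl
  have huniq : ∀ R' : Sylow r N, (∀ q : P, q • R' = R') → R' = R := by
    intro R' hR'
    -- elements of `N` moving `R` to `R'`
    obtain ⟨n₀, hn₀⟩ : ∃ n₀ : N, MulAut.conj n₀ • R = R' :=
      (Sylow.isPretransitive_of_finite (p := r) (G := N)).exists_smul_eq R R'
    have hcompat : ∀ (a : A) (n : N) (T : Sylow r N),
        a • (MulAut.conj n • T) = MulAut.conj (a • n) • (a • T) := by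
      intro a n T
      apply Sylow.ext
      rw [Sylow.pointwise_smul_def, Sylow.pointwise_smul_def, Sylow.pointwise_smul_def,
        Sylow.pointwise_smul_def]
      ext x
      simp only [Subgroup.mem_smul_pointwise_iff_exists]
      constructor
      · rintro ⟨_, ⟨t, ht, rfl⟩, rfl⟩
        refine ⟨a • t, ⟨t, ht, rfl⟩, ?_⟩
        apply Subtype.ext
        simp only [MulAut.smul_def, MulAut.conj_apply, hact, Subgroup.coe_mul, Subgroup.coe_inv]
        group
      · rintro ⟨_, ⟨t, ht, rfl⟩, rfl⟩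
        refine ⟨MulAut.conj n • t, ⟨t, ht, rfl⟩, ?_⟩
        apply Subtype.ext
        simp only [MulAut.smul_def, MulAut.conj_apply, hact, Subgroup.coe_mul, Subgroup.coe_inv]
        group
    let X : SubMulAction P N :=
      { carrier := {n | MulAut.conj n • R = R'}
        smul_mem' := by
          intro q n hn
          change (MulAut.conj ((q : A) • n) • R = R')
          have h1 : (q : A) • R = R := hR q
          have h2 : (q : A) • R' = R' := hR' q
          have h3 : MulAut.conj n • R = R' := hn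
          rw [← h1, ← hcompat, h3, h2] }
    have hXcard : Nat.card X
        = Nat.card ((MulAction.stabilizer (MulAut N) R).comap MulAut.conj) := by
      refine Nat.card_congr
        { toFun := fun n => ⟨n₀⁻¹ * n.1, by
            rw [Subgroup.mem_comap, MulAction.mem_stabilizer_iff, map_mul, mul_smul, map_inv,
              inv_smul_eq_iff, hn₀]
            exact n.2⟩
          invFun := fun n => ⟨n₀ * n.1, by
            change MulAut.conj (n₀ * n.1) • R = R'
            have h1 : MulAut.conj n.1 • R = R := n.2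
            rw [map_mul, mul_smul, h1, hn₀]⟩
          left_inv := fun n => Subtype.ext (by simp)
          right_inv := fun n => Subtype.ext (by simp) }
    have hX : ¬ p ∣ Nat.card X := by
      rw [hXcard]
      exact fun hd => hpN (hd.trans (Subgroup.card_subgroup_dvd_card _))
    obtain ⟨⟨n, hn⟩, hnfix⟩ := hPp.nonempty_fixed_point_of_prime_not_dvd_card X hX
    have h1 : n = 1 := by
      have h2 : n ∈ MulAction.fixedPoints P N := by
        intro q
        exact congrArg Subtype.val (hnfix q)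
      rw [hfix] at h2
      exact h2
    have h3 : MulAut.conj n • R = R' := hn
    rw [h1, map_one, one_smul] at h3
    exact h3.symm
  -- `R` is `H`-invariant
  have hHR : ∀ h ∈ H, h • R = R := by
    intro h hh
    apply huniq
    intro q
    have h1 : h⁻¹ * q * h⁻¹⁻¹ ∈ P := hPH h⁻¹ (H.inv_mem hh) q q.2
    have h2 : (h⁻¹ * q * h⁻¹⁻¹ : A) • R = R := hR ⟨_, h1⟩
    change (q : A) • (h • R) = h • R
    conv_rhs => rw [← h2]
    rw [smul_smul, smul_smul]
    congr 1
    group
  set T : Subgroup A := (R : Subgroup N).map N.subtype with hT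
  have hTinv : ∀ h ∈ H, ∀ t ∈ T, h * t * h⁻¹ ∈ T := by
    rintro h hh _ ⟨t, ht, rfl⟩
    refine ⟨h • t, ?_, hact h t⟩
    have h1 : h • t ∈ ((h • R : Sylow r N) : Subgroup N) := by
      rw [Sylow.pointwise_smul_def]
      exact Subgroup.smul_mem_pointwise_smul t h _ ht
    rw [hHR h hh] at h1
    exact h1
  have hRtop : (R : Subgroup N) = ⊤ := by
    rcases hinv T (by rintro _ ⟨t, _, rfl⟩; exact t.2) hTinv with h1 | h1
    · exfalso
      rw [hT, Subgroup.map_eq_bot_iff_of_injective _ N.subtype_injective] at h1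
      have h2 := R.ne_bot_of_dvd_card hrd
      exact h2 h1
    · rw [eq_top_iff]
      intro n _
      have h2 : (n : A) ∈ T := by rw [h1]; exact n.2
      obtain ⟨t, ht, htn⟩ := h2
      rwa [Subtype.ext htn] at ht
  -- so `N` is an `r`-group, with nontrivial centre
  have hNr : IsPGroup r N := by
    have h1 := R.2
    rw [hRtop] at h1
    exact h1.of_equiv Subgroup.topEquiv
  have hZ : Nontrivial (Subgroup.center N) := hNr.center_nontrivial
  set Z : Subgroup A := (Subgroup.center N).map N.subtype with hZdef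
  have hZN : Z ≤ N := by
    rintro _ ⟨z, _, rfl⟩
    exact z.2
  have hZinv : ∀ s ∈ N, ∀ t ∈ Z, s * t * s⁻¹ ∈ Z := by
    rintro s hs _ ⟨z, hz, rfl⟩
    have h1 : s * N.subtype z * s⁻¹ = N.subtype z := by
      have h2 := (Subgroup.mem_center_iff.1 hz) ⟨s, hs⟩
      have h3 : s * (z : A) = z * s := congrArg Subtype.val h2
      change s * (z : A) * s⁻¹ = z
      rw [h3, mul_assoc, mul_inv_cancel, mul_one]
    rw [h1]
    exact ⟨z, hz, rfl⟩
  rcases hsimple Z hZN hZinv with h1 | h1
  · rw [hZdef, Subgroup.map_eq_bot_iff_of_injective _ N.subtype_injective] at h1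
    rw [Subgroup.nontrivial_iff_ne_bot] at hZ
    exact hZ h1
  · obtain ⟨x, hx, y, hy, hxy⟩ := hna
    apply hxy
    have h2 : y ∈ Z := by rw [h1]; exact hy
    obtain ⟨z, hz, rfl⟩ := h2
    have h3 := (Subgroup.mem_center_iff.1 hz) ⟨x, hx⟩
    exact congrArg Subtype.val h3

end

end Pool.Agent.Helper89.PChar
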