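import Pool.Agent.Helper89.PCharSetup

/-!
# The almost simple group `N_G(S) / C_G(S)` inherits the hypothesis
-/

set_option autoImplicit false

universe u

namespace Pool.Agent.Helper89.PChar

open Representation Module
open scoped commutatorElement

theorem AlmostSimple.dichotomy {A : Type u} [Group A] {N : Subgroup A} (hA : AlmostSimple A N)
    (T : Subgroup A) (hTN : T ≤ N) (hT : ∀ s ∈ N, ∀ t ∈ T, s * t * s⁻¹ ∈ T) : T = ⊥ ∨ T = N := by
  have hs := hA.simple
  have hn : (T.subgroupOf N).Normal := ⟨fun t ht s => hT s s.2 t ht⟩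
  rcases hn.eq_bot_or_eq_top with h | h
  · left
    rw [Subgroup.subgroupOf_eq_bot] at h
    rw [eq_bot_iff]
    intro t ht
    have := h.le_bot ⟨ht, hTN ht⟩
    exact this
  · right
    rw [Subgroup.subgroupOf_eq_top] at h
    exact le_antisymm hTN h

theorem AlmostSimple.perfect {A : Type u} [Group A] {N : Subgroup A} (hA : AlmostSimple A N) :
    ⁅N, N⁆ = N := by
  have hn := hA.normal
  rcases hA.dichotomy ⁅N, N⁆ (Subgroup.commutator_le_left N N) (fun s _ t ht =>
    (Subgroup.commutator_normal N N).conj_mem t ht s) with h | h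
  · exfalso
    obtain ⟨x, hx, y, hy, hxy⟩ := hA.nonabelian
    apply hxy
    have h3 : ⁅x, y⁆ ∈ ⁅N, N⁆ := Subgroup.commutator_mem_commutator hx hy
    rw [h, Subgroup.mem_bot] at h3
    exact commutatorElement_eq_one_iff_mul_comm.1 h3
  · exact h

theorem AlmostSimple.quotient_soluble {A : Type u} [Group A] {N : Subgroup A}
    (hA : AlmostSimple A N) [N.Normal] : Group.IsSolvable (A ⧸ N) := by
  obtain ⟨n, hn⟩ := hA.soluble
  refine ⟨⟨n, ?_⟩⟩
  rw [← map_derivedSeries_eq (QuotientGroup.mk'_surjective N), Subgroup.map_eq_bot_iff,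
    QuotientGroup.ker_mk']
  exact hn

theorem AlmostSimple.exists_meet {A : Type u} [Group A] [Finite A] {N : Subgroup A}
    (hA : AlmostSimple A N) (H : Subgroup A) (hH : IsCoatom H) : ∃ s ∈ N, s ∈ H ∧ s ≠ 1 := by
  have hn := hA.normal
  refine exists_mem_meet N H hA.dichotomy hA.nonabelian ?_ hA.quotient_soluble hH
  intro g hg
  have : g ∈ Subgroup.centralizer (N : Set A) := Subgroup.mem_centralizer_iff.2 hg
  rw [hA.centralizer] at this
  simpa using this

/-- P-characters coming from maximal subgroups containing the derived subgroups -/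
theorem monoRep_soluble {A : Type u} [Group A] [Finite A] {V : Type u} [AddCommGroup V]
    [Module ℂ V] [FiniteDimensional ℂ V] {ρ : Representation ℂ A V} (hρ : ρ.IsIrreducible)
    (H : Subgroup A) (hH : IsCoatom H) (v₀ : V) (hv₀ : v₀ ≠ 0) (hfix : ∀ h ∈ H, ρ h v₀ = v₀)
    (hder : ∃ n : ℕ, derivedSeries A n ≤ H) : MonoRep ρ := by
  classical
  set n := Nat.find hder with hn
  have hn0 : n ≠ 0 := by
    intro h0
    have h1 := Nat.find_spec hder
    rw [← hn, h0, derivedSeries_zero] at h1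
    exact hH.1 (top_le_iff.1 h1)
  obtain ⟨k, hk⟩ := Nat.exists_eq_succ_of_ne_zero hn0
  have hk1 : ¬ derivedSeries A k ≤ H := Nat.find_min hder (by omega)
  have hk2 : ⁅derivedSeries A k, derivedSeries A k⁆ ≤ H := by
    have h1 := Nat.find_spec hder
    rw [← hn, hk, Nat.succ_eq_add_one, derivedSeries_succ] at h1
    exact h1
  have hnorm : (derivedSeries A k).Normal := derivedSeries_normal A k
  refine monoRep_of_normal_comm hρ H hH v₀ hfix hv₀ (derivedSeries A k) hk1 ?_
  intro a ha b hb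
  have hall : ∀ w : V, ⁅derivedSeries A k, derivedSeries A k⁆ ≤ fixer ρ w := by
    intro w
    exact fix_all_of_fix_one hρ _ hv₀ (fun x hx => hfix x (hk2 hx)) w
  apply LinearMap.ext
  intro w
  have h1 : ⁅a, b⁆ ∈ fixer ρ (ρ (b * a) w) := hall _ (Subgroup.commutator_mem_commutator ha hb)
  rw [mem_fixer, ← rho_mul] at h1
  have e : ⁅a, b⁆ * (b * a) = a * b := by
    rw [commutatorElement_def]
    group
  rwa [e] at h1

section

variable {G : Type u} [Group G] [Finite G] {S B N : Subgroup G}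

theorem reduce (h : Setup S B N) (hna : ∃ x ∈ S, ∃ y ∈ S, x * y ≠ y * x)
    (hsol : ∃ n : ℕ, derivedSeries G n ≤ N) (hG : AllPMonomial G) :
    ∃ (A : Type u) (_ : Group A) (_ : Finite A) (φ : B →* A), Function.Surjective φ ∧
      AlmostSimple A ((S.subgroupOf B).map φ) ∧ AllPMonomial A := by
  classical
  -- the centraliser
  let C : Subgroup B := (Subgroup.centralizer (S : Set G)).subgroupOf B
  have hCmem : ∀ b : B, b ∈ C ↔ ∀ s ∈ S, Commute s (b : G) := by
    intro b
    rw [Subgroup.mem_subgroupOf, Subgroup.mem_centralizer_iff]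
    rfl
  have hCn : C.Normal := by
    refine ⟨fun c hc b => ?_⟩
    rw [hCmem] at hc ⊢
    intro s hs
    have h1 : Commute ((b : G)⁻¹ * s * (b : G)⁻¹⁻¹) (c : G) :=
      hc _ (h.conj (b : G)⁻¹ (B.inv_mem b.2) s hs)
    have h2 := (Commute.conj_iff (b : G)).2 h1
    have e : (b : G) * ((b : G)⁻¹ * s * (b : G)⁻¹⁻¹) * (b : G)⁻¹ = s := by group
    rwa [e] at h2
  let π : B →* B ⧸ C := QuotientGroup.mk' C
  have hπ : Function.Surjective π := QuotientGroup.mk'_surjective C
  have hπ1 : ∀ b : B, π b = 1 ↔ b ∈ C := fun b => QuotientGroup.eq_one_iff b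
  set SB : Subgroup B := S.subgroupOf B with hSB
  have hSBmem : ∀ b : B, b ∈ SB ↔ (b : G) ∈ S := fun b => Subgroup.mem_subgroupOf
  have hSBn : SB.Normal := ⟨fun s hs b => h.conj b b.2 s hs⟩
  set NA : Subgroup (B ⧸ C) := SB.map π with hNA
  have hNAn : NA.Normal := hSBn.map π hπ
  -- `S ∩ C = 1`
  have hSC : ∀ s : G, s ∈ S → (∀ t ∈ S, Commute t s) → s = 1 := by
    intro s hs hc
    rcases h.simple (S ⊓ Subgroup.centralizer (S : Set G)) inf_le_left (by
      intro a ha t ht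
      have h1 : Commute a t := Subgroup.mem_centralizer_iff.1 ht.2 a ha
      have h2 : a * t * a⁻¹ = t := by rw [h1.eq, mul_assoc, mul_inv_cancel, mul_one]
      rw [h2]
      exact ht) with h3 | h3
    · have h4 : s ∈ S ⊓ Subgroup.centralizer (S : Set G) :=
        ⟨hs, Subgroup.mem_centralizer_iff.2 hc⟩
      rw [h3] at h4
      simpa using h4
    · exfalso
      obtain ⟨x, hx, y, hy, hxy⟩ := hna
      apply hxy
      have h4 : y ∈ S ⊓ Subgroup.centralizer (S : Set G) := by rw [h3]; exact hy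
      exact Subgroup.mem_centralizer_iff.1 h4.2 x hx
  -- the restriction of `π` to `S` is injective
  have hSinj : ∀ a b : B, a ∈ SB → b ∈ SB → π a = π b → a = b := by
    intro a b ha hb hab
    have h1 : π (a⁻¹ * b) = 1 := by rw [map_mul, map_inv, hab, inv_mul_cancel]
    rw [hπ1, hCmem] at h1
    have h2 : ((a⁻¹ * b : B) : G) = 1 := hSC _ (S.mul_mem (S.inv_mem ha) hb) h1
    have h3 : a⁻¹ * b = 1 := Subtype.ext h2
    exact inv_mul_eq_one.1 h3
  have hAS : AlmostSimple (B ⧸ C) NA := by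
    refine { normal := hNAn, simple := ?_, nonabelian := ?_, centralizer := ?_, soluble := ?_ }
    · -- simplicity
      refine { exists_pair_ne := ?_, eq_bot_or_eq_top_of_normal := ?_ }
      · obtain ⟨x, hx, y, hy, hxy⟩ := hna
        refine ⟨⟨π ⟨x, h.SB hx⟩, ⟨_, hx, rfl⟩⟩, 1, ?_⟩
        intro h1
        have h2 : π ⟨x, h.SB hx⟩ = 1 := congrArg Subtype.val h1
        rw [hπ1, hCmem] at h2
        exact hxy (h2 y hy).symm
      · intro T hT
        -- pull back to `S`
        let T' : Subgroup G := ((T.map NA.subtype).comap π ⊓ SB).map B.subtype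
        have hT'mem : ∀ b : B, (b : G) ∈ T' ↔ ∃ hb : b ∈ SB, (⟨π b, ⟨b, hb, rfl⟩⟩ : NA) ∈ T := by
          intro b
          constructor
          · rintro ⟨c, ⟨hc1, hc2⟩, hcb⟩
            have : c = b := Subtype.ext hcb
            subst this
            refine ⟨hc2, ?_⟩
            obtain ⟨t, ht, hte⟩ := hc1
            have : t = ⟨π c, ⟨c, hc2, rfl⟩⟩ := Subtype.ext hte
            rwa [this] at ht
          · rintro ⟨hb, hbT⟩
            exact ⟨b, ⟨⟨_, hbT, rfl⟩, hb⟩, rfl⟩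
        have hT'S : T' ≤ S := by
          rintro _ ⟨c, ⟨_, hc2⟩, rfl⟩
          exact hc2
        rcases h.simple T' hT'S (by
          intro s hs t ht
          have htS := hT'S ht
          have h1 := (hT'mem ⟨t, h.SB htS⟩).1 ht
          obtain ⟨_, h2⟩ := h1
          have h3 : (⟨s, h.SB hs⟩ * ⟨t, h.SB htS⟩ * ⟨s, h.SB hs⟩⁻¹ : B) ∈ SB :=
            S.mul_mem (S.mul_mem hs htS) (S.inv_mem hs)
          apply (hT'mem (⟨s, h.SB hs⟩ * ⟨t, h.SB htS⟩ * ⟨s, h.SB hs⟩⁻¹)).2
          refine ⟨h3, ?_⟩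
          have h4 := hT.conj_mem _ h2 ⟨π ⟨s, h.SB hs⟩, ⟨_, hs, rfl⟩⟩
          have h6 : (⟨π (⟨s, h.SB hs⟩ * ⟨t, h.SB htS⟩ * ⟨s, h.SB hs⟩⁻¹), ⟨_, h3, rfl⟩⟩ : NA)
              = ⟨π ⟨s, h.SB hs⟩, ⟨_, hs, rfl⟩⟩ * ⟨π ⟨t, h.SB htS⟩, ⟨_, htS, rfl⟩⟩
                * ⟨π ⟨s, h.SB hs⟩, ⟨_, hs, rfl⟩⟩⁻¹ := by
            apply Subtype.ext
            change π (⟨s, h.SB hs⟩ * ⟨t, h.SB htS⟩ * ⟨s, h.SB hs⟩⁻¹)
              = π ⟨s, h.SB hs⟩ * π ⟨t, h.SB htS⟩ * (π ⟨s, h.SB hs⟩)⁻¹
            rw [map_mul, map_mul, map_inv]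
          rw [h6]
          exact h4) with h5 | h5
        · left
          rw [eq_bot_iff]
          rintro ⟨_, ⟨b, hb, rfl⟩⟩ hbT
          have h6 : (b : G) ∈ T' := (hT'mem b).2 ⟨hb, hbT⟩
          rw [h5, Subgroup.mem_bot] at h6
          have h7 : b = 1 := Subtype.ext h6
          rw [Subgroup.mem_bot]
          apply Subtype.ext
          change π b = 1
          rw [h7, map_one]
        · right
          rw [eq_top_iff]
          rintro ⟨_, ⟨b, hb, rfl⟩⟩ _
          have h6 : (b : G) ∈ T' := by rw [h5]; exact hb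
          obtain ⟨_, h7⟩ := (hT'mem b).1 h6
          exact h7
    · obtain ⟨x, hx, y, hy, hxy⟩ := hna
      refine ⟨π ⟨x, h.SB hx⟩, ⟨_, hx, rfl⟩, π ⟨y, h.SB hy⟩, ⟨_, hy, rfl⟩, ?_⟩
      intro h1
      apply hxy
      rw [← map_mul, ← map_mul] at h1
      have h2 := hSinj _ _ (S.mul_mem hx hy) (S.mul_mem hy hx) h1
      exact congrArg Subtype.val h2
    · rw [eq_bot_iff]
      intro a ha
      obtain ⟨b, rfl⟩ := hπ a
      rw [Subgroup.mem_bot, hπ1, hCmem]
      intro s hs
      have h1 : π ⟨s, h.SB hs⟩ * π b = π b * π ⟨s, h.SB hs⟩ :=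
        (Subgroup.mem_centralizer_iff.1 ha) _ ⟨_, hs, rfl⟩
      have h2 : π (b * ⟨s, h.SB hs⟩ * b⁻¹) = π ⟨s, h.SB hs⟩ := by
        rw [map_mul, map_mul, map_inv, ← h1, mul_assoc, mul_inv_cancel, mul_one]
      have h3 := hSinj _ _ (hSBn.conj_mem _ hs b) hs h2
      have h4 : (b : G) * s * (b : G)⁻¹ = s := congrArg Subtype.val h3
      have h5 : (b : G) * s = s * b := mul_inv_eq_iff_eq_mul.1 h4
      exact h5.symm
    · obtain ⟨n, hn⟩ := hsol
      refine ⟨n, ?_⟩
      -- `derivedSeries B n ≤ N ∩ B`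
      have h1 : derivedSeries B n ≤ N.subgroupOf B := by
        intro b hb
        rw [Subgroup.mem_subgroupOf]
        apply hn
        exact map_derivedSeries_le_derivedSeries (f := B.subtype) n ⟨b, hb, rfl⟩
      rw [← map_derivedSeries_eq hπ n]
      rintro _ ⟨b, hb, rfl⟩
      have h2 : (b : G) ∈ N := h1 hb
      -- `N ≤ S C_G(S)`
      have h3 : N ≤ ((NA.comap π).map B.subtype) := by
        apply h.closure
        intro g s hs
        by_cases hg : g ∈ B
        · exact ⟨⟨_, h.SB (h.conj g hg s hs)⟩, ⟨⟨_, h.SB (h.conj g hg s hs)⟩,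
            h.conj g hg s hs, rfl⟩, rfl⟩
        · have h4 := h.conj_mem_B hg hs
          refine ⟨⟨_, h4⟩, ?_, rfl⟩
          have h5 : π ⟨_, h4⟩ = 1 := by
            rw [hπ1, hCmem]
            intro t ht
            exact h.comm g hg t ht s hs
          change π ⟨_, h4⟩ ∈ NA
          rw [h5]
          exact NA.one_mem
      obtain ⟨b', hb', hbb⟩ := h3 h2
      have : b' = b := Subtype.ext hbb
      rw [← this]
      exact hb'
  refine ⟨B ⧸ C, inferInstance, inferInstance, π, hπ, hAS, ?_⟩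
  rw [allPMonomial_iff]
  intro V _ _ _ ρ hρ hp
  obtain ⟨H, hH, v₀, hv₀, hfix⟩ := hp
  by_cases hNH : NA ≤ H
  · -- soluble type
    refine monoRep_soluble hρ H hH v₀ hv₀ hfix ?_
    obtain ⟨n, hn⟩ := hAS.soluble
    exact ⟨n, hn.trans hNH⟩
  by_cases hfixN : NA ≤ fixer ρ v₀
  · -- trivial representation
    have h1 : H ⊔ NA = ⊤ := hH.2 _ (left_lt_sup.2 hNH)
    have h2 : (⊤ : Subgroup (B ⧸ C)) ≤ fixer ρ v₀ := by
      rw [← h1]
      exact sup_le (fun x hx => hfix x hx) hfixN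
    refine ⟨v₀, hv₀, ?_⟩
    have h3 : lineStab ρ v₀ = ⊤ := by
      rw [eq_top_iff]
      intro g _
      rw [mem_lineStab' hv₀]
      refine ⟨1, ?_⟩
      rw [one_smul]
      exact h2 (Subgroup.mem_top g)
    rw [h3, Subgroup.index_top]
    apply le_antisymm
    · have h4 := finrank_le_index hρ hv₀ (D := ⊤) h3.ge
      rwa [Subgroup.index_top] at h4
    · have := ((irr_iff ρ).1 hρ).1
      exact Module.finrank_pos
  -- main case
  have hno : ∀ v : V, NA ≤ fixer ρ v → v = 0 := by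
    intro v hv
    by_contra hv0
    exact hfixN (fix_all_of_fix_one hρ NA hv0 hv v₀)
  let σ : Representation ℂ B V := ρ.comp π
  have hσ : σ.IsIrreducible := (irr_comp_iff hπ ρ).2 hρ
  have hC : ∀ b : B, (∀ s ∈ S, Commute s (b : G)) → σ b = 1 := by
    intro b hb
    have h1 : π b = 1 := (hπ1 b).2 ((hCmem b).2 hb)
    change ρ (π b) = 1
    rw [h1, map_one]
  have hS0 : ∀ v : V, (∀ s (hs : s ∈ S), σ ⟨s, h.SB hs⟩ v = v) → v = 0 := by
    intro v hv
    apply hno
    rintro _ ⟨b, hb, rfl⟩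
    exact hv b hb
  -- the maximal subgroup of `B`
  let H₁ : Subgroup G := (H.comap π).map B.subtype
  have hH₁ : ∀ b : B, (b : G) ∈ H₁ ↔ π b ∈ H := by
    intro b
    constructor
    · rintro ⟨c, hc, hcb⟩
      have : c = b := Subtype.ext hcb
      rwa [← this]
    · intro hb
      exact ⟨b, hb, rfl⟩
  have hk : MaxSetup S B H₁ := by
    refine { HB := ?_, cent := ?_, notS := ?_, prod := ?_, max := ?_, meet := ?_ }
    · rintro _ ⟨c, _, rfl⟩
      exact c.2
    · intro g hg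
      have hgB := h.cent g hg
      apply (hH₁ ⟨g, hgB⟩).2
      have h1 : π ⟨g, hgB⟩ = 1 := (hπ1 _).2 ((hCmem _).2 hg)
      rw [h1]
      exact H.one_mem
    · intro hle
      apply hNH
      rintro _ ⟨b, hb, rfl⟩
      exact (hH₁ b).1 (hle hb)
    · intro b hb
      have h1 : H ⊔ NA = ⊤ := hH.2 _ (left_lt_sup.2 hNH)
      have h2 : π ⟨b, hb⟩ ∈ NA ⊔ H := by rw [sup_comm, h1]; trivial
      rw [Subgroup.mem_sup_of_normal_left] at h2
      obtain ⟨n, ⟨s, hs, rfl⟩, k, hk, hnk⟩ := h2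
      refine ⟨s, hs, (s : G)⁻¹ * b, ?_, by group⟩
      apply (hH₁ (s⁻¹ * ⟨b, hb⟩)).2
      rw [map_mul, map_inv, ← hnk, inv_mul_cancel_left]
      exact hk
    · intro K hHK hKB
      have h1 : H ≤ (K.subgroupOf B).map π := by
        intro x hx
        obtain ⟨b, rfl⟩ := hπ x
        exact ⟨b, hHK ((hH₁ b).2 hx), rfl⟩
      have hKmem : ∀ b : B, π b ∈ (K.subgroupOf B).map π → (b : G) ∈ K := by
        rintro b ⟨c, hc, hcb⟩
        have h2 : π (b * c⁻¹) = 1 := by rw [map_mul, map_inv, hcb, mul_inv_cancel]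
        have h3 : ((b * c⁻¹ : B) : G) ∈ H₁ := by
          rw [hH₁, h2]
          exact H.one_mem
        have h4 := K.mul_mem (hHK h3) hc
        simpa using h4
      rcases eq_or_lt_of_le h1 with h2 | h2
      · left
        apply le_antisymm _ hHK
        intro g hg
        apply (hH₁ ⟨g, hKB hg⟩).2
        rw [h2]
        exact ⟨⟨g, hKB hg⟩, hg, rfl⟩
      · right
        have h3 := hH.2 _ h2
        apply le_antisymm hKB
        intro b hb
        apply hKmem ⟨b, hb⟩
        rw [h3]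
        trivial
    · obtain ⟨x, ⟨s, hs, rfl⟩, hxH, hx1⟩ := hAS.exists_meet H hH
      refine ⟨s, hs, (hH₁ s).2 hxH, ?_⟩
      intro h1
      apply hx1
      have h2 : s = 1 := Subtype.ext h1
      rw [h2, map_one]
  have hPV : HasPVector (CR σ) := by
    refine hasPVector_CR h hk σ v₀ hv₀ ?_
    intro a ha
    exact hfix _ ((hH₁ ⟨a, hk.HB ha⟩).1 ha)
  have hirr := CR_irreducible σ h hC hS0 hσ
  have hmono : MonoRep (CR σ) := allPMonomial_iff.1 hG _ _ _ inferInstance (CR σ) hirr hPV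
  have hmσ : MonoRep σ := monoRep_descend σ h hC hS0 hσ hmono
  exact (monoRep_comp_iff hπ ρ).1 hmσ

end

end Pool.Agent.Helper89.PChar
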