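import Pool.Agent.Helper89.PCharDefs

/-!
# Characters versus representations
-/

set_option autoImplicit false

universe u

namespace Pool.Agent.Helper89.PChar

open Representation Module

/-! ### Frobenius reciprocity for `ind` -/

open Classical in
/-- extension by zero of a function on a subgroup -/
noncomputable def ext0 {G : Type u} [Group G] (H : Subgroup G) (f : H → ℂ) (g : G) : ℂ :=
  if h : g ∈ H then f ⟨g, h⟩ else 0

theorem ind_eq {G : Type u} [Group G] (H : Subgroup G) (f : H → ℂ) (g : G) :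
    ind H f g = (Nat.card H : ℂ)⁻¹ * ∑ᶠ x : G, ext0 H f (x⁻¹ * g * x) := rfl

theorem ext0_mem {G : Type u} [Group G] {H : Subgroup G} (f : H → ℂ) (h : H) :
    ext0 H f h = f h := by
  simp [ext0]

theorem ext0_not {G : Type u} [Group G] {H : Subgroup G} (f : H → ℂ) {g : G} (h : g ∉ H) :
    ext0 H f g = 0 := by
  simp [ext0, h]

theorem sum_ext0 {G : Type u} [Group G] [Fintype G] (H : Subgroup G) [Fintype H] (χ : G → ℂ)
    (f : H → ℂ) :
    ∑ g : G, χ g * (starRingEnd ℂ) (ext0 H f g) = ∑ h : H, χ h * (starRingEnd ℂ) (f h) := by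
  classical
  have h1 : ∑ h : H, χ h * (starRingEnd ℂ) (f h)
      = ∑ h : H, χ h * (starRingEnd ℂ) (ext0 H f h) := by
    refine Finset.sum_congr rfl fun h _ => ?_
    rw [ext0_mem]
  rw [h1]
  rw [← Finset.sum_subtype (Finset.univ.filter fun g => g ∈ H) (by simp)
    (fun g => χ g * (starRingEnd ℂ) (ext0 H f g))]
  refine (Finset.sum_subset (Finset.filter_subset _ _) ?_).symm
  intro x _ hx
  have : x ∉ H := by simpa using hx
  rw [ext0_not f this]
  simp

theorem frobenius {G : Type u} [Group G] [Finite G] (H : Subgroup G) (χ : G → ℂ)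
    (hχ : ∀ g x : G, χ (x * g * x⁻¹) = χ g) (f : H → ℂ) :
    inner χ (ind H f) = (Nat.card H : ℂ)⁻¹ * ∑ᶠ h : H, χ h * (starRingEnd ℂ) (f h) := by
  classical
  let _ := Fintype.ofFinite G
  let _ := Fintype.ofFinite H
  unfold inner
  rw [finsum_eq_sum_of_fintype, finsum_eq_sum_of_fintype]
  have key : ∀ x : G, ∑ g : G, χ g * (starRingEnd ℂ) (ext0 H f (x⁻¹ * g * x))
      = ∑ h : H, χ h * (starRingEnd ℂ) (f h) := by
    intro x
    rw [← sum_ext0]
    refine Fintype.sum_equiv (MulAut.conj x⁻¹).toEquiv _ _ fun g => ?_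
    have h2 : (MulAut.conj x⁻¹).toEquiv g = x⁻¹ * g * x := by simp
    rw [h2]
    congr 1
    rw [← hχ (x⁻¹ * g * x) x]
    congr 1
    group
  have h3 : ∀ g : G, χ g * (starRingEnd ℂ) (ind H f g)
      = (Nat.card H : ℂ)⁻¹ * ∑ x : G, χ g * (starRingEnd ℂ) (ext0 H f (x⁻¹ * g * x)) := by
    intro g
    rw [ind_eq, finsum_eq_sum_of_fintype, map_mul, map_sum, map_inv₀, map_natCast,
      Finset.mul_sum, Finset.mul_sum, Finset.mul_sum]
    refine Finset.sum_congr rfl fun x _ => ?_
    ring
  simp_rw [h3]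
  rw [← Finset.mul_sum, Finset.sum_comm]
  simp_rw [key]
  rw [Finset.sum_const, Finset.card_univ, nsmul_eq_mul, Fintype.card_eq_nat_card]
  have hG : (Nat.card G : ℂ) ≠ 0 := by
    exact_mod_cast Nat.card_pos.ne'
  field_simp

/-! ### Representations -/

section rep

variable {G : Type u} [Group G] {V : Type u} [AddCommGroup V] [Module ℂ V]

theorem irr_iff (ρ : Representation ℂ G V) :
    ρ.IsIrreducible ↔ Nontrivial V ∧
      ∀ Z : Submodule ℂ V, (∀ g : G, ∀ v ∈ Z, ρ g v ∈ Z) → Z = ⊥ ∨ Z = ⊤ := by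
  constructor
  · intro h
    constructor
    · obtain ⟨a, b, hab⟩ := h.toNontrivial
      by_contra hV
      rw [not_nontrivial_iff_subsingleton] at hV
      apply hab
      apply Subrepresentation.toSubmodule_injective
      exact Subsingleton.elim _ _
    · intro Z hZ
      rcases h.eq_bot_or_eq_top (⟨Z, fun g v hv => hZ g v hv⟩ : Subrepresentation ρ) with h1 | h1
      · left
        exact congrArg Subrepresentation.toSubmodule h1
      · right
        exact congrArg Subrepresentation.toSubmodule h1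
  · rintro ⟨hV, h⟩
    refine { toNontrivial := ⟨⊥, ⊤, ?_⟩, eq_bot_or_eq_top := ?_ }
    · intro hbt
      have := congrArg Subrepresentation.toSubmodule hbt
      exact bot_ne_top (α := Submodule ℂ V) this
    · intro Z
      rcases h Z.toSubmodule (fun g v hv => Z.apply_mem_toSubmodule g hv) with h1 | h1
      · left
        apply Subrepresentation.toSubmodule_injective
        exact h1
      · right
        apply Subrepresentation.toSubmodule_injective
        exact h1

/-- the stabiliser of the line through `v` -/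
def lineStab (ρ : Representation ℂ G V) (v : V) : Subgroup G where
  carrier := {g | ∃ c : ℂ, c ≠ 0 ∧ ρ g v = c • v}
  one_mem' := ⟨1, one_ne_zero, by simp⟩
  mul_mem' := by
    rintro a b ⟨c, hc, hc'⟩ ⟨d, hd, hd'⟩
    refine ⟨d * c, mul_ne_zero hd hc, ?_⟩
    rw [map_mul, Module.End.mul_apply, hd', map_smul, hc', smul_smul]
  inv_mem' := by
    rintro a ⟨c, hc, hc'⟩
    refine ⟨c⁻¹, inv_ne_zero hc, ?_⟩
    have h1 : ρ a⁻¹ (ρ a v) = v := by
      rw [← Module.End.mul_apply, ← map_mul]
      simp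
    rw [hc', map_smul] at h1
    calc ρ a⁻¹ v = c⁻¹ • c • ρ a⁻¹ v := by rw [smul_smul, inv_mul_cancel₀ hc, one_smul]
      _ = c⁻¹ • v := by rw [h1]

theorem mem_lineStab {ρ : Representation ℂ G V} {v : V} {g : G} :
    g ∈ lineStab ρ v ↔ ∃ c : ℂ, c ≠ 0 ∧ ρ g v = c • v := Iff.rfl

theorem rho_injective (ρ : Representation ℂ G V) (g : G) : Function.Injective (ρ g) := by
  intro v w h
  have : ρ g⁻¹ (ρ g v) = ρ g⁻¹ (ρ g w) := by rw [h]
  rwa [← Module.End.mul_apply, ← Module.End.mul_apply, ← map_mul, inv_mul_cancel, map_one,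
    Module.End.one_apply, Module.End.one_apply] at this

theorem mem_lineStab' {ρ : Representation ℂ G V} {v : V} (hv : v ≠ 0) {g : G} :
    g ∈ lineStab ρ v ↔ ∃ c : ℂ, ρ g v = c • v := by
  rw [mem_lineStab]
  constructor
  · rintro ⟨c, _, h⟩
    exact ⟨c, h⟩
  · rintro ⟨c, h⟩
    refine ⟨c, ?_, h⟩
    rintro rfl
    rw [zero_smul] at h
    exact hv (rho_injective ρ g (by rw [h, map_zero]))

/-- the representation has a nonzero vector fixed by a maximal subgroup -/
def HasPVector (ρ : Representation ℂ G V) : Prop :=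
  ∃ H : Subgroup G, IsCoatom H ∧ ∃ v : V, v ≠ 0 ∧ ∀ h ∈ H, ρ h v = v

/-- the representation is spanned by a transitive system of independent lines -/
def MonoRep (ρ : Representation ℂ G V) : Prop :=
  ∃ v : V, v ≠ 0 ∧ finrank ℂ V = (lineStab ρ v).index

theorem span_orbit {ρ : Representation ℂ G V} (hρ : ρ.IsIrreducible) {v : V} (hv : v ≠ 0) :
    Submodule.span ℂ (Set.range fun g : G => ρ g v) = ⊤ := by
  have hinv : ∀ g : G, ∀ w ∈ Submodule.span ℂ (Set.range fun g : G => ρ g v),
      ρ g w ∈ Submodule.span ℂ (Set.range fun g : G => ρ g v) := by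
    intro g w hw
    have h2 : Submodule.span ℂ (Set.range fun g : G => ρ g v) ≤
        (Submodule.span ℂ (Set.range fun g : G => ρ g v)).comap (ρ g) := by
      rw [Submodule.span_le]
      rintro _ ⟨x, rfl⟩
      refine Submodule.subset_span ⟨g * x, ?_⟩
      simp [map_mul]
    exact h2 hw
  rcases ((irr_iff ρ).1 hρ).2 _ hinv with h | h
  · exfalso
    apply hv
    have h1 : v ∈ Submodule.span ℂ (Set.range fun g : G => ρ g v) :=
      Submodule.subset_span ⟨1, by simp⟩
    rw [h] at h1
    simpa using h1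
  · exact h

/-- the vectors `ρ (out x) v` -/
noncomputable def lineVec (ρ : Representation ℂ G V) (v : V) (D : Subgroup G) (x : G ⧸ D) : V :=
  ρ (Quotient.out x) v

theorem span_lineVec {ρ : Representation ℂ G V} (hρ : ρ.IsIrreducible) {v : V} (hv : v ≠ 0)
    {D : Subgroup G} (hD : D ≤ lineStab ρ v) :
    Submodule.span ℂ (Set.range (lineVec ρ v D)) = ⊤ := by
  rw [eq_top_iff, ← span_orbit hρ hv, Submodule.span_le]
  rintro _ ⟨g, rfl⟩
  set x : G ⧸ D := QuotientGroup.mk g with hx
  have h1 : (Quotient.out x)⁻¹ * g ∈ D := by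
    rw [← QuotientGroup.eq]
    simp [hx]
  obtain ⟨c, hc, hc'⟩ := hD h1
  have h2 : ρ g v = c • lineVec ρ v D x := by
    have : g = Quotient.out x * ((Quotient.out x)⁻¹ * g) := by group
    rw [this, map_mul, Module.End.mul_apply, hc', map_smul]
    rfl
  change ρ g v ∈ _
  rw [h2]
  exact Submodule.smul_mem _ _ (Submodule.subset_span ⟨x, rfl⟩)

theorem finrank_le_index [Finite G] {ρ : Representation ℂ G V} (hρ : ρ.IsIrreducible) {v : V}
    (hv : v ≠ 0) {D : Subgroup G} (hD : D ≤ lineStab ρ v) : finrank ℂ V ≤ D.index := by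
  classical
  let _ := Fintype.ofFinite (G ⧸ D)
  have h := finrank_range_le_card (R := ℂ) (b := lineVec ρ v D)
  rw [Set.finrank, span_lineVec hρ hv hD, finrank_top] at h
  rwa [Subgroup.index, ← Fintype.card_eq_nat_card]

/-! ### P-characters and fixed vectors -/

theorem char_class (ρ : Representation ℂ G V) (g x : G) :
    ρ.character (x * g * x⁻¹) = ρ.character g := char_conj ρ g x

theorem inner_ind_one [Finite G] [FiniteDimensional ℂ V] (ρ : Representation ℂ G V)
    (H : Subgroup G) :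
    inner ρ.character (ind H fun _ => 1) =
      (finrank ℂ (invariants (ρ.comp H.subtype)) : ℂ) := by
  classical
  rw [frobenius H _ (char_class ρ)]
  let _ := Fintype.ofFinite H
  have hc : (Nat.card H : ℂ) ≠ 0 := by exact_mod_cast Nat.card_pos.ne'
  let _ : Invertible (Nat.card H : ℂ) := invertibleOfNonzero hc
  rw [← card_inv_mul_sum_char_eq_finrank, finsum_eq_sum_of_fintype]
  simp only [map_one, mul_one]
  rfl

theorem pchar_iff [Finite G] [FiniteDimensional ℂ V] (ρ : Representation ℂ G V) :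
    (∃ H : Subgroup G, IsCoatom H ∧ inner ρ.character (ind H fun _ => 1) ≠ 0) ↔
      HasPVector ρ := by
  unfold HasPVector
  refine exists_congr fun H => and_congr_right fun _ => ?_
  rw [inner_ind_one, Nat.cast_ne_zero]
  constructor
  · intro h
    have h1 : 0 < finrank ℂ (invariants (ρ.comp H.subtype)) := Nat.pos_of_ne_zero h
    rw [Module.finrank_pos_iff] at h1
    obtain ⟨⟨v, hv⟩, hne⟩ := exists_ne (0 : invariants (ρ.comp H.subtype))
    refine ⟨v, fun h0 => hne (Subtype.ext h0), fun x hx => ?_⟩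
    exact hv ⟨x, hx⟩
  · rintro ⟨v, hv, hfix⟩
    have h1 : Nontrivial (invariants (ρ.comp H.subtype)) := by
      refine ⟨⟨v, fun x => hfix x x.2⟩, 0, fun h0 => hv ?_⟩
      exact congrArg Subtype.val h0
    exact (Module.finrank_pos_iff.2 h1).ne'

/-! ### Monomial characters and lines -/

/-- sums over a group, by left cosets -/
theorem sum_cosets [Fintype G] (D : Subgroup G) [Fintype D] [Fintype (G ⧸ D)] (F : G → ℂ) :
    ∑ a : G, F a = ∑ x : G ⧸ D, ∑ d : D, F (Quotient.out x * d) := by
  rw [← Fintype.sum_prod_type']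
  symm
  refine Fintype.sum_equiv
    { toFun := fun p : (G ⧸ D) × D => Quotient.out p.1 * (p.2 : G)
      invFun := fun a => (QuotientGroup.mk a, ⟨(Quotient.out (QuotientGroup.mk a : G ⧸ D))⁻¹ * a, by
        rw [← QuotientGroup.eq]
        simp⟩)
      left_inv := ?_
      right_inv := ?_ } _ _ fun p => rfl
  · rintro ⟨x, d⟩
    have h1 : (QuotientGroup.mk (Quotient.out x * (d : G)) : G ⧸ D) = x := by
      conv_rhs => rw [← QuotientGroup.out_eq' x]
      rw [QuotientGroup.eq]
      simp
    ext1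
    · exact h1
    · apply Subtype.ext
      simp only
      rw [h1]
      group
  · intro a
    simp

theorem lineStab_char {ρ : Representation ℂ G V} {v : V} (hv : v ≠ 0) :
    ∃ lam : lineStab ρ v →* ℂˣ, ∀ d : lineStab ρ v, ρ d v = (lam d : ℂ) • v := by
  classical
  choose c hc hc' using fun d : lineStab ρ v => d.2
  have huniq : ∀ a b : ℂ, a • v = b • v → a = b := fun a b h => smul_left_injective ℂ hv h
  refine ⟨MonoidHom.toHomUnits
    { toFun := c, map_one' := ?_, map_mul' := ?_ }, fun d => ?_⟩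
  · apply huniq
    rw [← hc' 1]
    simp
  · intro a b
    apply huniq
    rw [← hc' (a * b)]
    rw [Subgroup.coe_mul, map_mul, Module.End.mul_apply, hc' b, map_smul, hc' a, smul_smul,
      mul_comm]
  · rw [hc' d]
    rfl

theorem isMonomial_of_monoRep [Finite G] {ρ : Representation ℂ G V} (hρ : ρ.IsIrreducible)
    (h : MonoRep ρ) : IsMonomial ρ.character := by
  classical
  obtain ⟨v, hv, hfin⟩ := h
  obtain ⟨D, hD⟩ : ∃ D, D = lineStab ρ v := ⟨_, rfl⟩
  obtain ⟨lam, hlam⟩ : ∃ lam : D →* ℂˣ, ∀ d : D, ρ d v = (lam d : ℂ) • v := by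
    subst hD
    exact lineStab_char hv
  rw [← hD] at hfin
  refine ⟨D, lam, ?_⟩
  let _ := Fintype.ofFinite G
  let _ := Fintype.ofFinite D
  let _ := Fintype.ofFinite (G ⧸ D)
  have hcard : Fintype.card (G ⧸ D) = finrank ℂ V := by
    rw [hfin, Subgroup.index, Fintype.card_eq_nat_card]
  have hspan : ⊤ ≤ Submodule.span ℂ (Set.range (lineVec ρ v D)) :=
    (span_lineVec hρ hv hD.le).ge
  set b := basisOfTopLeSpanOfCardEqFinrank (lineVec ρ v D) hspan hcard with hb
  have hbx : ∀ x, b x = lineVec ρ v D x := by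
    intro x
    rw [hb, coe_basisOfTopLeSpanOfCardEqFinrank]
  funext g
  have hact : ∀ x : G ⧸ D, b.repr (ρ g (b x)) x =
      ext0 D (fun d => (lam d : ℂ)) ((Quotient.out x)⁻¹ * g * Quotient.out x) := by
    intro x
    set y : G ⧸ D := QuotientGroup.mk (g * Quotient.out x) with hy
    obtain ⟨e, he⟩ : ∃ e : G, e = (Quotient.out y)⁻¹ * (g * Quotient.out x) := ⟨_, rfl⟩
    have hd : e ∈ D := by
      rw [he, ← QuotientGroup.eq]
      simp [hy]
    have hge : g * Quotient.out x = Quotient.out y * e := by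
      rw [he]
      group
    have h1 : ρ g (b x) = (lam ⟨e, hd⟩ : ℂ) • b y := by
      rw [hbx, hbx]
      unfold lineVec
      rw [← Module.End.mul_apply, ← map_mul, hge, map_mul, Module.End.mul_apply]
      have h2 := hlam ⟨e, hd⟩
      simp only at h2
      rw [h2, map_smul]
    rw [h1]
    simp only [map_smul, Basis.repr_self, Finsupp.smul_apply, Finsupp.single_apply, smul_eq_mul,
      mul_ite, mul_one, mul_zero]
    by_cases hyx : y = x
    · rw [if_pos hyx]
      have hee : (Quotient.out x)⁻¹ * g * Quotient.out x = e := by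
        rw [he, hyx]
        group
      rw [hee]
      exact (ext0_mem (H := D) (fun d => (lam d : ℂ)) ⟨e, hd⟩).symm
    · rw [if_neg hyx, ext0_not]
      intro hmem
      apply hyx
      rw [hy]
      conv_rhs => rw [← QuotientGroup.out_eq' x]
      symm
      rw [QuotientGroup.eq]
      rwa [← mul_assoc]
  change LinearMap.trace ℂ V (ρ g) = _
  rw [LinearMap.trace_eq_matrix_trace ℂ b, Matrix.trace]
  simp only [Matrix.diag_apply, LinearMap.toMatrix_apply]
  rw [Finset.sum_congr rfl fun x _ => hact x, ind_eq, finsum_eq_sum_of_fintype]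
  have hconst : ∀ x : G ⧸ D, ∀ d : D,
      ext0 D (fun d => (lam d : ℂ)) ((Quotient.out x * (d : G))⁻¹ * g * (Quotient.out x * d)) =
      ext0 D (fun d => (lam d : ℂ)) ((Quotient.out x)⁻¹ * g * Quotient.out x) := by
    intro x d
    set t := (Quotient.out x)⁻¹ * g * Quotient.out x with ht
    have h1 : (Quotient.out x * (d : G))⁻¹ * g * (Quotient.out x * d) = (d : G)⁻¹ * t * d := by
      rw [ht]
      group
    rw [h1]
    by_cases hmem : t ∈ D
    · have hmem' : (d : G)⁻¹ * t * d ∈ D := D.mul_mem (D.mul_mem (D.inv_mem d.2) hmem) d.2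
      unfold ext0
      rw [dif_pos hmem, dif_pos hmem']
      have : (⟨(d : G)⁻¹ * t * d, hmem'⟩ : D) = d⁻¹ * ⟨t, hmem⟩ * d := rfl
      rw [this]
      change (lam (d⁻¹ * ⟨t, hmem⟩ * d) : ℂ) = (lam ⟨t, hmem⟩ : ℂ)
      rw [map_mul, map_mul, map_inv]
      congr 1
      rw [mul_comm, ← mul_assoc, mul_inv_cancel, one_mul]
    · rw [ext0_not _ hmem, ext0_not]
      intro hmem'
      apply hmem
      have : t = (d : G) * ((d : G)⁻¹ * t * d) * (d : G)⁻¹ := by group
      rw [this]
      exact D.mul_mem (D.mul_mem d.2 hmem') (D.inv_mem d.2)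
  have e1 := sum_cosets D (fun a => ext0 D (fun d => (lam d : ℂ)) (a⁻¹ * g * a))
  simp only [hconst, Finset.sum_const, Finset.card_univ, nsmul_eq_mul] at e1
  rw [e1, ← Finset.mul_sum, Fintype.card_eq_nat_card, ← mul_assoc, inv_mul_cancel₀, one_mul]
  exact_mod_cast Nat.card_pos.ne'

theorem conj_unit_of_finite {U : Type u} [Group U] [Finite U] (lam : U →* ℂˣ) (x : U) :
    (starRingEnd ℂ) (lam x : ℂ) = (lam x⁻¹ : ℂ) := by
  have h1 : ‖(lam x : ℂ)‖ = 1 := by
    have h2 : (lam x : ℂ) ^ Nat.card U = 1 := by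
      rw [← Units.val_pow_eq_pow_val, ← map_pow, pow_card_eq_one', map_one, Units.val_one]
    have h3 : ‖(lam x : ℂ)‖ ^ Nat.card U = 1 := by
      rw [← norm_pow, h2, norm_one]
    exact (pow_eq_one_iff_of_nonneg (norm_nonneg _) Nat.card_pos.ne').1 h3
  rw [map_inv, Units.val_inv_eq_inv_val]
  rw [Complex.inv_def, Complex.normSq_eq_norm_sq, h1]
  simp

theorem ind_one [Finite G] (U : Subgroup G) (lam : U →* ℂˣ) :
    ind U (fun x => (lam x : ℂ)) 1 = U.index := by
  classical
  let _ := Fintype.ofFinite G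
  rw [ind_eq, finsum_eq_sum_of_fintype]
  have : ∀ x : G, ext0 U (fun x => (lam x : ℂ)) (x⁻¹ * 1 * x) = 1 := by
    intro x
    have h1 : x⁻¹ * 1 * x = ((1 : U) : G) := by simp
    rw [h1, ext0_mem]
    simp
  simp_rw [this]
  simp only [Finset.sum_const, Finset.card_univ, nsmul_eq_mul, mul_one]
  rw [Fintype.card_eq_nat_card, ← U.card_mul_index]
  have : (Nat.card U : ℂ) ≠ 0 := by exact_mod_cast Nat.card_pos.ne'
  push_cast
  field_simp

theorem monoRep_of_isMonomial [Finite G] [FiniteDimensional ℂ V] {ρ : Representation ℂ G V}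
    (hρ : ρ.IsIrreducible) (h : IsMonomial ρ.character) : MonoRep ρ := by
  classical
  obtain ⟨U, lam, hU⟩ := h
  have hdim : finrank ℂ V = U.index := by
    have h1 := congrFun hU 1
    rw [char_one, ind_one] at h1
    exact_mod_cast h1
  let _ := Fintype.ofFinite G
  let _ := Fintype.ofFinite U
  have hV : 0 < finrank ℂ V := by
    have := ((irr_iff ρ).1 hρ).1
    exact Module.finrank_pos
  -- the inner product of the character with itself is nonzero
  have hpos : inner ρ.character ρ.character ≠ 0 := by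
    unfold inner
    rw [finsum_eq_sum_of_fintype]
    refine mul_ne_zero (inv_ne_zero (by exact_mod_cast Nat.card_pos.ne')) ?_
    have h1 : ∀ g : G, ρ.character g * (starRingEnd ℂ) (ρ.character g)
        = ((Complex.normSq (ρ.character g) : ℝ) : ℂ) := fun g => Complex.mul_conj _
    simp_rw [h1]
    rw [← Complex.ofReal_sum]
    have h2 : 0 < ∑ g : G, Complex.normSq (ρ.character g) := by
      refine Finset.sum_pos' (fun g _ => Complex.normSq_nonneg _) ⟨1, Finset.mem_univ _, ?_⟩
      rw [char_one, Complex.normSq_pos]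
      exact_mod_cast hV.ne'
    exact_mod_cast h2.ne'
  have hfrob := frobenius U ρ.character (char_class ρ) (fun x => (lam x : ℂ))
  rw [← hU] at hfrob
  rw [hfrob, finsum_eq_sum_of_fintype] at hpos
  have hsum : ∑ h : U, ρ.character h * (starRingEnd ℂ) (lam h : ℂ) ≠ 0 :=
    right_ne_zero_of_mul hpos
  set P : V →ₗ[ℂ] V := ∑ h : U, (lam h⁻¹ : ℂ) • ρ h with hP
  have htr : LinearMap.trace ℂ V P = ∑ h : U, ρ.character h * (starRingEnd ℂ) (lam h : ℂ) := by
    rw [hP, map_sum]
    refine Finset.sum_congr rfl fun h _ => ?_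
    rw [map_smul, smul_eq_mul, mul_comm, conj_unit_of_finite]
    rfl
  have hP0 : P ≠ 0 := by
    intro h0
    apply hsum
    rw [← htr, h0, map_zero]
  obtain ⟨w, hw⟩ : ∃ w, P w ≠ 0 := by
    by_contra! hcon
    exact hP0 (LinearMap.ext hcon)
  refine ⟨P w, hw, ?_⟩
  have hUle : U ≤ lineStab ρ (P w) := by
    intro u hu
    refine ⟨lam ⟨u, hu⟩, Units.ne_zero _, ?_⟩
    rw [hP]
    simp only [LinearMap.sum_apply, LinearMap.smul_apply, map_sum, map_smul]
    rw [Finset.smul_sum]
    refine Fintype.sum_equiv (Equiv.mulLeft (⟨u, hu⟩ : U)) _ _ fun h => ?_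
    rw [smul_smul, Equiv.coe_mulLeft, mul_inv_rev, map_mul, Units.val_mul, Subgroup.coe_mul,
      map_mul, Module.End.mul_apply]
    congr 1
    rw [map_inv lam ⟨u, hu⟩, mul_left_comm, Units.mul_inv, mul_one]
  have h1 := finrank_le_index hρ hw (D := lineStab ρ (P w)) le_rfl
  have h2 : (lineStab ρ (P w)).index ≤ U.index :=
    Nat.le_of_dvd (Nat.pos_of_ne_zero (Subgroup.index_ne_zero_of_finite))
      (Subgroup.index_dvd_of_le hUle)
  omega

end rep

theorem allPMonomial_iff {G : Type u} [Group G] [Finite G] :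
    AllPMonomial G ↔ ∀ (V : Type u) (_ : AddCommGroup V) (_ : Module ℂ V)
      (_ : FiniteDimensional ℂ V) (ρ : Representation ℂ G V),
      ρ.IsIrreducible → HasPVector ρ → MonoRep ρ := by
  constructor
  · intro h V _ _ _ ρ hρ hp
    apply monoRep_of_isMonomial hρ
    apply h
    exact ⟨⟨V, _, _, inferInstance, ρ, hρ, rfl⟩, (pchar_iff ρ).2 hp⟩
  · rintro h χ ⟨⟨V, i1, i2, i3, ρ, hρ, rfl⟩, hp⟩
    exact isMonomial_of_monoRep hρ (h V i1 i2 i3 ρ hρ ((pchar_iff ρ).1 hp))

end Pool.Agent.Helper89.PChar
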