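import Pool.Agent.Helper89.PCharRepTwo

/-!
# Small constituents of permutation representations; the factorisation theorem;
# the soluble case
-/

set_option autoImplicit false

universe u

namespace Pool.Agent.Helper89.PChar

open Representation Module
open scoped commutatorElement

section perm

variable {G : Type u} [Group G]

/-- the permutation representation on functions on the coset space -/
noncomputable def permRep (U : Subgroup G) : Representation ℂ G (G ⧸ U → ℂ) where
  toFun a := LinearMap.funLeft ℂ ℂ fun x : G ⧸ U => a⁻¹ • x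
  map_one' := by
    ext f x
    simp [LinearMap.funLeft_apply]
  map_mul' a b := by
    ext f x
    simp [LinearMap.funLeft_apply, mul_smul]

theorem permRep_apply (U : Subgroup G) (a : G) (f : G ⧸ U → ℂ) (x : G ⧸ U) :
    permRep U a f x = f (a⁻¹ • x) := rfl

theorem exists_small_irr [Finite G] (U H : Subgroup G) (a : G)
    (ha : ∀ u ∈ U, ∀ h ∈ H, a ≠ u * h) :
    ∃ (V : Type u) (_ : AddCommGroup V) (_ : Module ℂ V) (_ : FiniteDimensional ℂ V)
      (ρ : Representation ℂ G V), ρ.IsIrreducible ∧ finrank ℂ V < U.index ∧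
        (∃ v : V, v ≠ 0 ∧ ∀ h ∈ H, ρ h v = v) ∧ ∀ v : V, (∀ g : G, ρ g v = v) → v = 0 := by
  classical
  let _ := Fintype.ofFinite (G ⧸ U)
  set X := G ⧸ U with hX
  set s : (X → ℂ) →ₗ[ℂ] ℂ := ∑ x : X, LinearMap.proj x with hs
  have hsapp : ∀ f : X → ℂ, s f = ∑ x, f x := by
    intro f
    simp [hs]
  have hinv : ∀ (g : G) (f : X → ℂ), s (permRep U g f) = s f := by
    intro g f
    rw [hsapp, hsapp]
    exact Fintype.sum_equiv (MulAction.toPerm g⁻¹) _ _ fun x => rfl
  set Z₀ : Submodule ℂ (X → ℂ) := LinearMap.ker s with hZ₀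
  have hZinv : ∀ g : G, ∀ v ∈ Z₀, permRep U g v ∈ Z₀ := by
    intro g v hv
    rw [hZ₀, LinearMap.mem_ker] at hv ⊢
    rw [hinv, hv]
  have hXpos : (Fintype.card X : ℂ) ≠ 0 := by
    have : 0 < Fintype.card X := Fintype.card_pos
    exact_mod_cast this.ne'
  -- the invariant function
  set x0 : X := QuotientGroup.mk 1 with hx0
  set f1 : X → ℂ := fun x => if ∃ h ∈ H, h • x0 = x then 1 else 0 with hf1
  set c : ℂ := (∑ x, f1 x) / Fintype.card X with hc
  set f0 : X → ℂ := fun x => f1 x - c with hf0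
  have hf0Z : f0 ∈ Z₀ := by
    rw [hZ₀, LinearMap.mem_ker, hsapp, hf0]
    simp only [Finset.sum_sub_distrib, Finset.sum_const, Finset.card_univ, nsmul_eq_mul]
    rw [hc]
    field_simp
    ring
  have hf0fix : ∀ h ∈ H, permRep U h f0 = f0 := by
    intro h hh
    funext x
    rw [permRep_apply, hf0]
    simp only
    congr 1
    rw [hf1]
    simp only
    have : (∃ k ∈ H, k • x0 = h⁻¹ • x) ↔ ∃ k ∈ H, k • x0 = x := by
      constructor
      · rintro ⟨k, hk, hkx⟩
        refine ⟨h * k, H.mul_mem hh hk, ?_⟩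
        rw [mul_smul, hkx, smul_inv_smul]
      · rintro ⟨k, hk, hkx⟩
        refine ⟨h⁻¹ * k, H.mul_mem (H.inv_mem hh) hk, ?_⟩
        rw [mul_smul, hkx]
    simp only [this]
  have hf0ne : f0 ≠ 0 := by
    intro h0
    have h1 : f0 x0 = 0 := by rw [h0]; rfl
    have h2 : f0 (QuotientGroup.mk a⁻¹) = 0 := by rw [h0]; rfl
    have h3 : f1 x0 = 1 := by
      rw [hf1]
      simp only
      rw [if_pos ⟨1, H.one_mem, one_smul _ _⟩]
    have h4 : f1 (QuotientGroup.mk a⁻¹) = 0 := by
      rw [hf1]
      simp only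
      rw [if_neg]
      rintro ⟨h, hh, hha⟩
      rw [hx0] at hha
      have h5 : (QuotientGroup.mk (h * 1) : X) = QuotientGroup.mk a⁻¹ := hha
      rw [QuotientGroup.eq] at h5
      apply ha _ (U.inv_mem h5) _ (H.inv_mem hh)
      group
    rw [hf0] at h1 h2
    simp only [h3, h4] at h1 h2
    have h6 : (1 : ℂ) = 0 := by linear_combination h1 - h2
    exact one_ne_zero h6
  obtain ⟨Z, hZ, hZle, hirr, w, hwZ, hw0, hwfix⟩ :=
    exists_irr_sub (permRep U) H Z₀ hZinv f0 hf0Z hf0ne hf0fix
  refine ⟨Z, inferInstance, inferInstance, inferInstance, restr (permRep U) Z hZ, hirr, ?_, ?_, ?_⟩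
  · have h1 : finrank ℂ Z ≤ finrank ℂ Z₀ := Submodule.finrank_mono hZle
    have h2 : finrank ℂ Z₀ < finrank ℂ (X → ℂ) := by
      apply Submodule.finrank_lt
      intro htop
      have h3 : (fun _ => 1 : X → ℂ) ∈ Z₀ := by rw [htop]; trivial
      rw [hZ₀, LinearMap.mem_ker, hsapp] at h3
      simp only [Finset.sum_const, Finset.card_univ, nsmul_eq_mul, mul_one] at h3
      exact hXpos h3
    have h3 : finrank ℂ (X → ℂ) = U.index := by
      rw [Module.finrank_fintype_fun_eq_card, Subgroup.index, Fintype.card_eq_nat_card]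
    omega
  · refine ⟨⟨w, hwZ⟩, fun h => hw0 (congrArg Subtype.val h), fun h hh => ?_⟩
    exact Subtype.ext (hwfix h hh)
  · rintro ⟨v, hv⟩ hfix
    have h1 : ∀ g : G, permRep U g v = v := fun g => congrArg Subtype.val (hfix g)
    have h2 : ∀ x y : X, v x = v y := by
      intro x y
      obtain ⟨g, hg⟩ := MulAction.exists_smul_eq G y x
      have h3 := congrFun (h1 g) x
      rw [permRep_apply, ← hg, inv_smul_smul] at h3
      rw [← hg, ← h3]
    have h3 : v ∈ Z₀ := hZle hv
    rw [hZ₀, LinearMap.mem_ker, hsapp] at h3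
    apply Subtype.ext
    funext x
    have h4 : ∑ y, v y = Fintype.card X * v x := by
      rw [Finset.sum_congr rfl fun y _ => h2 y x]
      simp
    rw [h4] at h3
    rcases mul_eq_zero.1 h3 with h5 | h5
    · exact absurd h5 hXpos
    · exact h5

end perm

/-- **Factorisation theorem.** Let all P-characters of `G` be monomial and `N` a perfect normal
subgroup. If `U` has minimal index among the subgroups not containing `N`, then `G = U H` for all
maximal subgroups `H` not containing `N`. -/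
theorem factorisation {G : Type u} [Group G] [Finite G] (hG : AllPMonomial G) (N : Subgroup G)
    [hN : N.Normal] (hperf : ⁅N, N⁆ = N) (U : Subgroup G)
    (hmin : ∀ U' : Subgroup G, ¬ N ≤ U' → U.index ≤ U'.index) (H : Subgroup G)
    (hH : IsCoatom H) (hNH : ¬ N ≤ H) (a : G) : ∃ u ∈ U, ∃ h ∈ H, a = u * h := by
  by_contra! hcon
  obtain ⟨V, i1, i2, i3, ρ, hρ, hlt, ⟨v, hv, hvfix⟩, hno⟩ := exists_small_irr U H a
    (fun u hu h hh => hcon u hu h hh)
  obtain ⟨w, hw, hfin⟩ := allPMonomial_iff.1 hG V i1 i2 i3 ρ hρ ⟨H, hH, v, hv, hvfix⟩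
  have hNnot : ¬ N ≤ lineStab ρ w := by
    intro hle
    have h1 : N ≤ fixer ρ v := fix_all_of_fix_one hρ N hw (perfect_le_fixer hperf hle) v
    have h2 : H ≤ fixer ρ v := fun h hh => hvfix h hh
    have h3 : H ⊔ N = ⊤ := by
      apply hH.2
      exact left_lt_sup.2 hNH
    have h4 : (⊤ : Subgroup G) ≤ fixer ρ v := by
      rw [← h3]
      exact sup_le h2 h1
    exact hv (hno v fun g => h4 (Subgroup.mem_top g))
  have h1 := hmin _ hNnot
  omega

end Pool.Agent.Helper89.PChar
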