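import Pool.Agent.Helper89.PCharRep

/-!
# More representation theory: irreducible constituents with fixed vectors, inflation,
# perfect groups acting on lines, coordinate functionals
-/

set_option autoImplicit false

universe u

namespace Pool.Agent.Helper89.PChar

open Representation Module
open scoped commutatorElement

section rep

variable {G : Type u} [Group G] {V : Type u} [AddCommGroup V] [Module ℂ V]

/-- restriction of a representation to an invariant subspace -/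
def restr (ρ : Representation ℂ G V) (Z : Submodule ℂ V)
    (hZ : ∀ g : G, ∀ v ∈ Z, ρ g v ∈ Z) : Representation ℂ G Z :=
  Subrepresentation.toRepresentation ⟨Z, fun g v hv => hZ g v hv⟩

theorem restr_apply (ρ : Representation ℂ G V) (Z : Submodule ℂ V)
    (hZ : ∀ g : G, ∀ v ∈ Z, ρ g v ∈ Z) (g : G) (z : Z) :
    ((restr ρ Z hZ g z : Z) : V) = ρ g z := rfl

/-- an invariant subspace has an invariant complement -/
theorem exists_compl [Finite G] (ρ : Representation ℂ G V) (Z : Submodule ℂ V)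
    (hZ : ∀ g : G, ∀ v ∈ Z, ρ g v ∈ Z) :
    ∃ Y : Submodule ℂ V, (∀ g : G, ∀ v ∈ Y, ρ g v ∈ Y) ∧ IsCompl Z Y := by
  have hss : Representation.IsSemisimpleRepresentation ρ := inferInstance
  obtain ⟨Y, hY⟩ := hss.exists_isCompl (⟨Z, fun g v hv => hZ g v hv⟩ : Subrepresentation ρ)
  refine ⟨Y.toSubmodule, fun g v hv => Y.apply_mem_toSubmodule g hv, ?_⟩
  have h1 := hY.inf_eq_bot
  have h2 := hY.sup_eq_top
  constructor
  · rw [disjoint_iff]
    exact congrArg Subrepresentation.toSubmodule h1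
  · rw [codisjoint_iff]
    exact congrArg Subrepresentation.toSubmodule h2

/-- every invariant subspace with a nonzero vector fixed by `K` contains an irreducible one -/
theorem exists_irr_sub [Finite G] [FiniteDimensional ℂ V] (ρ : Representation ℂ G V)
    (K : Subgroup G) (Z₀ : Submodule ℂ V) (hZ₀ : ∀ g : G, ∀ v ∈ Z₀, ρ g v ∈ Z₀)
    (v : V) (hv : v ∈ Z₀) (hv0 : v ≠ 0) (hfix : ∀ k ∈ K, ρ k v = v) :
    ∃ (Z : Submodule ℂ V) (hZ : ∀ g : G, ∀ v ∈ Z, ρ g v ∈ Z), Z ≤ Z₀ ∧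
      (restr ρ Z hZ).IsIrreducible ∧ ∃ w ∈ Z, w ≠ 0 ∧ ∀ k ∈ K, ρ k w = w := by
  classical
  -- choose `Z` of minimal dimension
  let P : ℕ → Prop := fun n => ∃ Z : Submodule ℂ V, (∀ g : G, ∀ v ∈ Z, ρ g v ∈ Z) ∧ Z ≤ Z₀ ∧
    finrank ℂ Z = n ∧ ∃ w ∈ Z, w ≠ 0 ∧ ∀ k ∈ K, ρ k w = w
  have hex : ∃ n, P n := ⟨_, Z₀, hZ₀, le_rfl, rfl, v, hv, hv0, hfix⟩
  obtain ⟨Z, hZ, hZle, hfr, w, hwZ, hw0, hwfix⟩ := Nat.find_spec hex
  have hmin : ∀ Y : Submodule ℂ V, (∀ g : G, ∀ v ∈ Y, ρ g v ∈ Y) → Y ≤ Z →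
      (∃ w ∈ Y, w ≠ 0 ∧ ∀ k ∈ K, ρ k w = w) → Y = Z := by
    intro Y hY hYZ hw
    have h1 : Nat.find hex ≤ finrank ℂ Y :=
      Nat.find_min' hex ⟨Y, hY, hYZ.trans hZle, rfl, hw⟩
    rw [← hfr] at h1
    exact Submodule.eq_of_le_of_finrank_le hYZ h1
  refine ⟨Z, hZ, hZle, ?_, w, hwZ, hw0, hwfix⟩
  rw [irr_iff]
  refine ⟨⟨⟨w, hwZ⟩, 0, fun h => hw0 (congrArg Subtype.val h)⟩, ?_⟩
  intro Y' hY'
  -- push forward to `V`
  set Y : Submodule ℂ V := Y'.map Z.subtype with hYdef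
  have hYinv : ∀ g : G, ∀ v ∈ Y, ρ g v ∈ Y := by
    rintro g _ ⟨y, hy, rfl⟩
    exact ⟨restr ρ Z hZ g y, hY' g y hy, rfl⟩
  have hYZ : Y ≤ Z := by
    rintro _ ⟨y, _, rfl⟩
    exact y.2
  obtain ⟨C, hC, hcompl⟩ := exists_compl ρ Y hYinv
  have hw1 : w ∈ Y ⊔ C := by
    rw [hcompl.sup_eq_top]
    trivial
  obtain ⟨y, hy, c, hc, hyc⟩ := Submodule.mem_sup.1 hw1
  have hcZ : c ∈ Z := by
    have : c = w - y := by rw [← hyc]; abel
    rw [this]
    exact Z.sub_mem hwZ (hYZ hy)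
  have hfixboth : ∀ k ∈ K, ρ k y = y ∧ ρ k c = c := by
    intro k hk
    have h1 : ρ k y + ρ k c = y + c := by
      rw [← map_add, hyc, hwfix k hk]
    have h2 : ρ k y - y = c - ρ k c := by
      rw [sub_eq_sub_iff_add_eq_add, h1]
      abel
    have h3 : ρ k y - y ∈ Y ⊓ C := by
      refine ⟨Y.sub_mem (hYinv k y hy) hy, ?_⟩
      rw [SetLike.mem_coe, h2]
      exact C.sub_mem hc (hC k c hc)
    rw [hcompl.inf_eq_bot, Submodule.mem_bot] at h3
    refine ⟨sub_eq_zero.1 h3, ?_⟩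
    rw [h3] at h2
    exact (sub_eq_zero.1 h2.symm).symm
  by_cases hy0 : y = 0
  · -- then `w = c ∈ C ⊓ Z`, and `C ⊓ Z = Z`
    left
    have h1 : C ⊓ Z = Z := by
      apply hmin (C ⊓ Z) (fun g v hv => ⟨hC g v hv.1, hZ g v hv.2⟩) inf_le_right
      refine ⟨c, ⟨hc, hcZ⟩, ?_, fun k hk => (hfixboth k hk).2⟩
      rintro rfl
      apply hw0
      rw [← hyc, hy0, add_zero]
    have h2 : Z ≤ C := by
      rw [← h1]
      exact inf_le_left
    have h3 : Y = ⊥ := by
      rw [eq_bot_iff, ← hcompl.inf_eq_bot]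
      exact le_inf le_rfl (hYZ.trans h2)
    rw [eq_bot_iff]
    intro z hz
    have : (z : V) ∈ Y := ⟨z, hz, rfl⟩
    rw [h3, Submodule.mem_bot] at this
    rw [Submodule.mem_bot]
    exact Subtype.ext this
  · right
    have h1 : Y = Z := hmin Y hYinv hYZ ⟨y, hy, hy0, fun k hk => (hfixboth k hk).1⟩
    rw [eq_top_iff]
    rintro ⟨z, hz⟩ _
    rw [← h1] at hz
    obtain ⟨z', hz', hzz⟩ := hz
    have : z' = ⟨z, by rw [← hzz]; exact z'.2⟩ := Subtype.ext hzz
    rwa [this] at hz'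

/-! ### Perfect groups acting on a line -/

/-- the vectorwise stabiliser -/
def fixer (ρ : Representation ℂ G V) (v : V) : Subgroup G where
  carrier := {g | ρ g v = v}
  one_mem' := by simp
  mul_mem' := by
    intro a b ha hb
    simp only [Set.mem_ofPred_eq] at ha hb ⊢
    rw [map_mul, Module.End.mul_apply, hb, ha]
  inv_mem' := by
    intro a ha
    simp only [Set.mem_ofPred_eq] at ha ⊢
    conv_lhs => rw [← ha]
    rw [← Module.End.mul_apply, ← map_mul]
    simp

theorem mem_fixer {ρ : Representation ℂ G V} {v : V} {g : G} :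
    g ∈ fixer ρ v ↔ ρ g v = v := Iff.rfl

theorem commutator_lineStab_le (ρ : Representation ℂ G V) (v : V) :
    ⁅lineStab ρ v, lineStab ρ v⁆ ≤ fixer ρ v := by
  rw [Subgroup.commutator_le]
  rintro a ⟨c, hc, hc'⟩ b ⟨d, hd, hd'⟩
  rw [mem_fixer]
  have h1 : ρ (a * b) v = (c * d) • v := by
    rw [map_mul, Module.End.mul_apply, hd', map_smul, hc', smul_smul, mul_comm]
  have h2 : ρ (b * a) v = (c * d) • v := by
    rw [map_mul, Module.End.mul_apply, hc', map_smul, hd', smul_smul]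
  have h3 : ⁅a, b⁆ * (b * a) = a * b := by
    rw [commutatorElement_def]
    group
  have h4 : ρ ⁅a, b⁆ ((c * d) • v) = (c * d) • v := by
    rw [← h2, ← Module.End.mul_apply, ← map_mul, h3, h1, h2]
  rw [map_smul] at h4
  exact smul_right_injective V (mul_ne_zero hc hd) h4

theorem perfect_le_fixer {ρ : Representation ℂ G V} {v : V} {S : Subgroup G}
    (hS : ⁅S, S⁆ = S) (h : S ≤ lineStab ρ v) : S ≤ fixer ρ v := by
  calc S = ⁅S, S⁆ := hS.symm
    _ ≤ ⁅lineStab ρ v, lineStab ρ v⁆ := Subgroup.commutator_mono h h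
    _ ≤ fixer ρ v := commutator_lineStab_le ρ v

/-- the vectors fixed by a normal subgroup form an invariant subspace -/
def fixSub (ρ : Representation ℂ G V) (N : Subgroup G) : Submodule ℂ V where
  carrier := {v | ∀ n ∈ N, ρ n v = v}
  zero_mem' := fun n _ => map_zero _
  add_mem' := fun {a b} ha hb n hn => by rw [map_add, ha n hn, hb n hn]
  smul_mem' := fun c v hv n hn => by rw [map_smul, hv n hn]

theorem fixSub_inv (ρ : Representation ℂ G V) (N : Subgroup G) [hN : N.Normal] (g : G) (v : V)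
    (hv : v ∈ fixSub ρ N) : ρ g v ∈ fixSub ρ N := by
  intro n hn
  have h1 : g⁻¹ * n * g ∈ N := by
    have := hN.conj_mem n hn g⁻¹
    simpa using this
  have h2 := hv _ h1
  calc ρ n (ρ g v) = ρ g (ρ (g⁻¹ * n * g) v) := by
        rw [← Module.End.mul_apply, ← Module.End.mul_apply, ← map_mul, ← map_mul]
        congr 2
        group
    _ = ρ g v := by rw [h2]

theorem fix_all_of_fix_one {ρ : Representation ℂ G V} (hρ : ρ.IsIrreducible) (N : Subgroup G)
    [hN : N.Normal] {v : V} (hv : v ≠ 0) (hfix : N ≤ fixer ρ v) (w : V) : N ≤ fixer ρ w := by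
  rcases ((irr_iff ρ).1 hρ).2 (fixSub ρ N) (fun g v hv => fixSub_inv ρ N g v hv) with h | h
  · exfalso
    apply hv
    have h1 : v ∈ fixSub ρ N := fun n hn => hfix hn
    rw [h] at h1
    simpa using h1
  · intro n hn
    have h1 : w ∈ fixSub ρ N := by
      rw [h]
      trivial
    exact h1 n hn

/-! ### Coordinate functional -/

theorem exists_coord [Finite G] {ρ : Representation ℂ G V} (hρ : ρ.IsIrreducible) {v : V}
    (hv : v ≠ 0) (hfin : finrank ℂ V = (lineStab ρ v).index) :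
    ∃ φ : V →ₗ[ℂ] ℂ, φ v = 1 ∧ ∀ g : G, g ∉ lineStab ρ v → φ (ρ g v) = 0 := by
  classical
  obtain ⟨D, hD⟩ : ∃ D, D = lineStab ρ v := ⟨_, rfl⟩
  rw [← hD] at hfin ⊢
  let _ := Fintype.ofFinite G
  let _ := Fintype.ofFinite (G ⧸ D)
  have hcard : Fintype.card (G ⧸ D) = finrank ℂ V := by
    rw [hfin, Subgroup.index, Fintype.card_eq_nat_card]
  have hspan : ⊤ ≤ Submodule.span ℂ (Set.range (lineVec ρ v D)) :=
    (span_lineVec hρ hv hD.le).ge
  set b := basisOfTopLeSpanOfCardEqFinrank (lineVec ρ v D) hspan hcard with hb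
  have hbx : ∀ x, b x = lineVec ρ v D x := by
    intro x
    rw [hb, coe_basisOfTopLeSpanOfCardEqFinrank]
  have hgen : ∀ g : G, ∃ c : ℂ, c ≠ 0 ∧ ρ g v = c • b (QuotientGroup.mk g) := by
    intro g
    have hd : (Quotient.out (QuotientGroup.mk g : G ⧸ D))⁻¹ * g ∈ D := by
      rw [← QuotientGroup.eq]
      simp
    rw [hD] at hd
    obtain ⟨c, hc, hc'⟩ := hd
    refine ⟨c, hc, ?_⟩
    rw [hbx]
    unfold lineVec
    rw [hD, ← map_smul, ← hc', ← Module.End.mul_apply, ← map_mul]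
    congr 2
    group
  obtain ⟨c, hc, hc'⟩ := hgen 1
  rw [map_one, Module.End.one_apply] at hc'
  refine ⟨c⁻¹ • b.coord (QuotientGroup.mk 1), ?_, ?_⟩
  · conv_lhs => rw [hc']
    rw [map_smul, LinearMap.smul_apply, Basis.coord_apply, Basis.repr_self,
      Finsupp.single_eq_same, smul_smul, smul_eq_mul, mul_one, mul_inv_cancel₀ hc]
  · intro g hg
    obtain ⟨d, hd, hd'⟩ := hgen g
    rw [hd', map_smul, LinearMap.smul_apply, Basis.coord_apply, Basis.repr_self,
      Finsupp.single_eq_of_ne, smul_zero, smul_zero]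
    intro h
    apply hg
    rw [eq_comm, QuotientGroup.eq] at h
    simpa using h

end rep

/-! ### Inflation -/

section infl

variable {G Γ : Type u} [Group G] [Group Γ] {V : Type u} [AddCommGroup V] [Module ℂ V]

theorem irr_comp_iff {φ : G →* Γ} (hφ : Function.Surjective φ) (ρ : Representation ℂ Γ V) :
    Representation.IsIrreducible (ρ.comp φ) ↔ ρ.IsIrreducible := by
  rw [irr_iff, irr_iff]
  refine and_congr_right fun _ => forall_congr' fun Z => ?_
  refine imp_congr_left ?_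
  constructor
  · intro h γ v hv
    obtain ⟨g, rfl⟩ := hφ γ
    exact h g v hv
  · intro h g v hv
    exact h (φ g) v hv

theorem lineStab_comp (φ : G →* Γ) (ρ : Representation ℂ Γ V) (v : V) :
    lineStab (ρ.comp φ) v = (lineStab ρ v).comap φ := rfl

theorem monoRep_comp_iff {φ : G →* Γ} (hφ : Function.Surjective φ) (ρ : Representation ℂ Γ V) :
    MonoRep (ρ.comp φ) ↔ MonoRep ρ := by
  unfold MonoRep
  refine exists_congr fun v => and_congr_right fun _ => ?_
  rw [lineStab_comp, Subgroup.index_comap_of_surjective _ hφ]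

theorem hasPVector_comp {φ : G →* Γ} (hφ : Function.Surjective φ) {ρ : Representation ℂ Γ V}
    (h : HasPVector ρ) : HasPVector (ρ.comp φ) := by
  obtain ⟨H, hH, v, hv, hfix⟩ := h
  refine ⟨H.comap φ, ?_, v, hv, fun h hh => hfix _ hh⟩
  exact Subgroup.isCoatom_comap_of_surjective hφ hH

end infl

theorem AllPMonomial.of_surjective {G Γ : Type u} [Group G] [Group Γ] [Finite G] [Finite Γ]
    {φ : G →* Γ} (hφ : Function.Surjective φ) (h : AllPMonomial G) : AllPMonomial Γ := by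
  rw [allPMonomial_iff] at h ⊢
  intro V _ _ _ ρ hρ hp
  rw [← monoRep_comp_iff hφ]
  exact h V _ _ inferInstance (ρ.comp φ) ((irr_comp_iff hφ ρ).2 hρ) (hasPVector_comp hφ hp)

end Pool.Agent.Helper89.PChar
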