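import Pool.Agent.Helper89.PCharMaximal
import Pool.Agent.Helper89.PCharMeet

/-!
# From a minimal normal subgroup to the situation `Setup`, and the reduction to the
# almost simple group `N_G(S) / C_G(S)`
-/

set_option autoImplicit false

universe u

namespace Pool.Agent.Helper89.PChar

open Representation Module
open scoped commutatorElement

section setup

variable {G : Type u} [Group G]

theorem three_of_simple [Finite G] (S : Subgroup G)
    (hsimple : ∀ T : Subgroup G, T ≤ S → (∀ s ∈ S, ∀ t ∈ T, s * t * s⁻¹ ∈ T) → T = ⊥ ∨ T = S)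
    (hna : ∃ x ∈ S, ∃ y ∈ S, x * y ≠ y * x) (T : Subgroup S) (hT : T ≠ ⊤) : 3 ≤ T.index := by
  by_contra hcon
  have h0 : T.index ≠ 0 := Subgroup.index_ne_zero_of_finite
  have h1 : T.index ≠ 1 := fun h => hT (Subgroup.index_eq_one.1 h)
  have h2 : T.index = 2 := by omega
  have hn : T.Normal := Subgroup.normal_of_index_eq_two h2
  rcases hsimple (T.map S.subtype) (by rintro _ ⟨t, _, rfl⟩; exact t.2) (by
    rintro s hs _ ⟨t, ht, rfl⟩
    exact ⟨⟨s, hs⟩ * t * ⟨s, hs⟩⁻¹, hn.conj_mem t ht ⟨s, hs⟩, rfl⟩) with h3 | h3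
  · rw [Subgroup.map_eq_bot_iff_of_injective _ S.subtype_injective] at h3
    rw [h3, Subgroup.index_bot] at h2
    have hp : Fact (Nat.Prime 2) := ⟨Nat.prime_two⟩
    have hcyc : IsCyclic S := isCyclic_of_prime_card h2
    obtain ⟨x, hx, y, hy, hxy⟩ := hna
    apply hxy
    obtain ⟨g, hg⟩ := hcyc.exists_generator
    obtain ⟨m, hm⟩ := hg ⟨x, hx⟩
    obtain ⟨n, hn'⟩ := hg ⟨y, hy⟩
    have h4 : (⟨x, hx⟩ : S) * ⟨y, hy⟩ = ⟨y, hy⟩ * ⟨x, hx⟩ := by
      rw [← hm, ← hn']
      exact ((Commute.refl g).zpow_zpow m n).eq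
    exact congrArg Subtype.val h4
  · apply hT
    rw [eq_top_iff]
    intro s _
    have h4 : (s : G) ∈ T.map S.subtype := by rw [h3]; exact s.2
    obtain ⟨t, ht, hts⟩ := h4
    rwa [Subtype.ext hts] at ht

/-- A minimal normal insoluble subgroup gives the situation `Setup`. -/
theorem exists_setup [Finite G] (M : Subgroup G) [hM : M.Normal] (hMns : ¬ Group.IsSolvable M)
    (hmin : ∀ T : Subgroup G, T.Normal → T ≤ M → T = ⊥ ∨ T = M) :
    ∃ S B : Subgroup G, Setup S B M ∧ (∃ x ∈ S, ∃ y ∈ S, x * y ≠ y * x) ∧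
      (∀ m ∈ M, ∀ s ∈ S, m * s * m⁻¹ ∈ S) := by
  classical
  have hM1 : M ≠ ⊥ := by
    rintro rfl
    apply hMns
    infer_instance
  -- choose `S`
  let Q : Subgroup G → Prop := fun S => S ≤ M ∧ S ≠ ⊥ ∧ ∀ m ∈ M, ∀ s ∈ S, m * s * m⁻¹ ∈ S
  let P : ℕ → Prop := fun n => ∃ S : Subgroup G, Q S ∧ Nat.card S = n
  have hex : ∃ n, P n := ⟨_, M, ⟨le_rfl, hM1, fun m hm s hs =>
    M.mul_mem (M.mul_mem hm hs) (M.inv_mem hm)⟩, rfl⟩
  obtain ⟨S, ⟨hSM, hS1, hSinv⟩, hScard⟩ := Nat.find_spec hex
  have hSmin : ∀ T : Subgroup G, T ≤ S → (∀ m ∈ M, ∀ t ∈ T, m * t * m⁻¹ ∈ T) → T = ⊥ ∨ T = S := by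
    intro T hTS hT
    by_cases hbot : T = ⊥
    · exact Or.inl hbot
    right
    have h1 : Nat.find hex ≤ Nat.card T := Nat.find_min' hex ⟨T, ⟨hTS.trans hSM, hbot, hT⟩, rfl⟩
    rw [← hScard] at h1
    exact Subgroup.eq_of_le_of_card_ge hTS h1
  let B : Subgroup G := Subgroup.normalizer (S : Set G)
  have hBmem : ∀ g, g ∈ B ↔ ∀ n, n ∈ S ↔ g * n * g⁻¹ ∈ S := fun g => Iff.rfl
  have hconj : ∀ b ∈ B, ∀ s ∈ S, b * s * b⁻¹ ∈ S := fun b hb s hs => ((hBmem b).1 hb s).1 hs
  have hMB : M ≤ B := by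
    intro m hm
    rw [hBmem]
    intro n
    constructor
    · exact fun hn => hSinv m hm n hn
    · intro hn
      have := hSinv m⁻¹ (M.inv_mem hm) _ hn
      have e : m⁻¹ * (m * n * m⁻¹) * m⁻¹⁻¹ = n := by group
      rwa [e] at this
  -- conjugates
  have hconjM : ∀ g : G, ∀ s ∈ S, g * s * g⁻¹ ∈ M := fun g s hs => hM.conj_mem s (hSM hs) g
  have hcomm : ∀ g : G, g ∉ B → ∀ s ∈ S, ∀ t ∈ S, Commute s (g * t * g⁻¹) := by
    intro g hg
    let Sg : Subgroup G := S.map (MulAut.conj g).toMonoidHom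
    have hSg : ∀ x, x ∈ Sg ↔ ∃ t ∈ S, g * t * g⁻¹ = x := by
      intro x
      simp [Sg, Subgroup.mem_map]
    have hSgM : ∀ m ∈ M, ∀ x ∈ Sg, m * x * m⁻¹ ∈ Sg := by
      intro m hm x hx
      rw [hSg] at hx ⊢
      obtain ⟨t, ht, rfl⟩ := hx
      refine ⟨(g⁻¹ * m * g) * t * (g⁻¹ * m * g)⁻¹, hSinv _ ?_ t ht, by group⟩
      have := hM.conj_mem m hm g⁻¹
      simpa using this
    have hint : S ⊓ Sg = ⊥ := by
      rcases hSmin (S ⊓ Sg) inf_le_left (fun m hm t ht =>
        ⟨hSinv m hm t ht.1, hSgM m hm t ht.2⟩) with h1 | h1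
      · exact h1
      · exfalso
        apply hg
        have h2 : S ≤ Sg := inf_eq_left.1 h1
        have h3 : Nat.card Sg = Nat.card S :=
          Subgroup.card_map_of_injective (MulAut.conj g).injective
        have h4 : S = Sg := Subgroup.eq_of_le_of_card_ge h2 h3.le
        rw [hBmem]
        intro n
        constructor
        · intro hn
          have : g * n * g⁻¹ ∈ Sg := (hSg _).2 ⟨n, hn, rfl⟩
          rwa [← h4] at this
        · intro hn
          rw [h4, hSg] at hn
          obtain ⟨t, ht, hte⟩ := hn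
          have : t = n := by
            have h5 := congrArg (fun x => g⁻¹ * x * g) hte
            simpa [mul_assoc] using h5
          rwa [← this]
    intro s hs t ht
    have hx : g * t * g⁻¹ ∈ Sg := (hSg _).2 ⟨t, ht, rfl⟩
    set x := g * t * g⁻¹ with hxdef
    have h1 : s * x * s⁻¹ * x⁻¹ ∈ S ⊓ Sg := by
      refine ⟨?_, ?_⟩
      · have h2 := hSinv x (hconjM g t ht) s⁻¹ (S.inv_mem hs)
        have h3 := S.mul_mem hs h2
        have e : s * (x * s⁻¹ * x⁻¹) = s * x * s⁻¹ * x⁻¹ := by group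
        rwa [e] at h3
      · exact Sg.mul_mem (hSgM s (hSM hs) x hx) (Sg.inv_mem hx)
    rw [hint, Subgroup.mem_bot] at h1
    have h2 : ⁅s, x⁆ = 1 := by rw [commutatorElement_def]; exact h1
    exact commutatorElement_eq_one_iff_mul_comm.1 h2
  -- `M` is the normal closure of `S`
  have hclosure : ∀ K : Subgroup G, (∀ g : G, ∀ s ∈ S, g * s * g⁻¹ ∈ K) → M ≤ K := by
    intro K hK
    have h1 : Subgroup.normalClosure (S : Set G) = M := by
      have h2 : Subgroup.normalClosure (S : Set G) ≤ M := Subgroup.normalClosure_le_normal hSM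
      rcases hmin _ Subgroup.normalClosure_normal h2 with h3 | h3
      · exfalso
        apply hS1
        rw [eq_bot_iff, ← h3]
        exact Subgroup.subset_normalClosure
      · exact h3
    rw [← h1, Subgroup.normalClosure, Subgroup.closure_le]
    intro x hx
    rw [Group.mem_conjugatesOfSet_iff] at hx
    obtain ⟨s, hs, hsx⟩ := hx
    rw [isConj_iff] at hsx
    obtain ⟨c, rfl⟩ := hsx
    exact hK c s hs
  have hsimple : ∀ T : Subgroup G, T ≤ S → (∀ s ∈ S, ∀ t ∈ T, s * t * s⁻¹ ∈ T) →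
      T = ⊥ ∨ T = S := by
    intro T hTS hT
    apply hSmin T hTS
    have h1 : M ≤ Subgroup.normalizer (T : Set G) := by
      apply hclosure
      have key : ∀ g : G, ∀ s ∈ S, ∀ t ∈ T, g * s * g⁻¹ * t * (g * s * g⁻¹)⁻¹ ∈ T := by
        intro g s hs t ht
        by_cases hg : g ∈ B
        · exact hT _ (hconj g hg s hs) t ht
        · have h2 := hcomm g hg t (hTS ht) s hs
          rw [← h2.eq, mul_assoc, mul_inv_cancel, mul_one]
          exact ht
      intro g s hs n
      constructor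
      · intro hn
        exact key g s hs n hn
      · intro hn
        have h2 := key g s⁻¹ (S.inv_mem hs) _ hn
        have e : g * s⁻¹ * g⁻¹ * (g * s * g⁻¹ * n * (g * s * g⁻¹)⁻¹) * (g * s⁻¹ * g⁻¹)⁻¹ = n := by
          group
        rwa [e] at h2
    intro m hm t ht
    exact ((h1 hm) t).1 ht
  -- `S` is not commutative
  have hna : ∃ x ∈ S, ∃ y ∈ S, x * y ≠ y * x := by
    by_contra! hcon
    apply hMns
    have hall : ∀ g k : G, ∀ s ∈ S, ∀ t ∈ S, Commute (g * s * g⁻¹) (k * t * k⁻¹) := by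
      intro g k s hs t ht
      have h2 : Commute s ((g⁻¹ * k) * t * (g⁻¹ * k)⁻¹) := by
        by_cases hB : g⁻¹ * k ∈ B
        · exact hcon s hs _ (hconj _ hB t ht)
        · exact hcomm _ hB s hs t ht
      have h3 := (Commute.conj_iff g).2 h2
      have e : g * (g⁻¹ * k * t * (g⁻¹ * k)⁻¹) * g⁻¹ = k * t * k⁻¹ := by group
      rwa [e] at h3
    have h1 : ∀ m ∈ M, ∀ n ∈ M, m * n = n * m := by
      intro m hm n hn
      have h2 : ∀ g : G, ∀ s ∈ S, M ≤ Subgroup.centralizer {g * s * g⁻¹} := by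
        intro g s hs
        apply hclosure
        intro k t ht
        rw [Subgroup.mem_centralizer_iff]
        rintro _ rfl
        exact hall g k s hs t ht
      have h3 : M ≤ Subgroup.centralizer {m} := by
        apply hclosure
        intro g s hs
        rw [Subgroup.mem_centralizer_iff]
        rintro _ rfl
        have h4 := (Subgroup.mem_centralizer_iff.1 (h2 g s hs hm)) _ rfl
        exact h4.symm
      exact (Subgroup.mem_centralizer_iff.1 (h3 hn)) m rfl
    exact Group.isSolvable_of_comm fun a b => Subtype.ext (h1 a a.2 b b.2)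
  have hperf : ⁅S, S⁆ = S := by
    have h1 : ⁅S, S⁆ ≤ S := Subgroup.commutator_le.2 fun a ha b hb => by
      rw [commutatorElement_def]
      exact S.mul_mem (S.mul_mem (S.mul_mem ha hb) (S.inv_mem ha)) (S.inv_mem hb)
    rcases hsimple ⁅S, S⁆ h1 (by
      intro s hs t ht
      have h2 : t ∈ ⁅S, S⁆ := ht
      have h3 : ⁅S, S⁆.map (MulAut.conj s).toMonoidHom = ⁅S, S⁆ := by
        rw [Subgroup.map_commutator]
        have h4 : S.map (MulAut.conj s).toMonoidHom = S := by
          apply Subgroup.eq_of_le_of_card_ge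
          · rintro _ ⟨y, hy, rfl⟩
            have : s * y * s⁻¹ ∈ S := S.mul_mem (S.mul_mem hs hy) (S.inv_mem hs)
            simpa using this
          · exact (Subgroup.card_map_of_injective (MulAut.conj s).injective).ge
        rw [h4]
      rw [← h3]
      exact ⟨t, ht, by simp⟩) with h2 | h2
    · exfalso
      obtain ⟨x, hx, y, hy, hxy⟩ := hna
      apply hxy
      have h3 : ⁅x, y⁆ ∈ ⁅S, S⁆ := Subgroup.commutator_mem_commutator hx hy
      rw [h2, Subgroup.mem_bot] at h3
      exact commutatorElement_eq_one_iff_mul_comm.1 h3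
    · exact h2
  refine ⟨S, B, ?_, hna, hSinv⟩
  exact
    { SB := fun s hs => hMB (hSM hs)
      conj := hconj
      comm := hcomm
      cent := by
        intro g hg
        rw [hBmem]
        intro n
        constructor
        · intro hn
          rw [← (hg n hn).eq, mul_assoc, mul_inv_cancel, mul_one]
          exact hn
        · intro hn
          have h1 := hg _ hn
          have h2 : g * n * g⁻¹ * g = g * (g * n * g⁻¹) := h1.eq
          have h3 : n = g * n * g⁻¹ := by
            have h4 := congrArg (fun x => g⁻¹ * x) h2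
            simpa [mul_assoc] using h4
          rw [h3]
          exact hn
      perf := hperf
      simple := hsimple
      three := three_of_simple S hsimple hna
      normal := hM
      SN := hSM
      NB := hMB
      closure := hclosure }

end setup

end Pool.Agent.Helper89.PChar
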