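import Pool.Agent.Helper89.PCharRepThree

/-!
# The soluble case: irreducible representations with a vector fixed by a maximal subgroup `H`,
# on which some normal subgroup `M` not contained in `H` acts through commuting operators
-/

set_option autoImplicit false

universe u

namespace Pool.Agent.Helper89.PChar

open Representation Module

section soluble

variable {G : Type u} [Group G] {V : Type u} [AddCommGroup V] [Module ℂ V]

theorem rho_mul (ρ : Representation ℂ G V) (a b : G) (w : V) : ρ (a * b) w = ρ a (ρ b w) := by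
  rw [map_mul]
  rfl

/-- commuting operators have a common eigenvector -/
theorem exists_common_line [Finite G] [FiniteDimensional ℂ V] [Nontrivial V]
    (ρ : Representation ℂ G V) (M : Subgroup G)
    (hM : ∀ m ∈ M, ∀ n ∈ M, ρ (m * n) = ρ (n * m)) :
    ∃ v : V, v ≠ 0 ∧ M ≤ lineStab ρ v := by
  classical
  let P : ℕ → Prop := fun n => ∃ Z : Submodule ℂ V, (∀ m ∈ M, ∀ v ∈ Z, ρ m v ∈ Z) ∧
    finrank ℂ Z = n ∧ ∃ w ∈ Z, w ≠ 0
  obtain ⟨v₀, hv₀⟩ := exists_ne (0 : V)
  have hex : ∃ n, P n := ⟨_, ⊤, fun m _ v _ => trivial, rfl, v₀, trivial, hv₀⟩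
  obtain ⟨Z, hZ, hfr, w, hwZ, hw0⟩ := Nat.find_spec hex
  have hmin : ∀ Y : Submodule ℂ V, (∀ m ∈ M, ∀ v ∈ Y, ρ m v ∈ Y) → Y ≤ Z →
      (∃ w ∈ Y, w ≠ 0) → Y = Z := by
    intro Y hY hYZ hw
    have h1 : Nat.find hex ≤ finrank ℂ Y := Nat.find_min' hex ⟨Y, hY, rfl, hw⟩
    rw [← hfr] at h1
    exact Submodule.eq_of_le_of_finrank_le hYZ h1
  refine ⟨w, hw0, ?_⟩
  intro m hm
  rw [mem_lineStab' hw0]
  have hnt : Nontrivial Z := ⟨⟨w, hwZ⟩, 0, fun h => hw0 (congrArg Subtype.val h)⟩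
  obtain ⟨c, hc⟩ := Module.End.exists_eigenvalue ((ρ m).restrict fun v hv => hZ m hm v hv)
  obtain ⟨z, hz⟩ := hc.exists_hasEigenvector
  have hzc : ρ m z = c • (z : V) := congrArg Subtype.val hz.apply_eq_smul
  have hz0 : (z : V) ≠ 0 := fun h => hz.2 (Subtype.ext h)
  set Y : Submodule ℂ V := Z ⊓ LinearMap.ker (ρ m - c • LinearMap.id) with hYdef
  have hYmem : ∀ y : V, y ∈ Y ↔ y ∈ Z ∧ ρ m y = c • y := by
    intro y
    rw [hYdef, Submodule.mem_inf, LinearMap.mem_ker, LinearMap.sub_apply, sub_eq_zero]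
    rfl
  have hY : Y = Z := by
    apply hmin
    · intro n hn y hy
      rw [hYmem] at hy ⊢
      refine ⟨hZ n hn y hy.1, ?_⟩
      rw [← Module.End.mul_apply, ← map_mul, hM m hm n hn, map_mul, Module.End.mul_apply, hy.2,
        map_smul]
    · exact inf_le_left
    · exact ⟨z, (hYmem z).2 ⟨z.2, hzc⟩, hz0⟩
  rw [← hY, hYmem] at hwZ
  exact ⟨c, hwZ.2⟩

/-- the projection to the `lam`-eigenspace of a subgroup -/
noncomputable def eigProj (ρ : Representation ℂ G V) (M : Subgroup G) [Fintype M]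
    (lam : M →* ℂˣ) : V →ₗ[ℂ] V :=
  (Nat.card M : ℂ)⁻¹ • ∑ m : M, (lam m⁻¹ : ℂ) • ρ m

theorem eigProj_apply (ρ : Representation ℂ G V) (M : Subgroup G) [Fintype M]
    (lam : M →* ℂˣ) (w : V) :
    eigProj ρ M lam w = (Nat.card M : ℂ)⁻¹ • ∑ m : M, (lam m⁻¹ : ℂ) • ρ m w := by
  simp [eigProj, LinearMap.sum_apply]

theorem eigProj_rho (ρ : Representation ℂ G V) (M : Subgroup G) [Fintype M]
    (lam : M →* ℂˣ) (n : M) (w : V) :
    eigProj ρ M lam (ρ n w) = (lam n : ℂ) • eigProj ρ M lam w := by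
  have h : ∑ m : M, (lam m⁻¹ : ℂ) • ρ m (ρ n w)
      = (lam n : ℂ) • ∑ m : M, (lam m⁻¹ : ℂ) • ρ m w := by
    rw [Finset.smul_sum]
    refine Fintype.sum_equiv (Equiv.mulRight n) _ _ fun m => ?_
    rw [Equiv.coe_mulRight, smul_smul, mul_inv_rev, map_mul, Units.val_mul, ← mul_assoc,
      map_inv lam n, Units.mul_inv, one_mul, Subgroup.coe_mul, rho_mul]
  rw [eigProj_apply, eigProj_apply, h, smul_smul, smul_smul, mul_comm]

theorem eigProj_eigen [Finite G] (ρ : Representation ℂ G V) (M : Subgroup G) [Fintype M]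
    (lam mu : M →* ℂˣ) (w : V) (hw : ∀ m : M, ρ m w = (mu m : ℂ) • w) :
    eigProj ρ M lam w = if lam = mu then w else 0 := by
  classical
  rw [eigProj_apply]
  simp_rw [hw, smul_smul]
  rw [← Finset.sum_smul]
  set f : M →* ℂ := (Units.coeHom ℂ).comp (lam⁻¹ * mu) with hf
  have h1 : ∀ m : M, (lam m⁻¹ : ℂ) * (mu m : ℂ) = f m := by
    intro m
    simp [hf]
  simp_rw [h1]
  split_ifs with h
  · have h2 : f = 1 := by
      ext m
      simp [hf, h]
    rw [h2]
    simp only [MonoidHom.one_apply, Finset.sum_const, Finset.card_univ, nsmul_eq_mul, mul_one]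
    rw [smul_smul, Fintype.card_eq_nat_card, inv_mul_cancel₀, one_smul]
    exact_mod_cast Nat.card_pos.ne'
  · have h2 : f ≠ 1 := by
      intro h2
      apply h
      ext m
      have h3 := DFunLike.congr_fun h2 m
      simp only [hf, MonoidHom.comp_apply, MonoidHom.mul_apply, MonoidHom.inv_apply,
        Units.coeHom_apply, MonoidHom.one_apply] at h3
      have h4 : (lam m)⁻¹ * mu m = 1 := Units.ext h3
      rw [inv_mul_eq_one] at h4
      rw [h4]
    rw [sum_hom_units_eq_zero f h2, zero_smul, smul_zero]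

theorem monoRep_of_normal_comm [Finite G] [FiniteDimensional ℂ V] {ρ : Representation ℂ G V}
    (hρ : ρ.IsIrreducible) (H : Subgroup G) (hH : IsCoatom H) (v₀ : V)
    (hfix : ∀ h ∈ H, ρ h v₀ = v₀) (hv₀ : v₀ ≠ 0) (M : Subgroup G) [hMn : M.Normal]
    (hMH : ¬ M ≤ H) (hM : ∀ m ∈ M, ∀ n ∈ M, ρ (m * n) = ρ (n * m)) : MonoRep ρ := by
  classical
  have hnt : Nontrivial V := ((irr_iff ρ).1 hρ).1
  obtain ⟨v, hv, hMv⟩ := exists_common_line ρ M hM
  let _ := Fintype.ofFinite M
  let _ := Fintype.ofFinite G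
  obtain ⟨Lam, hLam⟩ := lineStab_char (ρ := ρ) hv
  set lam : M →* ℂˣ := Lam.comp (Subgroup.inclusion hMv) with hlam
  have hlamv : ∀ m : M, ρ m v = (lam m : ℂ) • v := fun m => hLam (Subgroup.inclusion hMv m)
  -- every `lam`-eigenvector is a multiple of `p v₀`
  have hprod : ∀ g : G, ∃ m ∈ M, ∃ h ∈ H, g = m * h := by
    intro g
    have h1 : M ⊔ H = ⊤ := by
      rw [sup_comm]
      exact hH.2 _ (left_lt_sup.2 hMH)
    have h2 : g ∈ M ⊔ H := by rw [h1]; trivial
    rw [Subgroup.mem_sup_of_normal_left] at h2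
    obtain ⟨m, hm, h, hh, rfl⟩ := h2
    exact ⟨m, hm, h, hh, rfl⟩
  have himg : ∀ w : V, ∃ c : ℂ, eigProj ρ M lam w = c • eigProj ρ M lam v₀ := by
    intro w
    have hw : w ∈ Submodule.span ℂ (Set.range fun g : G => ρ g v₀) := by
      rw [span_orbit hρ hv₀]
      trivial
    induction hw using Submodule.span_induction with
    | mem x hx =>
      obtain ⟨g, rfl⟩ := hx
      obtain ⟨m, hm, h, hh, rfl⟩ := hprod g
      refine ⟨lam ⟨m, hm⟩, ?_⟩
      have h1 : ρ (m * h) v₀ = ρ ((⟨m, hm⟩ : M) : G) v₀ := by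
        rw [map_mul, Module.End.mul_apply, hfix h hh]
      simp only
      rw [h1, eigProj_rho]
    | zero => exact ⟨0, by simp⟩
    | add x y _ _ hx hy =>
      obtain ⟨c, hc⟩ := hx
      obtain ⟨d, hd⟩ := hy
      exact ⟨c + d, by rw [map_add, hc, hd, add_smul]⟩
    | smul a x _ hx =>
      obtain ⟨c, hc⟩ := hx
      exact ⟨a * c, by rw [map_smul, hc, smul_smul]⟩
  have heig : ∀ w : V, (∀ m : M, ρ m w = (lam m : ℂ) • w) → ∃ c : ℂ, w = c • v := by
    intro w hw
    obtain ⟨c, hc⟩ := himg w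
    obtain ⟨d, hd⟩ := himg v
    rw [eigProj_eigen ρ M lam lam w hw, if_pos rfl] at hc
    rw [eigProj_eigen ρ M lam lam v hlamv, if_pos rfl] at hd
    have hd0 : d ≠ 0 := by
      rintro rfl
      rw [zero_smul] at hd
      exact hv hd
    refine ⟨c * d⁻¹, ?_⟩
    rw [hc, hd, smul_smul, mul_assoc, inv_mul_cancel₀ hd0, mul_one]
  -- the line stabiliser
  refine ⟨v, hv, le_antisymm (finrank_le_index hρ hv le_rfl) ?_⟩
  obtain ⟨D, hD⟩ : ∃ D, D = lineStab ρ v := ⟨_, rfl⟩
  rw [← hD]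
  let _ := Fintype.ofFinite (G ⧸ D)
  -- conjugate characters
  let cj : G → (M →* ℂˣ) := fun g => lam.comp
    ((MulAut.conjNormal g⁻¹ : MulAut M).toMonoidHom)
  have hcj : ∀ g : G, ∀ m : M, ρ m (ρ g v) = (cj g m : ℂ) • ρ g v := by
    intro g m
    have h1 : (cj g m : ℂ) • v = ρ (g⁻¹ * m * g) v := by
      have := hlamv (MulAut.conjNormal g⁻¹ m)
      rw [MulAut.conjNormal_apply, inv_inv] at this
      rw [this]
      rfl
    rw [← map_smul, h1, ← Module.End.mul_apply, ← Module.End.mul_apply, ← map_mul, ← map_mul]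
    congr 2
    group
  have hinj : ∀ g k : G, cj g = cj k → g⁻¹ * k ∈ D := by
    intro g k hgk
    rw [hD, mem_lineStab' hv]
    apply heig
    intro m
    have h1 : ρ ((MulAut.conjNormal g m : M) : G) (ρ k v)
        = (cj g (MulAut.conjNormal g m) : ℂ) • ρ k v := by
      rw [hgk]
      exact hcj k _
    have h2 : cj g (MulAut.conjNormal g m) = lam m := by
      change lam (MulAut.conjNormal g⁻¹ (MulAut.conjNormal g m)) = lam m
      congr 1
      apply Subtype.ext
      rw [MulAut.conjNormal_apply, MulAut.conjNormal_apply]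
      group
    rw [h2, MulAut.conjNormal_apply] at h1
    have h3 : ρ g⁻¹ (ρ (g * m * g⁻¹) (ρ k v)) = (lam m : ℂ) • ρ g⁻¹ (ρ k v) := by
      rw [h1, map_smul]
    have h4 : (m : G) * (g⁻¹ * k) = g⁻¹ * (g * m * g⁻¹ * k) := by group
    rw [← rho_mul, h4, rho_mul, rho_mul ρ (g * m * g⁻¹), h3, rho_mul]
  have hli : LinearIndependent ℂ (lineVec ρ v D) := by
    rw [linearIndependent_iff']
    intro s c hsum x hx
    have h1 : eigProj ρ M (cj (Quotient.out x)) (∑ y ∈ s, c y • lineVec ρ v D y) = 0 := by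
      rw [hsum, map_zero]
    rw [map_sum] at h1
    have h2 : ∀ y ∈ s, eigProj ρ M (cj (Quotient.out x)) (c y • lineVec ρ v D y)
        = if y = x then c x • lineVec ρ v D x else 0 := by
      intro y _
      have he : lineVec ρ v D y = ρ (Quotient.out y) v := rfl
      rw [map_smul, he, eigProj_eigen ρ M _ (cj (Quotient.out y)) _ (fun m => hcj _ m), ← he]
      by_cases hyx : y = x
      · subst hyx
        simp
      · rw [if_neg hyx, if_neg, smul_zero]
        intro h3
        apply hyx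
        have h4 := hinj _ _ h3
        rw [← QuotientGroup.eq, QuotientGroup.out_eq', QuotientGroup.out_eq'] at h4
        exact h4.symm
    rw [Finset.sum_congr rfl h2, Finset.sum_ite_eq' s x, if_pos hx] at h1
    rcases smul_eq_zero.1 h1 with h3 | h3
    · exact h3
    · exact absurd (rho_injective ρ (Quotient.out x) (by rw [map_zero]; exact h3)) hv
  have h5 := hli.fintype_card_le_finrank
  rwa [Subgroup.index, ← Fintype.card_eq_nat_card]

end soluble

end Pool.Agent.Helper89.PChar
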